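import Pool.Agent.TH823.KB.Full

/-! From the independence of one coordinate of the others to product sets -/

set_option autoImplicit false

namespace Pool.Agent.TH823.KB

open Finset
open Pool.Agent.TH823.OP (cn)
open ArithmeticFunction (cardFactors)

lemma pn_univ {r N : ℕ} (h : Fin r → ℕ) : pn N h (fun _ => Set.univ) = N := by
  have h1 : (pn N h (fun _ => Set.univ) : ℂ) = N := by
    rw [pn_sum]
    simp [Pool.Agent.TH823.OP.ind]
  exact_mod_cast h1

lemma prod_of_full {k N : ℕ} {ε : ℝ} (hN : 1 ≤ N) (h : Fin (k + 1) → ℕ) (S : Fin (k + 1) → Set ℕ)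
    (hyp : ∀ (i : Fin (k + 1)) (T : Set (Fin k → ℕ)),
      |cn N h i (S i) T / N - (p1 N 0 (S i) / N) * (cn N h i Set.univ T / N)| ≤ ε) :
    |pn N h S / N - ∏ i, (p1 N 0 (S i) / N)| ≤ (k + 1) * ε := by
  classical
  have hNr : (0 : ℝ) < N := by exact_mod_cast hN
  have key : ∀ A : Finset (Fin (k + 1)), |pn N h (fun i => if i ∈ A then S i else Set.univ) / N -
      ∏ i ∈ A, (p1 N 0 (S i) / N)| ≤ A.card * ε := by
    intro A
    induction A using Finset.induction_on with
    | empty =>
      simp only [notMem_empty, if_false, prod_empty, card_empty, Nat.cast_zero, zero_mul]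
      rw [pn_univ, div_self hNr.ne', sub_self, abs_zero]
    | insert i A hi ih =>
      set T : Set (Fin k → ℕ) := {v | ∀ j, v j ∈ (if i.succAbove j ∈ A then S (i.succAbove j) else Set.univ)} with hT
      have e1 : pn N h (fun j => if j ∈ insert i A then S j else Set.univ) = cn N h i (S i) T := by
        rw [pn_cn N h _ i, if_pos (mem_insert_self i A)]
        congr 1
        ext v
        rw [hT]
        change (∀ j, v j ∈ if i.succAbove j ∈ insert i A then S (i.succAbove j) else Set.univ) ↔
          ∀ j, v j ∈ if i.succAbove j ∈ A then S (i.succAbove j) else Set.univ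
        have : ∀ j, (i.succAbove j ∈ insert i A ↔ i.succAbove j ∈ A) := fun j => by
          rw [mem_insert]
          exact ⟨fun h => h.resolve_left (Fin.succAbove_ne i j), Or.inr⟩
        simp only [this]
      have e2 : pn N h (fun j => if j ∈ A then S j else Set.univ) = cn N h i Set.univ T := by
        rw [pn_cn N h _ i, if_neg hi]
      have h1 := hyp i T
      rw [← e1, ← e2] at h1
      rw [prod_insert hi, card_insert_of_notMem hi]
      push_cast
      set P := pn N h (fun j => if j ∈ insert i A then S j else Set.univ) / N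
      set P' := pn N h (fun j => if j ∈ A then S j else Set.univ) / N
      set p := p1 N 0 (S i) / N
      set q := ∏ i ∈ A, (p1 N 0 (S i) / N)
      have hp0 : 0 ≤ p := div_nonneg (p1_nonneg _ _ _) hNr.le
      have hp1 : p ≤ 1 := by rw [div_le_one hNr]; exact p1_le _ _ _
      have e3 : P - p * q = (P - p * P') + p * (P' - q) := by ring
      rw [e3]
      refine (abs_add_le _ _).trans ?_
      rw [abs_mul, abs_of_nonneg hp0]
      have h2 : p * |P' - q| ≤ 1 * (A.card * ε) := mul_le_mul hp1 ih (abs_nonneg _) zero_le_one
      linarith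
  have h1 := key univ
  simp only [mem_univ, if_true, card_univ, Fintype.card_fin] at h1
  push_cast at h1
  exact h1

end Pool.Agent.TH823.KB
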