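import Pool.Agent.TH823.OP.NearInv

/-! Averages over shifts of the sets -/

set_option autoImplicit false

namespace Pool.Agent.TH823.KB

open Finset
open Pool.Agent.TH823.OP (cn ind ind_bd)
open ArithmeticFunction (cardFactors)

open Classical in
/-- the number of the `n ≤ N` with `Ω (n + h i) ∈ S i` for all `i` -/
noncomputable def pn {r : ℕ} (N : ℕ) (h : Fin r → ℕ) (S : Fin r → Set ℕ) : ℝ :=
  (((Icc 1 N).filter fun n => ∀ i, cardFactors (n + h i) ∈ S i).card : ℝ)

lemma pn_sum {r : ℕ} (N : ℕ) (h : Fin r → ℕ) (S : Fin r → Set ℕ) :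
    (pn N h S : ℂ) = ∑ n ∈ Icc 1 N, ∏ i, ind (S i) (cardFactors (n + h i)) := by
  classical
  unfold pn ind
  rw [card_filter]
  push_cast
  apply sum_congr rfl
  intro n _
  rw [prod_ite_zero]
  simp only [prod_const_one, mem_univ, forall_const]
  split_ifs
  · simp
  · simp

lemma pn_cn {k : ℕ} (N : ℕ) (h : Fin (k + 1) → ℕ) (S : Fin (k + 1) → Set ℕ) (i : Fin (k + 1)) :
    pn N h S = cn N h i (S i) {v | ∀ j, v j ∈ S (i.succAbove j)} := by
  have h1 : ∀ n, (∀ i, cardFactors (n + h i) ∈ S i) ↔ (cardFactors (n + h i) ∈ S i ∧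
      (fun j => cardFactors (n + h (i.succAbove j))) ∈ {v : Fin k → ℕ | ∀ j, v j ∈ S (i.succAbove j)}) := by
    intro n
    rw [Fin.forall_iff_succAbove i]
    rfl
  unfold pn cn
  congr! 3
  exact h1 _

/-- the average of the indicator function -/
noncomputable def Gf (M s : ℕ) (S : Set ℕ) (l : ℕ) : ℂ := (∑ m ∈ range M, ind S (l + s * m)) / M

lemma Gf_bd {M s : ℕ} (hM : 1 ≤ M) (S : Set ℕ) (l : ℕ) : ‖Gf M s S l‖ ≤ 1 := by
  unfold Gf
  have hM0 : (0 : ℝ) < M := by exact_mod_cast hM
  rw [norm_div, Complex.norm_natCast, div_le_one hM0]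
  refine (norm_sum_le _ _).trans ((sum_le_sum fun m _ => ind_bd _ _).trans ?_)
  rw [sum_const, card_range, nsmul_eq_mul, mul_one]

lemma lip_of_step {f : ℕ → ℂ} {c : ℝ} (hf : ∀ a, ‖f (a + 1) - f a‖ ≤ c) (a b : ℕ) :
    ‖f a - f b‖ ≤ c * |(a : ℝ) - b| := by
  have key : ∀ a d : ℕ, ‖f (a + d) - f a‖ ≤ c * d := by
    intro a d
    induction d with
    | zero => simp
    | succ d ih =>
      have e1 : f (a + (d + 1)) - f a = (f (a + d + 1) - f (a + d)) + (f (a + d) - f a) := by
        rw [← add_assoc]; ring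
      rw [e1]
      refine (norm_add_le _ _).trans ((add_le_add (hf _) ih).trans (le_of_eq ?_))
      push_cast
      ring
  rcases le_total a b with h | h
  · obtain ⟨d, rfl⟩ := Nat.exists_eq_add_of_le h
    rw [norm_sub_rev]
    refine (key a d).trans (le_of_eq ?_)
    push_cast
    rw [abs_sub_comm, add_sub_cancel_left, Nat.abs_cast]
  · obtain ⟨d, rfl⟩ := Nat.exists_eq_add_of_le h
    refine (key b d).trans (le_of_eq ?_)
    push_cast
    rw [add_sub_cancel_left, Nat.abs_cast]

lemma ind_sub_bd (S : Set ℕ) (a b : ℕ) : ‖ind S a - ind S b‖ ≤ 1 := by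
  unfold ind
  split_ifs <;> simp

lemma Gf_lip {M s : ℕ} (hM : 1 ≤ M) (hs : 1 ≤ s) (S : Set ℕ) (a b : ℕ) :
    ‖Gf M s {l | l / s ∈ S} a - Gf M s {l | l / s ∈ S} b‖ ≤ 1 / M * |(a : ℝ) - b| := by
  have hM0 : (0 : ℝ) < M := by exact_mod_cast hM
  apply lip_of_step
  intro a
  have h1 : ∀ a, Gf M s {l | l / s ∈ S} a = (∑ m ∈ range M, ind S (a / s + m)) / M := by
    intro a
    unfold Gf
    congr 1
    apply sum_congr rfl
    intro m _
    have : ind {l | l / s ∈ S} (a + s * m) = ind S ((a + s * m) / s) := rfl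
    rw [this, Nat.add_mul_div_left _ _ hs]
  rw [h1, h1]
  have h2 : (a + 1) / s = a / s ∨ (a + 1) / s = a / s + 1 := by
    have e1 : a / s ≤ (a + 1) / s := Nat.div_le_div_right (by omega)
    have e2 : (a + 1) / s ≤ (a + s * 1) / s := Nat.div_le_div_right (by omega)
    rw [Nat.add_mul_div_left _ _ hs] at e2
    omega
  rcases h2 with h2 | h2
  · rw [h2, sub_self, norm_zero]
    positivity
  · rw [h2, ← sub_div, ← sum_sub_distrib, norm_div, Complex.norm_natCast]
    apply div_le_div_of_nonneg_right _ hM0.le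
    have h3 : ∑ m ∈ range M, (ind S (a / s + 1 + m) - ind S (a / s + m)) =
        ind S (a / s + M) - ind S (a / s + 0) := by
      rw [← sum_range_sub (fun m => ind S (a / s + m))]
      apply sum_congr rfl
      intro m _
      congr 2
      ring
    rw [h3]
    exact ind_sub_bd _ _ _

lemma shift_close {r N s : ℕ} (h : Fin r → ℕ) {e : ℝ}
    (H : ∀ (i : Fin r) (S : Fin r → Set ℕ), |pn N h (Function.update S i {l | l + s ∈ S i}) - pn N h S| ≤ e)
    (S : Fin r → Set ℕ) (K : ℕ) : ∀ m : Fin r → ℕ, ∑ i, m i = K →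
      |pn N h (fun i => {l | l + s * m i ∈ S i}) - pn N h S| ≤ K * e := by
  induction K with
  | zero =>
    intro m hm
    have h1 : ∀ i, m i = 0 := fun i => by
      have := single_le_sum (f := m) (fun _ _ => Nat.zero_le _) (mem_univ i)
      omega
    have h2 : (fun i => {l | l + s * m i ∈ S i}) = S := by
      funext i
      ext l
      rw [h1 i, mul_zero]
      rfl
    rw [h2, sub_self, abs_zero]
    simp
  | succ K ih =>
    intro m hm
    obtain ⟨i, hi⟩ : ∃ i, m i ≠ 0 := by
      by_contra hcon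
      push Not at hcon
      rw [sum_eq_zero (fun i _ => hcon i)] at hm
      omega
    set m' := Function.update m i (m i - 1) with hm'
    have e4 : m' i = m i - 1 := by rw [hm', Function.update_self]
    have e5 : ∀ j, j ≠ i → m' j = m j := fun j hj => by rw [hm', Function.update_of_ne hj]
    have h1 : ∑ j, m' j = K := by
      have e1 := add_sum_erase univ m (mem_univ i)
      have e2 := add_sum_erase univ m' (mem_univ i)
      have e3 : ∑ j ∈ univ.erase i, m' j = ∑ j ∈ univ.erase i, m j :=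
        sum_congr rfl fun j hj => e5 j (ne_of_mem_erase hj)
      omega
    have h2 := ih m' h1
    have h3 := H i (fun j => {l | l + s * m' j ∈ S j})
    have h4 : Function.update (fun j => {l | l + s * m' j ∈ S j}) i
        {l | l + s ∈ (fun j => {l | l + s * m' j ∈ S j}) i} = fun j => {l | l + s * m j ∈ S j} := by
      funext j
      by_cases hj : j = i
      · rw [hj, Function.update_self]
        ext l
        have e6 : l + s + s * m' i = l + s * m i := by
          rw [e4]
          obtain ⟨c, hc⟩ := Nat.exists_eq_succ_of_ne_zero hi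
          rw [hc, Nat.succ_sub_one, Nat.succ_eq_add_one]
          ring
        change l + s + s * m' i ∈ S i ↔ l + s * m i ∈ S i
        rw [e6]
      · rw [Function.update_of_ne hj, e5 j hj]
    rw [h4] at h3
    push_cast
    rw [abs_le] at *
    constructor <;> linarith [h2.1, h2.2, h3.1, h3.2]

lemma avg_close {r N M s : ℕ} (hM : 1 ≤ M) (h : Fin r → ℕ) {e : ℝ} (he : 0 ≤ e)
    (H : ∀ (i : Fin r) (S : Fin r → Set ℕ), |pn N h (Function.update S i {l | l + s ∈ S i}) - pn N h S| ≤ e)
    (S : Fin r → Set ℕ) :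
    ‖∑ n ∈ Icc 1 N, ∏ i, Gf M s (S i) (cardFactors (n + h i)) - (pn N h S : ℂ)‖ ≤ r * M * e := by
  classical
  have hM0 : (0 : ℝ) < M := by exact_mod_cast hM
  have hMc : (M : ℂ) ≠ 0 := by exact_mod_cast (by omega : M ≠ 0)
  set P : Finset (Fin r → ℕ) := Fintype.piFinset fun _ => range M with hP
  have hcard : P.card = M ^ r := by
    rw [hP, Fintype.card_piFinset, prod_const, card_range, card_univ, Fintype.card_fin]
  have h1 : ∑ n ∈ Icc 1 N, ∏ i, Gf M s (S i) (cardFactors (n + h i)) =
      (∑ m ∈ P, (pn N h (fun i => {l | l + s * m i ∈ S i}) : ℂ)) / (M : ℂ) ^ r := by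
    rw [eq_div_iff (pow_ne_zero _ hMc), sum_mul]
    simp only [pn_sum]
    rw [sum_comm]
    apply sum_congr rfl
    intro n _
    unfold Gf
    rw [prod_div_distrib, prod_const, card_univ, Fintype.card_fin, div_mul_cancel₀ _ (pow_ne_zero _ hMc),
      prod_univ_sum]
    rfl
  have h2 : (pn N h S : ℂ) = (∑ m ∈ P, (pn N h S : ℂ)) / (M : ℂ) ^ r := by
    rw [sum_const, hcard, nsmul_eq_mul]
    push_cast
    field_simp
  rw [h1, h2, ← sub_div, ← sum_sub_distrib, norm_div, norm_pow, Complex.norm_natCast,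
    div_le_iff₀ (by positivity)]
  refine (norm_sum_le _ _).trans ?_
  have h3 : ∀ m ∈ P, ‖(pn N h (fun i => {l | l + s * m i ∈ S i}) : ℂ) - (pn N h S : ℂ)‖ ≤ r * M * e := by
    intro m hm
    rw [← Complex.ofReal_sub, Complex.norm_real, Real.norm_eq_abs]
    refine (shift_close h H S _ m rfl).trans ?_
    apply mul_le_mul_of_nonneg_right _ he
    have h4 : ∑ i, m i ≤ ∑ _i : Fin r, M := sum_le_sum fun i _ => by
      rw [hP, Fintype.mem_piFinset] at hm
      exact (mem_range.1 (hm i)).le
    rw [sum_const, card_univ, Fintype.card_fin, smul_eq_mul] at h4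
    exact_mod_cast h4
  refine (sum_le_sum h3).trans ?_
  rw [sum_const, hcard, nsmul_eq_mul]
  push_cast
  exact le_of_eq (by ring)

end Pool.Agent.TH823.KB
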