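import Pool.Agent.TH823.KB.Sm
import Pool.Agent.W883.TL.OmA

/-! The mean of the difference between `Ω n` and the `Ω` of the part of `n` -/

set_option autoImplicit false

namespace Pool.Agent.TH823.KB

open Finset
open Pool.Agent.W883.TL (Om Om_prod Om_full big_bound)

lemma prod_close {ι : Type*} [DecidableEq ι] (s : Finset ι) (a b : ι → ℂ) (ha : ∀ i ∈ s, ‖a i‖ ≤ 1)
    (hb : ∀ i ∈ s, ‖b i‖ ≤ 1) : ‖∏ i ∈ s, a i - ∏ i ∈ s, b i‖ ≤ ∑ i ∈ s, ‖a i - b i‖ := by
  induction s using Finset.induction_on with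
  | empty => simp
  | insert j s hj ih =>
    rw [prod_insert hj, prod_insert hj, sum_insert hj]
    have h1 := ih (fun i hi => ha i (mem_insert_of_mem hi)) (fun i hi => hb i (mem_insert_of_mem hi))
    have e1 : a j * ∏ i ∈ s, a i - b j * ∏ i ∈ s, b i =
        (a j - b j) * ∏ i ∈ s, a i + b j * (∏ i ∈ s, a i - ∏ i ∈ s, b i) := by ring
    rw [e1]
    refine (norm_add_le _ _).trans ?_
    rw [norm_mul, norm_mul]
    have h2 : ‖∏ i ∈ s, a i‖ ≤ 1 := by
      rw [norm_prod]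
      exact prod_le_one (fun _ _ => norm_nonneg _) fun i hi => ha i (mem_insert_of_mem hi)
    have h3 := hb j (mem_insert_self j s)
    have h4 : ‖a j - b j‖ * ‖∏ i ∈ s, a i‖ ≤ ‖a j - b j‖ * 1 := mul_le_mul_of_nonneg_left h2 (norm_nonneg _)
    have h5 : ‖b j‖ * ‖∏ i ∈ s, a i - ∏ i ∈ s, b i‖ ≤ 1 * ‖∏ i ∈ s, a i - ∏ i ∈ s, b i‖ :=
      mul_le_mul_of_nonneg_right h3 (norm_nonneg _)
    linarith

lemma prod_close2 {ι : Type*} [DecidableEq ι] (s : Finset ι) (a b : ι → ℂ) {η : ℝ} (hη : 0 ≤ η)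
    (ha : ∀ i ∈ s, ‖a i‖ ≤ 2) (hb : ∀ i ∈ s, ‖b i‖ ≤ 2) (hab : ∀ i ∈ s, ‖a i - b i‖ ≤ η) :
    ‖∏ i ∈ s, a i - ∏ i ∈ s, b i‖ ≤ s.card * 2 ^ s.card * η := by
  induction s using Finset.induction_on with
  | empty => simp
  | insert j s hj ih =>
    rw [prod_insert hj, prod_insert hj, card_insert_of_notMem hj]
    have h1 := ih (fun i hi => ha i (mem_insert_of_mem hi)) (fun i hi => hb i (mem_insert_of_mem hi))
      (fun i hi => hab i (mem_insert_of_mem hi))
    have e1 : a j * ∏ i ∈ s, a i - b j * ∏ i ∈ s, b i =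
        (a j - b j) * ∏ i ∈ s, a i + b j * (∏ i ∈ s, a i - ∏ i ∈ s, b i) := by ring
    rw [e1]
    refine (norm_add_le _ _).trans ?_
    rw [norm_mul, norm_mul]
    have h2 : ‖∏ i ∈ s, a i‖ ≤ 2 ^ s.card := by
      rw [norm_prod]
      refine (prod_le_prod (fun _ _ => norm_nonneg _) fun i hi => ha i (mem_insert_of_mem hi)).trans ?_
      rw [prod_const]
    have h3 := hb j (mem_insert_self j s)
    have h4 : ‖a j - b j‖ * ‖∏ i ∈ s, a i‖ ≤ η * 2 ^ s.card :=
      mul_le_mul (hab j (mem_insert_self j s)) h2 (norm_nonneg _) hη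
    have h5 : ‖b j‖ * ‖∏ i ∈ s, a i - ∏ i ∈ s, b i‖ ≤ 2 * (s.card * 2 ^ s.card * η) :=
      mul_le_mul h3 h1 (norm_nonneg _) (by norm_num)
    have h6 : 0 ≤ η * 2 ^ s.card := by positivity
    push_cast
    rw [pow_succ]
    nlinarith

lemma pow_close {s ε : ℝ} (hs : |s - 1| ≤ ε) (hs0 : 0 ≤ s) (hs2 : s ≤ 2) (k : ℕ) : |s ^ k - 1| ≤ 2 ^ k * ε := by
  have hε : 0 ≤ ε := (abs_nonneg _).trans hs
  have key : ∀ k : ℕ, |s ^ k - 1| ≤ (2 ^ k - 1) * ε := by
    intro k
    induction k with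
    | zero => simp
    | succ k ih =>
      have e1 : s ^ (k + 1) - 1 = s * (s ^ k - 1) + (s - 1) := by ring
      rw [e1]
      refine (abs_add_le _ _).trans ?_
      rw [abs_mul, abs_of_nonneg hs0]
      have h1 : s * |s ^ k - 1| ≤ 2 * ((2 ^ k - 1) * ε) := mul_le_mul hs2 ih (abs_nonneg _) (by norm_num)
      rw [pow_succ]
      linarith
  refine (key k).trans ?_
  linarith

lemma Om_sm (B : Finset ℕ) (w y n : ℕ) : Om (sm B w y n) = ∑ l ∈ PP B w y, n.factorization l :=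
  Om_prod _ (fun _ hl => (mem_PP hl).2) _

lemma fac_sum (M l : ℕ) : ∑ m ∈ Icc 1 M, m.factorization l = (Nat.factorial M).factorization l := by
  induction M with
  | zero => simp
  | succ M ih =>
    rw [sum_Icc_succ_top (by omega), ih, Nat.factorial_succ,
      Nat.factorization_mul (by omega) (Nat.factorial_ne_zero M), Finsupp.add_apply, add_comm]

lemma fac_mean {l : ℕ} (hl : l.Prime) {A N h : ℕ} (hh : h ≤ A * N) :
    ∑ n ∈ Ioc 0 N, ((n + h).factorization l : ℝ) ≤ 2 * (A + 1) * N * (1 / l) := by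
  have h1 : ∑ n ∈ Ioc 0 N, (n + h).factorization l ≤ ∑ m ∈ Icc 1 ((A + 1) * N), m.factorization l := by
    rw [← sum_image (g := fun n => n + h) (f := fun m => m.factorization l) (s := Ioc 0 N)
      (fun a _ b _ hab => by simpa using hab)]
    apply sum_le_sum_of_subset
    intro m hm
    rw [mem_image] at hm
    obtain ⟨n, hn, rfl⟩ := hm
    rw [mem_Ioc] at hn
    rw [mem_Icc, add_mul, one_mul]
    omega
  rw [fac_sum] at h1
  have h2 := Nat.factorization_factorial_le_div_pred hl ((A + 1) * N)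
  have hl2 : (2 : ℝ) ≤ l := by exact_mod_cast hl.two_le
  have h3 : ((((A + 1) * N / (l - 1) : ℕ)) : ℝ) ≤ ((A + 1) * N : ℝ) / (l - 1) := by
    refine Nat.cast_div_le.trans (le_of_eq ?_)
    rw [Nat.cast_sub hl.one_lt.le]
    push_cast
    ring
  have h4 : (∑ n ∈ Ioc 0 N, ((n + h).factorization l : ℝ)) ≤ ((((A + 1) * N / (l - 1) : ℕ)) : ℝ) := by
    exact_mod_cast h1.trans h2
  refine h4.trans (h3.trans ?_)
  rw [mul_one_div, div_le_div_iff₀ (by linarith) (by linarith)]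
  have : (0 : ℝ) ≤ (A + 1) * N := by positivity
  nlinarith

lemma sum_union_le' (s t : Finset ℕ) (f : ℕ → ℕ) : ∑ l ∈ s ∪ t, f l ≤ ∑ l ∈ s, f l + ∑ l ∈ t, f l := by
  have := sum_union_inter (s₁ := s) (s₂ := t) (f := f)
  omega

lemma diff_pt {B : Finset ℕ} {w y R m : ℕ} (hy : 1 < y) (hm : m ≠ 0) (h : m < y ^ (R + 1)) :
    0 ≤ (Om m : ℝ) - Om (sm B w y m) ∧ (Om m : ℝ) - Om (sm B w y m) ≤
      ∑ l ∈ (Icc 1 w).filter Nat.Prime, (m.factorization l : ℝ) + ∑ l ∈ B, (m.factorization l : ℝ) + R := by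
  classical
  constructor
  · rw [Om_sm, Om_full hm (le_max_left m y), sub_nonneg]
    have : ∑ l ∈ PP B w y, m.factorization l ≤ ∑ l ∈ Pool.Agent.W208.TL.PP 0 (max m y), m.factorization l := by
      apply sum_le_sum_of_subset
      intro l hl
      have h1 := mem_PP hl
      unfold Pool.Agent.W208.TL.PP
      rw [mem_filter, mem_Ioc]
      exact ⟨⟨by omega, h1.1.2.trans (le_max_right _ _)⟩, h1.2⟩
    exact_mod_cast this
  · have h1 := (big_bound hm hy h).2
    have h2 : Om (Pool.Agent.W208.TL.sm 0 y m) ≤ ∑ l ∈ PP B w y, m.factorization l +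
        (∑ l ∈ (Icc 1 w).filter Nat.Prime, m.factorization l + ∑ l ∈ B, m.factorization l) := by
      rw [Pool.Agent.W883.TL.Om_sm]
      have hsub : Pool.Agent.W208.TL.PP 0 y ⊆ PP B w y ∪ ((Icc 1 w).filter Nat.Prime ∪ B) := by
        intro l hl
        unfold Pool.Agent.W208.TL.PP at hl
        rw [mem_filter, mem_Ioc] at hl
        rw [mem_union, mem_union]
        by_cases h3 : l ∈ B
        · exact Or.inr (Or.inr h3)
        by_cases h4 : l ≤ w
        · exact Or.inr (Or.inl (mem_filter.2 ⟨mem_Icc.2 ⟨hl.1.1, h4⟩, hl.2⟩))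
        · left
          unfold PP Pool.Agent.W208.TL.PP
          rw [mem_filter, mem_filter, mem_Ioc]
          exact ⟨⟨⟨by omega, hl.1.2⟩, hl.2⟩, h3⟩
      refine (sum_le_sum_of_subset hsub).trans ?_
      refine (sum_union_le' _ _ _).trans ?_
      exact Nat.add_le_add_left (sum_union_le' _ _ _) _
    rw [Om_sm]
    have h3 : (Om m : ℝ) ≤ (∑ l ∈ PP B w y, (m.factorization l : ℝ) +
        (∑ l ∈ (Icc 1 w).filter Nat.Prime, (m.factorization l : ℝ) + ∑ l ∈ B, (m.factorization l : ℝ))) + R := by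
      exact_mod_cast h1.trans (Nat.add_le_add_right h2 R)
    push_cast
    linarith

lemma diff_mean {B : Finset ℕ} (hB : ∀ l ∈ B, l.Prime) {A N w y R h : ℕ} (hy : 1 < y)
    (hN : (A + 1) * N < y ^ (R + 1)) (hh : h ≤ A * N) :
    ∑ n ∈ Ioc 0 N, |(Om (n + h) : ℝ) - Om (sm B w y (n + h))| ≤
      (2 * (A + 1) * (w + ∑ l ∈ B, 1 / (l : ℝ)) + R) * N := by
  have hpt : ∀ n ∈ Ioc 0 N, |(Om (n + h) : ℝ) - Om (sm B w y (n + h))| ≤
      ∑ l ∈ (Icc 1 w).filter Nat.Prime, ((n + h).factorization l : ℝ) + ∑ l ∈ B, ((n + h).factorization l : ℝ) + R := by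
    intro n hn
    rw [mem_Ioc] at hn
    have h1 := diff_pt (B := B) (w := w) (m := n + h) hy (by omega) (lt_of_le_of_lt (by
      rw [add_mul, one_mul]; omega) hN)
    rw [abs_of_nonneg h1.1]
    exact h1.2
  refine (sum_le_sum hpt).trans ?_
  rw [sum_add_distrib, sum_add_distrib, sum_const, Nat.card_Ioc, nsmul_eq_mul, sum_comm,
    sum_comm (s := Ioc 0 N) (t := B)]
  have h1 : ∑ l ∈ (Icc 1 w).filter Nat.Prime, ∑ n ∈ Ioc 0 N, ((n + h).factorization l : ℝ) ≤
      2 * (A + 1) * N * w := by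
    calc _ ≤ ∑ l ∈ (Icc 1 w).filter Nat.Prime, 2 * ((A : ℝ) + 1) * N * 1 := by
          apply sum_le_sum
          intro l hl
          rw [mem_filter, mem_Icc] at hl
          refine (fac_mean hl.2 hh).trans ?_
          apply mul_le_mul_of_nonneg_left _ (by positivity)
          rw [div_le_one (by exact_mod_cast hl.2.pos)]
          exact_mod_cast hl.2.one_lt.le
      _ = ((Icc 1 w).filter Nat.Prime).card * (2 * ((A : ℝ) + 1) * N) := by
          rw [sum_const, nsmul_eq_mul, mul_one]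
      _ ≤ w * (2 * ((A : ℝ) + 1) * N) := by
          apply mul_le_mul_of_nonneg_right _ (by positivity)
          have := card_filter_le (Icc 1 w) Nat.Prime
          rw [Nat.card_Icc, Nat.add_sub_cancel] at this
          exact_mod_cast this
      _ = _ := by ring
  have h2 : ∑ l ∈ B, ∑ n ∈ Ioc 0 N, ((n + h).factorization l : ℝ) ≤
      2 * (A + 1) * N * ∑ l ∈ B, 1 / (l : ℝ) := by
    rw [mul_sum]
    exact sum_le_sum fun l hl => fac_mean (hB l hl) hh
  have h3 : (2 * ((A : ℝ) + 1) * (w + ∑ l ∈ B, 1 / (l : ℝ)) + R) * N =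
      2 * (A + 1) * N * w + 2 * (A + 1) * N * ∑ l ∈ B, 1 / (l : ℝ) + (N - 0 : ℕ) * R := by
    push_cast; simp only [Nat.sub_zero]; ring
  rw [h3]
  linarith

end Pool.Agent.TH823.KB
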