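import Pool.Agent.TH823.KB.Claim
import Pool.Agent.TH823.KB.Law
import Pool.Agent.TH823.KB.Mean
import Pool.Agent.W975.TLTail

/-! Independence of smooth functions of the `Ω (n + h i)` -/

set_option autoImplicit false

namespace Pool.Agent.TH823.KB

open Finset
open Pool.Agent.W208.TL (lf box TAIL)
open Pool.Agent.W883.TL (Om)

theorem claim_all : CLAIM := C.claim law Pool.Agent.W975.TL.tail

lemma exists_y (K X : ℕ) (hK : 1 ≤ K) : ∃ y : ℕ, y ^ K ≤ X ∧ X < (y + 1) ^ K := by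
  have h0 : (0 : ℕ) ^ K ≤ X := by
    rw [zero_pow (by omega)]
    exact Nat.zero_le X
  refine ⟨Nat.findGreatest (fun y => y ^ K ≤ X) X,
    Nat.findGreatest_spec (P := fun y => y ^ K ≤ X) (Nat.zero_le X) h0, ?_⟩
  by_contra h
  push Not at h
  have h1 : Nat.findGreatest (fun y => y ^ K ≤ X) X + 1 ≤ X :=
    (Nat.le_self_pow (by omega) _).trans h
  exact Nat.findGreatest_is_greatest (P := fun y => y ^ K ≤ X) (Nat.lt_succ_self _) h1 h

/-- the primes dividing a difference -/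
def badp {r : ℕ} (h : Fin r → ℕ) : Finset ℕ :=
  (univ : Finset (Fin r × Fin r)).biUnion fun q => ((h q.1 : ℤ) - h q.2).natAbs.primeFactors

lemma badp_prime {r : ℕ} (h : Fin r → ℕ) : ∀ l ∈ badp h, l.Prime := by
  intro l hl
  unfold badp at hl
  rw [mem_biUnion] at hl
  obtain ⟨q, _, hq⟩ := hl
  exact Nat.prime_of_mem_primeFactors hq

lemma sum_biUnion_le' {ι : Type*} [DecidableEq ι] (s : Finset ι) (t : ι → Finset ℕ) (f : ℕ → ℝ)
    (hf : ∀ l, 0 ≤ f l) : ∑ l ∈ s.biUnion t, f l ≤ ∑ i ∈ s, ∑ l ∈ t i, f l := by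
  induction s using Finset.induction_on with
  | empty => simp
  | insert j s hj ih =>
    rw [biUnion_insert, sum_insert hj]
    have h1 := sum_union_inter (s₁ := t j) (s₂ := s.biUnion t) (f := f)
    have h2 : 0 ≤ ∑ l ∈ t j ∩ s.biUnion t, f l := sum_nonneg fun l _ => hf l
    linarith

lemma badp_sum {r : ℕ} (h : Fin r → ℕ) {C : ℝ}
    (hC : ∀ i j, ∑ p ∈ ((h i : ℤ) - h j).natAbs.primeFactors, 1 / (p : ℝ) ≤ C) :
    ∑ l ∈ badp h, 1 / (l : ℝ) ≤ r ^ 2 * C := by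
  unfold badp
  refine (sum_biUnion_le' _ _ _ fun l => by positivity).trans ?_
  refine (sum_le_sum fun q _ => hC q.1 q.2).trans ?_
  rw [sum_const, card_univ, Fintype.card_prod, Fintype.card_fin, nsmul_eq_mul]
  push_cast
  exact le_of_eq (by ring)

lemma indep_h {r w y : ℕ} (h : Fin r → ℕ) (hinj : Function.Injective h) :
    Indep (badp h) w y (fun _ => 1) (fun i => (h i : ℤ)) := by
  refine ⟨fun _ => le_rfl, fun l hl => ⟨fun _ => (mem_PP hl).2.one_lt.ne' ∘ Nat.dvd_one.1, fun i j hij hd => ?_⟩⟩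
  have hl2 : l ∉ badp h := by
    unfold PP at hl
    exact (mem_filter.1 hl).2
  apply hl2
  unfold badp
  rw [mem_biUnion]
  refine ⟨(j, i), mem_univ _, ?_⟩
  rw [Nat.mem_primeFactors]
  refine ⟨(mem_PP hl).2, ?_, ?_⟩
  · rw [← Int.natCast_dvd]
    simpa using hd
  · intro h0
    rw [Int.natAbs_eq_zero, sub_eq_zero] at h0
    exact hij (hinj (by exact_mod_cast h0)).symm

lemma indep_id {B : Finset ℕ} {r w y : ℕ} (hw : r ≤ w) :
    Indep B w y (fun _ : Fin r => 1) (fun i => ((i : ℕ) : ℤ)) := by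
  refine ⟨fun _ => le_rfl, fun l hl => ⟨fun _ => (mem_PP hl).2.one_lt.ne' ∘ Nat.dvd_one.1, fun i j hij hd => ?_⟩⟩
  have h1 := (mem_PP hl).1.1
  simp only [Nat.cast_one, one_mul] at hd
  have h2 : |((j : ℕ) : ℤ) - ((i : ℕ) : ℤ)| < l := by
    have := i.2
    have := j.2
    rw [abs_lt]
    constructor <;> omega
  have h3 := Int.eq_zero_of_abs_lt_dvd hd h2
  apply hij
  apply Fin.ext
  omega

lemma box_prod {r Z : ℕ} (F : Fin r → ℕ → ℂ) :
    ∑ d ∈ box r Z, ∏ i, F i (d i) = ∏ i, ∑ c ∈ Icc 1 Z, F i c := by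
  unfold Pool.Agent.W208.TL.box
  rw [prod_univ_sum]

/-- independence of smooth functions -/
theorem CI (A r : ℕ) (hr : 1 ≤ r) {C ε : ℝ} (hC : 0 ≤ C) (hε : 0 < ε) : ∃ δ : ℝ, 0 < δ ∧ ∃ N0 : ℕ, ∀ N : ℕ,
    N0 ≤ N → ∀ h : Fin r → ℕ, (∀ i, h i ≤ A * N) → Function.Injective h →
    (∀ i j, ∑ p ∈ ((h i : ℤ) - h j).natAbs.primeFactors, 1 / (p : ℝ) ≤ C) →
    ∀ G : Fin r → ℕ → ℂ, (∀ i l, ‖G i l‖ ≤ 1) → (∀ i a b, ‖G i a - G i b‖ ≤ δ * |(a : ℝ) - b|) →
    ‖(∑ n ∈ Ioc 0 N, ∏ i, G i (Om (n + h i))) / N - ∏ i, ((∑ n ∈ Ioc 0 N, G i (Om n)) / N)‖ ≤ ε := by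
  set T : ℝ := 1 + r * 2 ^ r * 2 ^ (r + 2) with hT
  have hT1 : 1 ≤ T := by
    have : (0 : ℝ) ≤ r * 2 ^ r * 2 ^ (r + 2) := by positivity
    linarith
  obtain ⟨ε1, hε1, hε1h, hε1T⟩ : ∃ ε1 : ℝ, 0 < ε1 ∧ ε1 ≤ 1 / 2 ∧ T * ε1 ≤ ε / 2 := by
    refine ⟨min (1 / 2) (ε / (2 * T)), by positivity, min_le_left _ _, ?_⟩
    calc T * min (1 / 2) (ε / (2 * T)) ≤ T * (ε / (2 * T)) :=
          mul_le_mul_of_nonneg_left (min_le_right _ _) (by linarith)
      _ = ε / 2 := by field_simp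
  obtain ⟨K1, K, w0, hK1, hK, hcl⟩ := claim_all r hr ε1 hε1
  set w := max w0 r with hw
  obtain ⟨y0, hy0⟩ := hcl w 1 (le_max_left _ _) le_rfl
    (fun l hl hd => absurd (Nat.dvd_one.1 hd) hl.one_lt.ne')
  set Λ : ℝ := 2 * (A + 1) * (w + r ^ 2 * C) + ((K + 1 : ℕ) : ℝ) with hΛ
  have hΛ0 : 0 < Λ := by positivity
  have hr0 : (0 : ℝ) < r := by exact_mod_cast hr
  refine ⟨ε / (4 * r * Λ), by positivity, (y0 + 2 + (A + 1) + 2 ^ K + 1) ^ K, fun N hN h hh hinj hσ G hG hL => ?_⟩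
  obtain ⟨y, hy1, hy2⟩ := exists_y K N hK
  have hyY : y0 + 2 + (A + 1) + 2 ^ K < y := by
    by_contra hcon
    push Not at hcon
    have : (y + 1) ^ K ≤ (y0 + 2 + (A + 1) + 2 ^ K + 1) ^ K := Nat.pow_le_pow_left (by omega) K
    omega
  have h2K : 1 ≤ 2 ^ K := Nat.one_le_two_pow
  have hN1 : 1 ≤ N := by
    have : 1 ≤ y ^ K := Nat.one_le_pow _ _ (by omega)
    omega
  have hNr : (0 : ℝ) < N := by exact_mod_cast hN1
  have hNc : (N : ℂ) ≠ 0 := by exact_mod_cast (by omega : N ≠ 0)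
  have hsize : (A + 1) * N < y ^ (K + 1 + 1) := by
    have h1 : N < 2 ^ K * y ^ K := by
      calc N < (y + 1) ^ K := hy2
        _ ≤ (2 * y) ^ K := Nat.pow_le_pow_left (by omega) K
        _ = 2 ^ K * y ^ K := mul_pow _ _ _
    calc (A + 1) * N < (A + 1) * (2 ^ K * y ^ K) := Nat.mul_lt_mul_of_pos_left h1 (by omega)
      _ ≤ y * (y * y ^ K) := Nat.mul_le_mul (by omega) (Nat.mul_le_mul_right _ (by omega))
      _ = y ^ (K + 1 + 1) := by ring
  set B := badp h with hB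
  obtain ⟨hmass, hlaw⟩ := hy0 y (by omega) B
  set Z := y ^ K1 with hZ
  set s : ℝ := ∑ d ∈ Icc 1 Z, mu B w y d with hs
  have hs0 : 0 ≤ s := sum_nonneg fun d _ => Pool.Agent.TH823.KB.C.mu_nonneg w y d
  have hs2 : s ≤ 2 := by
    have := (abs_le.1 hmass).2
    linarith
  have hsC : ∑ d ∈ Icc 1 Z, (mu B w y d : ℂ) = (s : ℂ) := by rw [hs]; push_cast; rfl
  -- the law at the shifts `h`
  have claim2 : ∀ β : Fin r → ℕ, Indep B w y (fun _ => 1) (fun i => (β i : ℤ)) → ∀ Ψ : (Fin r → ℕ) → ℂ,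
      (∀ d, ‖Ψ d‖ ≤ 1) → ‖(∑ n ∈ Ioc 0 N, Ψ (fun i => sm B w y (n + β i))) / N -
        ∑ d ∈ box r Z, Ψ d * ∏ i, (mu B w y (d i) : ℂ)‖ ≤ ε1 := by
    intro β hβ Ψ hΨ
    have h1 := hlaw (fun _ => 1) (fun i => (β i : ℤ)) hβ 0 N hy1 Ψ hΨ
    have h2 : (Ioc 0 N).filter (fun m => m ≡ 0 [MOD 1]) = Ioc 0 N := by
      apply filter_true_of_mem
      intro m _
      exact Nat.modEq_one
    rw [h2] at h1
    have h3 : ∀ (m : ℕ) (i : Fin r), lf 1 (β i : ℤ) m = m + β i := by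
      intro m i
      unfold Pool.Agent.W208.TL.lf
      have : ((1 : ℕ) : ℤ) * m + (β i : ℤ) = ((m + β i : ℕ) : ℤ) := by push_cast; ring
      rw [this, Int.natAbs_natCast]
    simp only [h3] at h1
    refine le_trans (le_of_eq ?_) h1
    congr 2
    rw [Nat.cast_one, one_div, div_eq_inv_mul]
  set κ : Fin r → ℂ := fun i => ∑ c ∈ Icc 1 Z, G i (Om c) * (mu B w y c : ℂ) with hκ
  have hκ2 : ∀ i, ‖κ i‖ ≤ 2 := by
    intro i
    refine le_trans ?_ hs2
    rw [hκ, hs]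
    refine (norm_sum_le _ _).trans (sum_le_sum fun c _ => ?_)
    rw [norm_mul, Complex.norm_real, Real.norm_of_nonneg (Pool.Agent.TH823.KB.C.mu_nonneg w y c)]
    exact mul_le_of_le_one_left (Pool.Agent.TH823.KB.C.mu_nonneg w y c) (hG i _)
  -- E2
  have E2 : ‖(∑ n ∈ Ioc 0 N, ∏ i, G i (Om (sm B w y (n + h i)))) / N - ∏ i, κ i‖ ≤ ε1 := by
    have h1 := claim2 h (indep_h h hinj) (fun d => ∏ i, G i (Om (d i))) (fun d => by
      rw [norm_prod]
      exact prod_le_one (fun _ _ => norm_nonneg _) fun i _ => hG i _)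
    have h2 : ∑ d ∈ box r Z, (∏ i, G i (Om (d i))) * ∏ i, (mu B w y (d i) : ℂ) = ∏ i, κ i := by
      rw [hκ, ← box_prod (fun i c => G i (Om c) * (mu B w y c : ℂ))]
      apply sum_congr rfl
      intro d _
      rw [prod_mul_distrib]
    rw [h2] at h1
    exact h1
  -- one coordinate
  set i0 : Fin r := ⟨0, hr⟩ with hi0
  set e : Fin r → ℂ := fun i => (∑ n ∈ Ioc 0 N, G i (Om (sm B w y n))) / N with he
  have hek : ∀ i, ‖e i - κ i‖ ≤ 2 ^ (r + 2) * ε1 := by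
    intro i
    have h1 := claim2 (fun j => (j : ℕ)) (indep_id (le_max_right _ _)) (fun d => G i (Om (d i0)))
      (fun d => hG i _)
    have h2 : ∑ d ∈ box r Z, G i (Om (d i0)) * ∏ j, (mu B w y (d j) : ℂ) = κ i * (s : ℂ) ^ (r - 1) := by
      have h3 : ∀ d ∈ box r Z, G i (Om (d i0)) * ∏ j, (mu B w y (d j) : ℂ) =
          ∏ j, ((if j = i0 then G i (Om (d j)) else 1) * (mu B w y (d j) : ℂ)) := by
        intro d _
        rw [prod_mul_distrib, prod_ite_eq' univ i0 (fun j => G i (Om (d j)))]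
        simp
      rw [sum_congr rfl h3, box_prod (fun j c => (if j = i0 then G i (Om c) else 1) * (mu B w y c : ℂ)),
        ← mul_prod_erase univ _ (mem_univ i0)]
      have h5 : ∑ c ∈ Icc 1 Z, (if i0 = i0 then G i (Om c) else 1) * (mu B w y c : ℂ) = κ i := by
        rw [hκ]
        simp
      rw [h5]
      congr 1
      · have h4 : ∀ j ∈ univ.erase i0, ∑ c ∈ Icc 1 Z, (if j = i0 then G i (Om c) else 1) * (mu B w y c : ℂ) =
            (s : ℂ) := by
          intro j hj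
          rw [← hsC]
          apply sum_congr rfl
          intro c _
          rw [if_neg (ne_of_mem_erase hj), one_mul]
        rw [prod_congr rfl h4, prod_const, card_erase_of_mem (mem_univ _), card_univ, Fintype.card_fin]
    rw [h2] at h1
    have h3 : (∑ n ∈ Ioc 0 N, (fun d : Fin r → ℕ => G i (Om (d i0))) (fun j => sm B w y (n + (j : ℕ)))) / (N : ℂ) =
        e i := by
      rw [he, hi0]
      simp
    rw [h3] at h1
    have h4 : ‖κ i * (s : ℂ) ^ (r - 1) - κ i‖ ≤ 2 * (2 ^ r * ε1) := by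
      have e1 : κ i * (s : ℂ) ^ (r - 1) - κ i = κ i * ((s ^ (r - 1) - 1 : ℝ) : ℂ) := by push_cast; ring
      rw [e1, norm_mul, Complex.norm_real, Real.norm_eq_abs]
      apply mul_le_mul (hκ2 i) _ (abs_nonneg _) (by norm_num)
      refine (pow_close hmass hs0 hs2 (r - 1)).trans ?_
      apply mul_le_mul_of_nonneg_right _ hε1.le
      exact pow_le_pow_right₀ (by norm_num) (by omega)
    have h5 : ‖e i - κ i‖ ≤ ε1 + 2 * (2 ^ r * ε1) := by
      have e1 : e i - κ i = (e i - κ i * (s : ℂ) ^ (r - 1)) + (κ i * (s : ℂ) ^ (r - 1) - κ i) := by ring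
      rw [e1]
      exact (norm_add_le _ _).trans (add_le_add h1 h4)
    refine h5.trans ?_
    have h6 : (1 : ℝ) ≤ 2 ^ r := one_le_pow₀ (by norm_num)
    have h7 : ε1 ≤ 2 ^ r * ε1 := le_mul_of_one_le_left hε1.le h6
    have h8 : (2 : ℝ) ^ (r + 2) * ε1 = 4 * (2 ^ r * ε1) := by rw [pow_add]; ring
    rw [h8]
    have : 0 ≤ 2 ^ r * ε1 := by positivity
    linarith
  have he1 : ∀ i, ‖e i‖ ≤ 1 := by
    intro i
    rw [he]
    simp only
    rw [norm_div, Complex.norm_natCast, div_le_one hNr]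
    refine (norm_sum_le _ _).trans ((sum_le_sum fun n _ => hG i _).trans ?_)
    rw [sum_const, Nat.card_Ioc, nsmul_eq_mul, mul_one]
    simp
  have E3 : ‖∏ i, κ i - ∏ i, e i‖ ≤ r * 2 ^ r * (2 ^ (r + 2) * ε1) := by
    have h1 := prod_close2 (univ : Finset (Fin r)) κ e (η := 2 ^ (r + 2) * ε1) (by positivity)
      (fun i _ => hκ2 i) (fun i _ => (he1 i).trans (by norm_num)) (fun i _ => by rw [norm_sub_rev]; exact hek i)
    rw [card_univ, Fintype.card_fin] at h1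
    exact h1
  -- replacement
  set δ : ℝ := ε / (4 * r * Λ) with hδ
  have hδ0 : 0 < δ := by positivity
  have hrepl : ∀ (i : Fin r) (g : ℕ), g ≤ A * N → ∑ n ∈ Ioc 0 N, ‖G i (Om (n + g)) - G i (Om (sm B w y (n + g)))‖ ≤
      δ * Λ * N := by
    intro i g hg
    have h1 := diff_mean (B := B) (badp_prime h) (A := A) (N := N) (w := w) (y := y) (R := K + 1) (h := g)
      (by omega) hsize hg
    have h2 : (2 * ((A : ℝ) + 1) * (w + ∑ l ∈ B, 1 / (l : ℝ)) + ((K + 1 : ℕ) : ℝ)) * N ≤ Λ * N := by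
      apply mul_le_mul_of_nonneg_right _ hNr.le
      rw [hΛ]
      have h3 := badp_sum h hσ
      rw [← hB] at h3
      have h4 := mul_le_mul_of_nonneg_left h3 (by positivity : 0 ≤ 2 * ((A : ℝ) + 1))
      linarith
    calc _ ≤ ∑ n ∈ Ioc 0 N, δ * |(Om (n + g) : ℝ) - Om (sm B w y (n + g))| := sum_le_sum fun n _ => hL i _ _
      _ = δ * ∑ n ∈ Ioc 0 N, |(Om (n + g) : ℝ) - Om (sm B w y (n + g))| := by rw [mul_sum]
      _ ≤ δ * (Λ * N) := mul_le_mul_of_nonneg_left (h1.trans h2) hδ0.le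
      _ = _ := by ring
  have E1 : ‖(∑ n ∈ Ioc 0 N, ∏ i, G i (Om (n + h i))) / N -
      (∑ n ∈ Ioc 0 N, ∏ i, G i (Om (sm B w y (n + h i)))) / N‖ ≤ r * (δ * Λ) := by
    rw [← sub_div, norm_div, Complex.norm_natCast, div_le_iff₀ hNr, ← sum_sub_distrib]
    refine (norm_sum_le _ _).trans ?_
    have h1 : ∀ n ∈ Ioc 0 N, ‖∏ i, G i (Om (n + h i)) - ∏ i, G i (Om (sm B w y (n + h i)))‖ ≤
        ∑ i, ‖G i (Om (n + h i)) - G i (Om (sm B w y (n + h i)))‖ := by
      intro n _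
      exact prod_close univ _ _ (fun i _ => hG i _) (fun i _ => hG i _)
    refine (sum_le_sum h1).trans ?_
    rw [sum_comm]
    refine (sum_le_sum fun i _ => hrepl i (h i) (hh i)).trans ?_
    rw [sum_const, card_univ, Fintype.card_fin, nsmul_eq_mul]
    exact le_of_eq (by ring)
  have E4 : ‖∏ i, e i - ∏ i, ((∑ n ∈ Ioc 0 N, G i (Om n)) / (N : ℂ))‖ ≤ r * (δ * Λ) := by
    refine (prod_close univ _ _ (fun i _ => he1 i) (fun i _ => ?_)).trans ?_
    · rw [norm_div, Complex.norm_natCast, div_le_one hNr]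
      refine (norm_sum_le _ _).trans ((sum_le_sum fun n _ => hG i _).trans ?_)
      rw [sum_const, Nat.card_Ioc, nsmul_eq_mul, mul_one]
      simp
    · have h1 : ∀ i ∈ (univ : Finset (Fin r)), ‖e i - (∑ n ∈ Ioc 0 N, G i (Om n)) / (N : ℂ)‖ ≤ δ * Λ := by
        intro i _
        rw [he]
        simp only
        rw [← sub_div, norm_div, Complex.norm_natCast, div_le_iff₀ hNr, ← sum_sub_distrib]
        refine (norm_sum_le _ _).trans ?_
        have h2 := hrepl i 0 (Nat.zero_le _)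
        simp only [add_zero] at h2
        refine le_trans (le_of_eq ?_) h2
        exact sum_congr rfl fun n _ => norm_sub_rev _ _
      refine (sum_le_sum h1).trans ?_
      rw [sum_const, card_univ, Fintype.card_fin, nsmul_eq_mul]
  have hfin : ∀ a b c d e' : ℂ, ‖a - e'‖ ≤ ‖a - b‖ + ‖b - c‖ + ‖c - d‖ + ‖d - e'‖ := by
    intro a b c d e'
    have : a - e' = (a - b) + (b - c) + (c - d) + (d - e') := by ring
    rw [this]
    exact (norm_add_le _ _).trans (add_le_add ((norm_add_le _ _).trans (add_le_add (norm_add_le _ _) le_rfl)) le_rfl)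
  refine (hfin _ _ _ _ _).trans ((add_le_add (add_le_add (add_le_add E1 E2) E3) E4).trans ?_)
  have h1 : (r : ℝ) * (δ * Λ) = ε / 4 := by rw [hδ]; field_simp
  have h2 : ε1 + r * 2 ^ r * (2 ^ (r + 2) * ε1) = T * ε1 := by rw [hT]; ring
  rw [h1]
  linarith

end Pool.Agent.TH823.KB
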