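import Pool.Agent.TH823.KB.Claim
import Pool.Agent.W883.TL.OmA

/-! Flatness of the law of `Ω` in the model -/

set_option autoImplicit false

namespace Pool.Agent.TH823.KB

open Finset
open Pool.Agent.W883.TL (Om)
open Pool.Agent.TH823.KB.C (V mu_def prime_of_sm)

variable {B : Finset ℕ}

/-- the completely multiplicative function `1 / n` -/
noncomputable def invHom : ℕ →* ℝ where
  toFun n := ((n : ℝ))⁻¹
  map_one' := by simp
  map_mul' a b := by push_cast; rw [mul_inv]

lemma mu_finset (w y : ℕ) (u : Finset ℕ) : ∑ d ∈ u, mu B w y d ≤ 1 := by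
  have hlt : ∀ {p : ℕ}, p.Prime → ‖invHom p‖ < 1 := by
    intro p hp
    have : (1 : ℝ) < p := by exact_mod_cast hp.one_lt
    change ‖((p : ℝ))⁻¹‖ < 1
    rw [norm_inv, Real.norm_natCast]
    exact inv_lt_one_of_one_lt₀ this
  obtain ⟨h1, h2⟩ := EulerProduct.summable_and_hasSum_factoredNumbers_prod_filter_prime_geometric hlt (PP B w y)
  have hfil : (PP B w y).filter Nat.Prime = PP B w y := filter_true_of_mem fun p hp => (mem_PP hp).2
  rw [hfil] at h2
  set s := Nat.factoredNumbers (PP B w y) with hs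
  have hVpos : 0 ≤ V B w y := Pool.Agent.TH823.KB.C.V_nonneg w y
  have hV : V B w y * ∏ p ∈ PP B w y, (1 - invHom p)⁻¹ = 1 := by
    unfold V
    rw [← prod_mul_distrib]
    apply prod_eq_one
    intro p hp
    have : (1 : ℝ) < p := by exact_mod_cast (mem_PP hp).2.one_lt
    have h3 : invHom p = 1 / (p : ℝ) := by
      change ((p : ℝ))⁻¹ = 1 / (p : ℝ)
      rw [one_div]
    rw [h3]
    apply mul_inv_cancel₀
    have : 1 / (p : ℝ) < 1 := by rw [div_lt_one (by linarith)]; exact this
    linarith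
  classical
  -- the terms outside `s` vanish
  have h3 : ∑ d ∈ u, mu B w y d = ∑ d ∈ u.filter (· ∈ s), mu B w y d := by
    rw [sum_filter]
    apply sum_congr rfl
    intro d _
    split_ifs with hd
    · rfl
    · rw [mu_def]
      rw [if_neg]
      intro hsm
      apply hd
      rw [hs, Nat.mem_factoredNumbers']
      intro p hp hpd
      exact prime_of_sm hsm hp hpd
  rw [h3]
  have h4 : ∀ d ∈ u.filter (· ∈ s), mu B w y d ≤ V B w y * invHom d := by
    intro d _
    rw [mu_def]
    split_ifs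
    · change V B w y / d ≤ V B w y * ((d : ℝ))⁻¹
      rw [div_eq_mul_inv]
    · exact mul_nonneg hVpos (by change (0 : ℝ) ≤ ((d : ℝ))⁻¹; positivity)
  refine (sum_le_sum h4).trans ?_
  rw [← mul_sum, ← hV]
  apply mul_le_mul_of_nonneg_left _ hVpos
  have h5 : ∑ d ∈ u.filter (· ∈ s), invHom d = ∑ d ∈ (u.filter (· ∈ s)).subtype (· ∈ s), invHom d := by
    rw [sum_subtype_of_mem (fun d => invHom d) (fun d hd => (mem_filter.1 hd).2)]
  rw [h5]
  exact sum_le_hasSum _ (fun d _ => by change (0 : ℝ) ≤ (((d : ℕ) : ℝ))⁻¹; positivity) h2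

lemma mu_summable (w y : ℕ) : Summable (mu B w y) :=
  summable_of_sum_le (fun d => Pool.Agent.TH823.KB.C.mu_nonneg w y d) (mu_finset w y)

lemma mu_tsum_le (w y : ℕ) : ∑' d, mu B w y d ≤ 1 :=
  (mu_summable w y).tsum_le_of_sum_le (mu_finset w y)

lemma mu_zero (w y : ℕ) : mu B w y 0 = 0 := by
  rw [mu_def]
  split_ifs <;> simp

lemma mu_mul' {w y l : ℕ} (hl : l ∈ PP B w y) (c : ℕ) : mu B w y (l * c) = mu B w y c / l := by
  rcases Nat.eq_zero_or_pos c with rfl | hc
  · rw [mul_zero, mu_zero, zero_div]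
  · exact Pool.Agent.TH823.KB.C.mu_mul hl (by omega)

section T

variable {E : Type*} [NormedAddCommGroup E] [NormedSpace ℝ E] [CompleteSpace E]

lemma T_summable (w y : ℕ) {f : ℕ → E} {C : ℝ} (hf : ∀ c, ‖f c‖ ≤ C) :
    Summable fun c => mu B w y c • f c := by
  apply Summable.of_norm_bounded ((mu_summable (B := B) w y).mul_right C)
  intro c
  rw [norm_smul, Real.norm_of_nonneg (Pool.Agent.TH823.KB.C.mu_nonneg w y c)]
  exact mul_le_mul_of_nonneg_left (hf c) (Pool.Agent.TH823.KB.C.mu_nonneg w y c)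

omit [CompleteSpace E] in
lemma T_shift {w y l : ℕ} (hl : l ∈ PP B w y) (f : ℕ → E) :
    ∑' c, (if l ∣ c then mu B w y c • f c else 0) = (1 / (l : ℝ)) • ∑' c, mu B w y c • f (l * c) := by
  have hl0 : l ≠ 0 := (mem_PP hl).2.ne_zero
  have hlr : (l : ℝ) ≠ 0 := by exact_mod_cast hl0
  rw [← tsum_const_smul'']
  have hinj : Function.Injective (fun c : ℕ => l * c) := fun a b h => Nat.eq_of_mul_eq_mul_left (Nat.pos_of_ne_zero hl0) h
  rw [← hinj.tsum_eq (f := fun c => if l ∣ c then mu B w y c • f c else 0)]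
  · apply tsum_congr
    intro c
    rw [if_pos (Dvd.intro c rfl), mu_mul' hl, smul_smul]
    congr 1
    ring
  · intro c hc
    rw [Function.mem_support] at hc
    by_cases h : l ∣ c
    · obtain ⟨d, rfl⟩ := h
      exact ⟨d, rfl⟩
    · rw [if_neg h] at hc
      exact absurd rfl hc

/-- the number of the prime divisors in the set -/
noncomputable def om2 (B : Finset ℕ) (w y c : ℕ) : ℝ := ∑ l ∈ PP B w y, if l ∣ c then (1 : ℝ) else 0

lemma om2_bd (w y c : ℕ) : ‖om2 B w y c‖ ≤ (PP B w y).card := by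
  unfold om2
  refine (norm_sum_le _ _).trans ?_
  have : ∀ l ∈ PP B w y, ‖(if l ∣ c then (1 : ℝ) else 0)‖ ≤ 1 := by
    intro l _
    split_ifs <;> simp
  refine (sum_le_sum this).trans ?_
  rw [sum_const, nsmul_eq_mul, mul_one]

lemma om2_nonneg (w y c : ℕ) : 0 ≤ om2 B w y c := by
  unfold om2
  exact sum_nonneg fun l _ => by split_ifs <;> norm_num

lemma T_om (w y : ℕ) {f : ℕ → E} {C : ℝ} (hf : ∀ c, ‖f c‖ ≤ C) :
    ∑' c, mu B w y c • (om2 B w y c • f c) = ∑ l ∈ PP B w y, (1 / (l : ℝ)) • ∑' c, mu B w y c • f (l * c) := by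
  have h1 : ∀ c, mu B w y c • (om2 B w y c • f c) = ∑ l ∈ PP B w y, if l ∣ c then mu B w y c • f c else 0 := by
    intro c
    unfold om2
    rw [sum_smul, smul_sum]
    apply sum_congr rfl
    intro l _
    split_ifs <;> simp
  rw [tsum_congr h1, Summable.tsum_finsetSum]
  · exact sum_congr rfl fun l hl => T_shift hl f
  · intro l _
    have h2 := T_summable (B := B) w y (f := fun c => if l ∣ c then f c else 0) (C := C) (by
      intro c
      split_ifs
      · exact hf c
      · rw [norm_zero]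
        exact (norm_nonneg _).trans (hf 0))
    refine h2.congr fun c => ?_
    split_ifs <;> simp

end T

/-- the sum of the reciprocals of the primes -/
noncomputable def LL (B : Finset ℕ) (w y : ℕ) : ℝ := ∑ l ∈ PP B w y, 1 / (l : ℝ)

lemma LL_nonneg (w y : ℕ) : 0 ≤ LL B w y := sum_nonneg fun _ _ => by positivity

lemma om2_mul {w y l : ℕ} (hl : l ∈ PP B w y) (c : ℕ) : om2 B w y (l * c) ≤ 1 + om2 B w y c := by
  have h1 : om2 B w y (l * c) ≤ ∑ q ∈ PP B w y, ((if q = l then (1 : ℝ) else 0) + if q ∣ c then (1 : ℝ) else 0) := by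
    unfold om2
    apply sum_le_sum
    intro q hq
    by_cases h : q ∣ l * c
    · rcases (mem_PP hq).2.dvd_mul.1 h with h2 | h2
      · have h3 := (Nat.prime_dvd_prime_iff_eq (mem_PP hq).2 (mem_PP hl).2).1 h2
        rw [if_pos h, if_pos h3]
        split_ifs <;> norm_num
      · rw [if_pos h, if_pos h2]
        split_ifs <;> norm_num
    · rw [if_neg h]
      split_ifs <;> norm_num
  refine h1.trans (le_of_eq ?_)
  rw [sum_add_distrib, sum_ite_eq' (PP B w y) l, if_pos hl]
  rfl

lemma second_moment (w y : ℕ) : ∑' c, mu B w y c * (om2 B w y c - LL B w y) ^ 2 ≤ LL B w y := by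
  set L := LL B w y with hL
  set m := ∑' c, mu B w y c with hm
  have hL0 : 0 ≤ L := LL_nonneg w y
  have hm0 : 0 ≤ m := tsum_nonneg fun c => Pool.Agent.TH823.KB.C.mu_nonneg w y c
  have hm1 : m ≤ 1 := mu_tsum_le w y
  set K : ℝ := ((PP B w y).card : ℝ) with hK
  have hs1 : Summable fun c => mu B w y c • om2 B w y c := T_summable w y (om2_bd w y)
  have hs2 : Summable fun c => mu B w y c • (om2 B w y c • om2 B w y c) :=
    T_summable (C := K * K) w y fun c => by
      rw [norm_smul]
      exact mul_le_mul (om2_bd w y c) (om2_bd w y c) (norm_nonneg _) (by positivity)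
  have e1 : ∑' c, mu B w y c • om2 B w y c = L * m := by
    have h1 := T_om (B := B) w y (f := fun _ => (1 : ℝ)) (C := 1) (fun c => by simp)
    simp only [smul_eq_mul, mul_one] at h1
    simp only [smul_eq_mul]
    rw [h1, ← hm, ← sum_mul]
    rfl
  have e2 : ∑' c, mu B w y c • (om2 B w y c • om2 B w y c) ≤ L * (m + L * m) := by
    rw [T_om (B := B) w y (om2_bd w y)]
    have h1 : L * (m + L * m) = ∑ l ∈ PP B w y, (1 / (l : ℝ)) • (m + L * m) := by
      simp only [smul_eq_mul]
      rw [← sum_mul]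
      rfl
    rw [h1]
    apply sum_le_sum
    intro l hl
    simp only [smul_eq_mul]
    apply mul_le_mul_of_nonneg_left _ (by positivity)
    have h2 : ∑' c, mu B w y c * om2 B w y (l * c) ≤ ∑' c, (mu B w y c + mu B w y c • om2 B w y c) := by
      apply Summable.tsum_le_tsum
      · intro c
        have := mul_le_mul_of_nonneg_left (om2_mul hl c) (Pool.Agent.TH823.KB.C.mu_nonneg (B := B) w y c)
        rw [smul_eq_mul]
        linarith
      · exact T_summable (E := ℝ) w y (f := fun c => om2 B w y (l * c)) (C := K) fun c => om2_bd w y _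
      · exact (mu_summable w y).add hs1
    refine h2.trans (le_of_eq ?_)
    rw [(mu_summable w y).tsum_add hs1, e1]
  have e3 : ∑' c, mu B w y c * (om2 B w y c - L) ^ 2 =
      ∑' c, mu B w y c • (om2 B w y c • om2 B w y c) - 2 * L * ∑' c, mu B w y c • om2 B w y c + L ^ 2 * m := by
    rw [← tsum_mul_left, hm, ← tsum_mul_left, ← hs2.tsum_sub (hs1.mul_left (2 * L)),
      ← (hs2.sub (hs1.mul_left (2 * L))).tsum_add ((mu_summable w y).mul_left (L ^ 2))]
    apply tsum_congr
    intro c
    simp only [smul_eq_mul]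
    ring
  rw [e3, e1]
  nlinarith

lemma first_moment (w y : ℕ) (hL : 0 < LL B w y) :
    ∑' c, mu B w y c * |om2 B w y c - LL B w y| ≤ √(LL B w y) := by
  set L := LL B w y with hLdef
  set R := √L with hR
  have hR0 : 0 < R := Real.sqrt_pos.2 hL
  have hRR : R * R = L := Real.mul_self_sqrt hL.le
  set K : ℝ := ((PP B w y).card : ℝ) with hK
  have hb : ∀ c, |om2 B w y c - L| ≤ K + L := fun c => by
    have h1 := om2_bd (B := B) w y c
    rw [Real.norm_eq_abs] at h1
    exact (abs_sub _ _).trans (add_le_add h1 (le_of_eq (abs_of_pos hL)))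
  have hs1 : Summable fun c => mu B w y c * |om2 B w y c - L| :=
    T_summable (E := ℝ) (C := K + L) w y fun c => by
      rw [Real.norm_eq_abs, abs_abs]
      exact hb c
  have hs2 : Summable fun c => mu B w y c * (om2 B w y c - L) ^ 2 :=
    T_summable (E := ℝ) (C := (K + L) ^ 2) w y fun c => by
      rw [Real.norm_eq_abs, abs_pow]
      exact pow_le_pow_left₀ (abs_nonneg _) (hb c) 2
  have h1 : ∑' c, mu B w y c * |om2 B w y c - L| ≤
      ∑' c, (R / 2 * mu B w y c + 1 / (2 * R) * (mu B w y c * (om2 B w y c - L) ^ 2)) := by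
    apply hs1.tsum_le_tsum _ (((mu_summable w y).mul_left _).add (hs2.mul_left _))
    intro c
    have h2 := Pool.Agent.TH823.KB.C.mu_nonneg (B := B) w y c
    have h3 : |om2 B w y c - L| ≤ R / 2 + 1 / (2 * R) * (om2 B w y c - L) ^ 2 := by
      rw [← sq_abs (om2 B w y c - L)]
      set t := |om2 B w y c - L|
      have h4 : 0 ≤ (t - R) ^ 2 := sq_nonneg _
      have h5 : R / 2 + 1 / (2 * R) * t ^ 2 - t = (t - R) ^ 2 / (2 * R) := by
        field_simp
        ring
      have h6 : 0 ≤ (t - R) ^ 2 / (2 * R) := by positivity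
      linarith
    have h7 := mul_le_mul_of_nonneg_left h3 h2
    linarith
  refine h1.trans ?_
  rw [((mu_summable w y).mul_left _).tsum_add (hs2.mul_left _), tsum_mul_left, tsum_mul_left]
  have h2 := second_moment (B := B) w y
  have h3 := mu_tsum_le (B := B) w y
  have h4 : 1 / (2 * R) * ∑' c, mu B w y c * (om2 B w y c - L) ^ 2 ≤ 1 / (2 * R) * L :=
    mul_le_mul_of_nonneg_left h2 (by positivity)
  have h5 : 1 / (2 * R) * L = R / 2 := by
    rw [← hRR]
    field_simp
  have h6 : R / 2 * ∑' c, mu B w y c ≤ R / 2 * 1 := mul_le_mul_of_nonneg_left h3 (by positivity)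
  linarith

/-- the mean of `G (a + Ω)` -/
noncomputable def kap (B : Finset ℕ) (w y : ℕ) (G : ℕ → ℂ) (a : ℕ) : ℂ := ∑' c, mu B w y c • G (a + Om c)

lemma kap_step (w y : ℕ) {G : ℕ → ℂ} (hG : ∀ l, ‖G l‖ ≤ 1) (hL : 0 < LL B w y) (a : ℕ) :
    ‖kap B w y G (a + 1) - kap B w y G a‖ ≤ 1 / √(LL B w y) := by
  set L := LL B w y with hLdef
  have hb : ∀ c, |om2 B w y c - L| ≤ (PP B w y).card + L := fun c => by
    have h1 := om2_bd (B := B) w y c
    rw [Real.norm_eq_abs] at h1
    exact (abs_sub _ _).trans (add_le_add h1 (le_of_eq (abs_of_pos hL)))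
  have hs0 : Summable fun c => mu B w y c • G (a + Om c) := T_summable w y fun c => hG _
  have hs1 : Summable fun c => mu B w y c • (om2 B w y c • G (a + Om c)) :=
    T_summable (C := (PP B w y).card) w y fun c => by
      rw [norm_smul]
      calc ‖om2 B w y c‖ * ‖G (a + Om c)‖ ≤ (PP B w y).card * 1 :=
            mul_le_mul (om2_bd w y c) (hG _) (norm_nonneg _) (by positivity)
        _ = _ := mul_one _
  have e1 : ∑' c, mu B w y c • (om2 B w y c • G (a + Om c)) = L • kap B w y G (a + 1) := by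
    rw [T_om (B := B) w y (f := fun c => G (a + Om c)) (C := 1) fun c => hG _]
    have h1 : ∀ l ∈ PP B w y, (1 / (l : ℝ)) • ∑' c, mu B w y c • G (a + Om (l * c)) =
        (1 / (l : ℝ)) • kap B w y G (a + 1) := by
      intro l hl
      congr 1
      apply tsum_congr
      intro c
      rcases Nat.eq_zero_or_pos c with rfl | hc
      · rw [mu_zero, zero_smul, zero_smul]
      · have h2 : Om (l * c) = 1 + Om c := by
          change ArithmeticFunction.cardFactors (l * c) = 1 + ArithmeticFunction.cardFactors c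
          rw [ArithmeticFunction.cardFactors_mul (mem_PP hl).2.ne_zero (by omega),
            ArithmeticFunction.cardFactors_apply_prime (mem_PP hl).2]
        rw [h2]
        congr 2
        ring
    rw [sum_congr rfl h1, ← sum_smul]
    rfl
  have e2 : L • (kap B w y G (a + 1) - kap B w y G a) =
      ∑' c, mu B w y c • ((om2 B w y c - L) • G (a + Om c)) := by
    rw [smul_sub, ← e1]
    unfold kap
    rw [← tsum_const_smul'', ← hs1.tsum_sub (hs0.const_smul L)]
    apply tsum_congr
    intro c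
    rw [sub_smul, smul_sub, smul_comm L]
  have hs2 : Summable fun c => mu B w y c * |om2 B w y c - L| :=
    T_summable (E := ℝ) (C := (PP B w y).card + L) w y fun c => by
      rw [Real.norm_eq_abs, abs_abs]
      exact hb c
  have hle : ∀ c, ‖mu B w y c • ((om2 B w y c - L) • G (a + Om c))‖ ≤ mu B w y c * |om2 B w y c - L| := by
    intro c
    rw [norm_smul, norm_smul, Real.norm_of_nonneg (Pool.Agent.TH823.KB.C.mu_nonneg w y c), Real.norm_eq_abs]
    apply mul_le_mul_of_nonneg_left _ (Pool.Agent.TH823.KB.C.mu_nonneg w y c)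
    exact mul_le_of_le_one_right (abs_nonneg _) (hG _)
  have h3 : ‖L • (kap B w y G (a + 1) - kap B w y G a)‖ ≤ √L := by
    rw [e2]
    exact (tsum_of_norm_bounded hs2.hasSum hle).trans (first_moment w y hL)
  rw [norm_smul, Real.norm_of_nonneg hL.le] at h3
  have hR0 : 0 < √L := Real.sqrt_pos.2 hL
  have hRR : √L * √L = L := Real.mul_self_sqrt hL.le
  rw [le_div_iff₀ hR0]
  have h4 : √L * (‖kap B w y G (a + 1) - kap B w y G a‖ * √L) ≤ √L * 1 := by
    calc _ = (√L * √L) * ‖kap B w y G (a + 1) - kap B w y G a‖ := by ring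
      _ ≤ √L * 1 := by rw [hRR, mul_one]; exact h3
  exact le_of_mul_le_mul_left h4 hR0

lemma kap_flat (w y : ℕ) {G : ℕ → ℂ} (hG : ∀ l, ‖G l‖ ≤ 1) (hL : 0 < LL B w y) (a : ℕ) :
    ‖kap B w y G a - kap B w y G 0‖ ≤ a * (1 / √(LL B w y)) := by
  induction a with
  | zero => simp
  | succ a ih =>
    have e1 : kap B w y G (a + 1) - kap B w y G 0 =
        (kap B w y G (a + 1) - kap B w y G a) + (kap B w y G a - kap B w y G 0) := by ring
    rw [e1]
    refine (norm_add_le _ _).trans ((add_le_add (kap_step w y hG hL a) ih).trans (le_of_eq ?_))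
    push_cast
    ring

lemma kap_trunc (w y Z : ℕ) {G : ℕ → ℂ} (hG : ∀ l, ‖G l‖ ≤ 1) (a : ℕ) :
    ‖kap B w y G a - ∑ c ∈ Icc 1 Z, G (a + Om c) * (mu B w y c : ℂ)‖ ≤ 1 - ∑ c ∈ Icc 1 Z, mu B w y c := by
  have hs0 : Summable fun c => mu B w y c • G (a + Om c) := T_summable w y fun c => hG _
  have h1 := hs0.sum_add_tsum_compl (s := Icc 1 Z)
  have h2 := (mu_summable (B := B) w y).sum_add_tsum_compl (s := Icc 1 Z)
  have e1 : kap B w y G a - ∑ c ∈ Icc 1 Z, G (a + Om c) * (mu B w y c : ℂ) =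
      ∑' c : (((↑(Icc 1 Z) : Set ℕ)ᶜ : Set ℕ)), mu B w y c • G (a + Om c) := by
    unfold kap
    rw [← h1]
    have : ∑ c ∈ Icc 1 Z, mu B w y c • G (a + Om c) = ∑ c ∈ Icc 1 Z, G (a + Om c) * (mu B w y c : ℂ) := by
      apply sum_congr rfl
      intro c _
      rw [Complex.real_smul, mul_comm]
    rw [this]
    ring
  rw [e1]
  have h3 : ‖∑' c : (((↑(Icc 1 Z) : Set ℕ)ᶜ : Set ℕ)), mu B w y c • G (a + Om c)‖ ≤
      ∑' c : (((↑(Icc 1 Z) : Set ℕ)ᶜ : Set ℕ)), mu B w y c := by
    apply tsum_of_norm_bounded ((mu_summable (B := B) w y).subtype _).hasSum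
    intro c
    rw [norm_smul, Real.norm_of_nonneg (Pool.Agent.TH823.KB.C.mu_nonneg w y _)]
    exact mul_le_of_le_one_right (Pool.Agent.TH823.KB.C.mu_nonneg w y _) (hG _)
  have h4 := mu_tsum_le (B := B) w y
  linarith

end Pool.Agent.TH823.KB
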