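import Pool.Agent.TH823.OP.OmSum

/-! Size of the sums of the reciprocals of the primes -/

set_option autoImplicit false

namespace Pool.Agent.TH823.KB

open Finset
open Pool.Agent.TH823.OP (prime_recip)

lemma size_bound {K : ℕ} (hK : 1 ≤ K) {D ε : ℝ} (hD : 0 ≤ D) (hε : 0 < ε) : ∃ z0 : ℕ, ∀ z y : ℕ, z0 ≤ z →
    16 ^ z ≤ 16 * (2 * y) ^ (2 * K) → ∀ L : ℝ, ∑ p ∈ (Ioc z y).filter Nat.Prime, 1 / (p : ℝ) ≤ L + D →
    0 < L ∧ 2 * (∑ p ∈ (Icc 1 z).filter Nat.Prime, 1 / (p : ℝ)) * (1 / √L) ≤ ε := by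
  obtain ⟨C1, hC1, hm⟩ := Pool.Agent.Helper923.HMertens.mertens_ratio
  obtain ⟨C3, hC3, hpr⟩ := prime_recip
  have hKr : (1 : ℝ) ≤ K := by exact_mod_cast hK
  have hlK : 0 ≤ Real.log (2 * K) := Real.log_nonneg (by linarith)
  set C2 : ℝ := Real.log (2 * K) + C1 + D with hC2
  have hC20 : 0 ≤ C2 := by positivity
  set X : ℝ := 2 / ε ^ 2 * (128 + 8 * C3 ^ 2 + ε ^ 2 * C2) + 1 with hX
  have hX1 : 1 ≤ X := by
    have : 0 ≤ 2 / ε ^ 2 * (128 + 8 * C3 ^ 2 + ε ^ 2 * C2) := by positivity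
    linarith
  obtain ⟨z1, hz1⟩ := exists_nat_ge (Real.exp (X ^ 2))
  refine ⟨z1 + 16 * K ^ 2 + K + 3, fun z y hz hzy L hL => ?_⟩
  have hz3 : 3 ≤ z := by omega
  have hzr : (3 : ℝ) ≤ z := by exact_mod_cast hz3
  have hz0 : (0 : ℝ) < z := by linarith
  set u := Real.log z with hu
  have hu1 : X ^ 2 ≤ u := by
    rw [hu, Real.le_log_iff_exp_le hz0]
    exact hz1.trans (by exact_mod_cast (by omega : z1 ≤ z))
  have hu0 : 1 ≤ u := le_trans (one_le_pow₀ hX1) hu1
  -- `log y`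
  have hy0 : 0 < y := by
    rcases Nat.eq_zero_or_pos y with rfl | h
    · rw [mul_zero, zero_pow (by omega), mul_zero] at hzy
      have : 0 < 16 ^ z := by positivity
      omega
    · exact h
  have hyr : (0 : ℝ) < y := by exact_mod_cast hy0
  have hlogy : (z : ℝ) / (2 * K) ≤ Real.log y := by
    have h1 : ((16 : ℝ)) ^ z ≤ 16 * (2 * y) ^ (2 * K) := by exact_mod_cast hzy
    have h2 := Real.log_le_log (by positivity) h1
    rw [Real.log_pow, Real.log_mul (by norm_num) (by positivity), Real.log_pow,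
      Real.log_mul (by norm_num) hyr.ne'] at h2
    have h3 : Real.log 16 = 4 * Real.log 2 := by
      rw [show (16 : ℝ) = 2 ^ 4 by norm_num, Real.log_pow]
      norm_num
    rw [h3] at h2
    push_cast at h2
    have h4 := Real.log_two_gt_d9
    have h5 := Real.log_two_lt_d9
    have hzK : (K : ℝ) + 3 ≤ z := by exact_mod_cast (by omega : K + 3 ≤ z)
    rw [div_le_iff₀ (by positivity)]
    have a1 := mul_le_mul_of_nonneg_left h5.le (by linarith : (0 : ℝ) ≤ K)
    have a2 := mul_le_mul_of_nonneg_left h4.le (by linarith : (0 : ℝ) ≤ z - 1)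
    linarith
  have hzK2 : (16 : ℝ) * K ^ 2 ≤ z := by exact_mod_cast (by omega : 16 * K ^ 2 ≤ z)
  have hulog : u ≤ z / (2 * K) := by
    have h1 : u ≤ 2 * √z := by
      have := Real.log_le_sub_one_of_pos (Real.sqrt_pos.2 hz0)
      rw [Real.log_sqrt hz0.le] at this
      linarith
    refine h1.trans ?_
    rw [le_div_iff₀ (by positivity)]
    have h2 : 4 * (K : ℝ) ≤ √z := by
      apply Real.le_sqrt_of_sq_le
      have : (4 * (K : ℝ)) ^ 2 = 16 * K ^ 2 := by ring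
      rw [this]
      exact hzK2
    calc 2 * √(z : ℝ) * (2 * K) = 4 * K * √z := by ring
      _ ≤ √z * √z := mul_le_mul_of_nonneg_right h2 (Real.sqrt_nonneg _)
      _ = z := Real.mul_self_sqrt hz0.le
  have hzy' : z ≤ y := by
    have : (z : ℝ) ≤ y := (Real.log_le_log_iff hz0 hyr).1 (hulog.trans hlogy)
    exact_mod_cast this
  have h1 := (abs_le.1 (hm z y (by omega) hzy')).1
  have h2 : Real.log (Real.log y / u) ≥ u - Real.log (2 * K) - Real.log u := by
    have h3 : (z : ℝ) / (2 * K) / u ≤ Real.log y / u := div_le_div_of_nonneg_right hlogy (by linarith)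
    have h4 := Real.log_le_log (by positivity) h3
    rw [Real.log_div (by positivity) (by linarith), Real.log_div (by positivity) (by positivity)] at h4
    linarith
  have h5 : C1 / u ≤ C1 := div_le_self hC1 hu0
  have hLlow : u - Real.log u - C2 ≤ L := by
    rw [← hu] at h1
    linarith
  -- `q = √u`
  set q := √u with hq
  have hqq : q ^ 2 = u := Real.sq_sqrt (by linarith)
  have hqX : X ≤ q := Real.le_sqrt_of_sq_le hu1
  have hq0 : 0 < q := by linarith
  have hlogu : Real.log u ≤ 4 * √q := by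
    have h6 := Real.log_le_sub_one_of_pos (Real.sqrt_pos.2 hq0)
    rw [Real.log_sqrt hq0.le, hq, Real.log_sqrt (by linarith)] at h6
    rw [hq]
    linarith
  have hlogu2 : Real.log u ≤ u / 2 := by
    have h6 := Real.log_le_sub_one_of_pos hq0
    rw [hq, Real.log_sqrt (by linarith)] at h6
    rw [← hq] at h6
    have h7 := sq_nonneg (q - 2)
    have h8 : (q - 2) ^ 2 = q ^ 2 - 4 * q + 4 := by ring
    rw [h8, hqq] at h7
    linarith
  have hlogu0 : 0 ≤ Real.log u := Real.log_nonneg hu0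
  have hL2 : q ^ 2 / 2 - C2 ≤ L := by rw [hqq]; linarith
  have hmain : 128 * q + 8 * C3 ^ 2 ≤ ε ^ 2 * (q ^ 2 / 2 - C2) := by
    have e1 : ε ^ 2 * (X - 1) / 2 = 128 + 8 * C3 ^ 2 + ε ^ 2 * C2 := by
      rw [hX]
      field_simp
      ring
    have e2 : (128 + 8 * C3 ^ 2 + ε ^ 2 * C2) * q ≤ ε ^ 2 * q ^ 2 / 2 := by
      rw [← e1]
      have h7 : (X - 1) * q ≤ q * q := mul_le_mul_of_nonneg_right (by linarith) hq0.le
      have h8 := mul_le_mul_of_nonneg_left h7 (by positivity : 0 ≤ ε ^ 2)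
      calc ε ^ 2 * (X - 1) / 2 * q = ε ^ 2 * ((X - 1) * q) / 2 := by ring
        _ ≤ ε ^ 2 * (q * q) / 2 := by linarith
        _ = ε ^ 2 * q ^ 2 / 2 := by ring
    have e3 : 0 ≤ (8 * C3 ^ 2 + ε ^ 2 * C2) * (q - 1) := by
      apply mul_nonneg (by positivity)
      linarith
    linarith
  have hLpos : 0 < L := by
    have e1 : 0 < ε ^ 2 * (q ^ 2 / 2 - C2) := lt_of_lt_of_le (by positivity) hmain
    have e2 : 0 < q ^ 2 / 2 - C2 := (mul_pos_iff_of_pos_left (by positivity)).1 e1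
    linarith
  refine ⟨hLpos, ?_⟩
  have hP := hpr z hz3
  rw [← hu] at hP
  set P := ∑ p ∈ (Icc 1 z).filter Nat.Prime, 1 / (p : ℝ) with hPdef
  have hP0 : 0 ≤ P := sum_nonneg fun _ _ => by positivity
  have hsqL : 0 < √L := Real.sqrt_pos.2 hLpos
  rw [mul_one_div, div_le_iff₀ hsqL]
  have hP2 : (2 * P) ^ 2 ≤ (ε * √L) ^ 2 := by
    rw [mul_pow ε, Real.sq_sqrt hLpos.le]
    have e1 : P ^ 2 ≤ (4 * √q + C3) ^ 2 := pow_le_pow_left₀ hP0 (by linarith) 2
    have e2 : √q * √q = q := Real.mul_self_sqrt hq0.le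
    have e3 : (4 * √q + C3) ^ 2 ≤ 2 * (16 * q + C3 ^ 2) := by
      have e6 := sq_nonneg (4 * √q - C3)
      have e7 : (4 * √q + C3) ^ 2 + (4 * √q - C3) ^ 2 = 2 * (16 * (√q * √q) + C3 ^ 2) := by ring
      rw [e2] at e7
      linarith
    have e4 : ε ^ 2 * (q ^ 2 / 2 - C2) ≤ ε ^ 2 * L := mul_le_mul_of_nonneg_left hL2 (by positivity)
    have e5 : (2 * P) ^ 2 = 4 * P ^ 2 := by ring
    rw [e5]
    linarith
  exact (pow_le_pow_iff_left₀ (by positivity) (by positivity) two_ne_zero).1 hP2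

end Pool.Agent.TH823.KB
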