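import Pool.Agent.TH823.KB.Cls
import Pool.Agent.TH823.KB.Flat
import Pool.Agent.TH823.KB.Size

/-! Independence of smooth functions of the `Ω (n + h i)`, for all distinct `h i` -/

set_option autoImplicit false

namespace Pool.Agent.TH823.KB

open Finset
open Pool.Agent.W208.TL (lf box TAIL)
open Pool.Agent.W883.TL (Om)

/-- the truncated mean -/
noncomputable def kt (B : Finset ℕ) (w y Z : ℕ) (G : ℕ → ℂ) (a : ℕ) : ℂ :=
  ∑ c ∈ Icc 1 Z, G (a + Om c) * (mu B w y c : ℂ)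

lemma kt_bd {B : Finset ℕ} (w y Z : ℕ) {G : ℕ → ℂ} (hG : ∀ l, ‖G l‖ ≤ 1) (a : ℕ) : ‖kt B w y Z G a‖ ≤ 1 := by
  unfold kt
  refine (norm_sum_le _ _).trans (le_trans ?_ (mu_finset (B := B) w y (Icc 1 Z)))
  apply sum_le_sum
  intro c _
  rw [norm_mul, Complex.norm_real, Real.norm_of_nonneg (Pool.Agent.TH823.KB.C.mu_nonneg w y c)]
  exact mul_le_of_le_one_left (Pool.Agent.TH823.KB.C.mu_nonneg w y c) (hG _)

lemma kap_bd {B : Finset ℕ} (w y : ℕ) {G : ℕ → ℂ} (hG : ∀ l, ‖G l‖ ≤ 1) (a : ℕ) : ‖kap B w y G a‖ ≤ 1 := by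
  unfold kap
  refine (tsum_of_norm_bounded (mu_summable (B := B) w y).hasSum fun c => ?_).trans (mu_tsum_le w y)
  rw [norm_smul, Real.norm_of_nonneg (Pool.Agent.TH823.KB.C.mu_nonneg w y c)]
  exact mul_le_of_le_one_right (Pool.Agent.TH823.KB.C.mu_nonneg w y c) (hG _)

lemma kt_kap {B : Finset ℕ} (w y Z : ℕ) {G : ℕ → ℂ} (hG : ∀ l, ‖G l‖ ≤ 1) (hL : 0 < LL B w y) {e : ℝ}
    (hm : 1 - ∑ c ∈ Icc 1 Z, mu B w y c ≤ e) (a : ℕ) :
    ‖kt B w y Z G a - kap B w y G 0‖ ≤ e + a * (1 / √(LL B w y)) := by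
  have h1 := kap_trunc (B := B) w y Z hG a
  have h2 := kap_flat (B := B) w y hG hL a
  have e1 : kt B w y Z G a - kap B w y G 0 =
      -(kap B w y G a - kt B w y Z G a) + (kap B w y G a - kap B w y G 0) := by ring
  rw [e1]
  refine (norm_add_le _ _).trans ?_
  rw [norm_neg]
  exact add_le_add (h1.trans hm) h2

lemma indep_W {B : Finset ℕ} {r w y z : ℕ} (b : ℕ) (β : Fin r → ℕ) (hB : (Icc 1 z).filter Nat.Prime ⊆ B)
    (hβ : ∀ l ∈ PP B w y, ∀ i j, i ≠ j → ¬ (l : ℤ) ∣ (β j : ℤ) - β i) :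
    Indep B w y (fun _ => primorial z) (fun i => ((b + β i : ℕ) : ℤ)) := by
  have hnd : ∀ l ∈ PP B w y, ¬ l ∣ primorial z := by
    intro l hl hd
    have h1 := (mem_PP hl).2
    have h2 := (dvd_prim h1).1 hd
    have h3 : l ∉ B := by
      unfold PP at hl
      exact (mem_filter.1 hl).2
    exact h3 (hB (mem_filter.2 ⟨mem_Icc.2 ⟨h1.one_le, h2⟩, h1⟩))
  refine ⟨fun _ => primorial_pos z, fun l hl => ⟨fun _ => hnd l hl, fun i j hij hd => ?_⟩⟩
  have e1 : ((primorial z : ℕ) : ℤ) * ((b + β j : ℕ) : ℤ) - ((primorial z : ℕ) : ℤ) * ((b + β i : ℕ) : ℤ) =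
      (primorial z : ℕ) * ((β j : ℤ) - β i) := by push_cast; ring
  rw [e1] at hd
  have hp : Prime ((l : ℕ) : ℤ) := Nat.prime_iff_prime_int.1 (mem_PP hl).2
  rcases hp.dvd_or_dvd hd with h | h
  · exact hnd l hl (by exact_mod_cast h)
  · exact hβ l hl i j hij h

/-- the law in a residue class -/
lemma law_class {B : Finset ℕ} {r w y K K1 M z : ℕ} {ε1 : ℝ} (hyM : y ^ K ≤ M)
    (hlaw : ∀ (α : Fin r → ℕ) (β : Fin r → ℤ), Indep B w y α β → ∀ b M : ℕ, y ^ K ≤ M →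
      ∀ Ψ : (Fin r → ℕ) → ℂ, (∀ d, ‖Ψ d‖ ≤ 1) →
      ‖(((1 : ℕ) : ℂ) / (M : ℂ)) * ∑ m ∈ (Ioc 0 M).filter (fun m => m ≡ b [MOD 1]),
          Ψ (fun i => sm B w y (lf (α i) (β i) m)) -
        ∑ d ∈ box r (y ^ K1), Ψ d * ∏ i, (mu B w y (d i) : ℂ)‖ ≤ ε1)
    (hB : (Icc 1 z).filter Nat.Prime ⊆ B) (β : Fin r → ℕ)
    (hβ : ∀ l ∈ PP B w y, ∀ i j, i ≠ j → ¬ (l : ℤ) ∣ (β j : ℤ) - β i) (b : ℕ)
    (Ψ : (Fin r → ℕ) → ℂ) (hΨ : ∀ d, ‖Ψ d‖ ≤ 1) :
    ‖(∑ m ∈ Ioc 0 M, Ψ (fun i => sm B w y (primorial z * m + b + β i))) / M -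
      ∑ d ∈ box r (y ^ K1), Ψ d * ∏ i, (mu B w y (d i) : ℂ)‖ ≤ ε1 := by
  have h1 := hlaw _ _ (indep_W b β hB hβ) 0 M hyM Ψ hΨ
  have h2 : (Ioc 0 M).filter (fun m => m ≡ 0 [MOD 1]) = Ioc 0 M := by
    apply filter_true_of_mem
    intro m _
    exact Nat.modEq_one
  rw [h2] at h1
  have h3 : ∀ (m : ℕ) (i : Fin r), lf (primorial z) ((b + β i : ℕ) : ℤ) m = primorial z * m + b + β i := by
    intro m i
    unfold Pool.Agent.W208.TL.lf
    have : ((primorial z : ℕ) : ℤ) * m + ((b + β i : ℕ) : ℤ) = ((primorial z * m + b + β i : ℕ) : ℤ) := by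
      push_cast; ring
    rw [this, Int.natAbs_natCast]
  simp only [h3] at h1
  refine le_trans (le_of_eq ?_) h1
  congr 2
  rw [Nat.cast_one, one_div, div_eq_inv_mul]

lemma avg_norm {W : ℕ} (hW : 1 ≤ W) (E : ℕ → ℂ) (κ : ℂ) (e : ℕ → ℝ) (X : ℝ) (h : ∀ b ∈ range W, ‖E b - κ‖ ≤ e b)
    (hX : ∑ b ∈ range W, e b ≤ W * X) : ‖(∑ b ∈ range W, E b) / W - κ‖ ≤ X := by
  have hW0 : (0 : ℝ) < W := by exact_mod_cast hW
  have hWc : (W : ℂ) ≠ 0 := by exact_mod_cast hW0.ne'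
  have e1 : (∑ b ∈ range W, E b) / (W : ℂ) - κ = (∑ b ∈ range W, (E b - κ)) / W := by
    rw [sum_sub_distrib, sum_const, card_range, nsmul_eq_mul]
    field_simp
  rw [e1, norm_div, Complex.norm_natCast, div_le_iff₀ hW0]
  refine (norm_sum_le _ _).trans ((sum_le_sum h).trans (hX.trans (le_of_eq (mul_comm _ _))))

/-- the joint mean -/
lemma joint_mean {B : Finset ℕ} {r w y K K1 M N z : ℕ} {ε1 : ℝ} (hyM : y ^ K ≤ M)
    (hlaw : ∀ (α : Fin r → ℕ) (β : Fin r → ℤ), Indep B w y α β → ∀ b M : ℕ, y ^ K ≤ M →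
      ∀ Ψ : (Fin r → ℕ) → ℂ, (∀ d, ‖Ψ d‖ ≤ 1) →
      ‖(((1 : ℕ) : ℂ) / (M : ℂ)) * ∑ m ∈ (Ioc 0 M).filter (fun m => m ≡ b [MOD 1]),
          Ψ (fun i => sm B w y (lf (α i) (β i) m)) -
        ∑ d ∈ box r (y ^ K1), Ψ d * ∏ i, (mu B w y (d i) : ℂ)‖ ≤ ε1)
    (hB : (Icc 1 z).filter Nat.Prime ⊆ B) (hmass : |∑ d ∈ Icc 1 (y ^ K1), mu B w y d - 1| ≤ ε1)
    (hL : 0 < LL B w y)
    (hP : 2 * (∑ p ∈ (Icc 1 z).filter Nat.Prime, 1 / (p : ℝ)) * (1 / √(LL B w y)) ≤ ε1)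
    (hWM : primorial z * M ≤ N) (hN : N < primorial z * (M + 1)) (hM : 1 ≤ M)
    (hW : 4 * (primorial z : ℝ) / N ≤ ε1) (h : Fin r → ℕ)
    (hβ : ∀ l ∈ PP B w y, ∀ i j, i ≠ j → ¬ (l : ℤ) ∣ (h j : ℤ) - h i)
    (G : Fin r → ℕ → ℂ) (hG : ∀ i l, ‖G i l‖ ≤ 1) :
    ‖(∑ n ∈ Ioc 0 N, ∏ i, G i (az z (n + h i) + Om (sm B w y (n + h i)))) / N - ∏ i, kap B w y (G i) 0‖ ≤
      (2 + 2 * r) * ε1 := by
  have hW1 : 1 ≤ primorial z := primorial_pos z
  set F : ℕ → ℂ := fun n => ∏ i, G i (az z (n + h i) + Om (sm B w y (n + h i))) with hF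
  have hFb : ∀ n, ‖F n‖ ≤ 1 := fun n => by
    rw [hF]
    simp only [norm_prod]
    exact prod_le_one (fun _ _ => norm_nonneg _) fun i _ => hG i _
  have h1 := (class_avg hW1 hWM hN hM F hFb).trans hW
  have hm1 : 1 - ∑ c ∈ Icc 1 (y ^ K1), mu B w y c ≤ ε1 := by
    have := (abs_le.1 hmass).1
    linarith
  have h2 : ∀ b ∈ range (primorial z), ‖(∑ m ∈ Ioc 0 M, F (primorial z * m + b)) / (M : ℂ) - ∏ i, kap B w y (G i) 0‖ ≤
      ε1 + ∑ i, (ε1 + az z (b + h i) * (1 / √(LL B w y))) := by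
    intro b _
    have h3 := law_class hyM hlaw hB h hβ b (fun d => ∏ i, G i (az z (b + h i) + Om (d i))) (fun d => by
      rw [norm_prod]
      exact prod_le_one (fun _ _ => norm_nonneg _) fun i _ => hG i _)
    have h4 : ∑ d ∈ box r (y ^ K1), (∏ i, G i (az z (b + h i) + Om (d i))) * ∏ i, (mu B w y (d i) : ℂ) =
        ∏ i, kt B w y (y ^ K1) (G i) (az z (b + h i)) := by
      unfold kt
      rw [← box_prod (fun i c => G i (az z (b + h i) + Om c) * (mu B w y c : ℂ))]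
      apply sum_congr rfl
      intro d _
      rw [prod_mul_distrib]
    rw [h4] at h3
    have h5 : ∀ m, F (primorial z * m + b) =
        ∏ i, G i (az z (b + h i) + Om (sm B w y (primorial z * m + b + h i))) := by
      intro m
      rw [hF]
      apply prod_congr rfl
      intro i _
      congr 2
      rw [add_assoc, az_periodic]
    simp only [h5]
    have h6 : ‖∏ i, kt B w y (y ^ K1) (G i) (az z (b + h i)) - ∏ i, kap B w y (G i) 0‖ ≤
        ∑ i, (ε1 + az z (b + h i) * (1 / √(LL B w y))) :=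
      (prod_close univ _ _ (fun i _ => kt_bd w y _ (hG i) _) (fun i _ => kap_bd w y (hG i) _)).trans
        (sum_le_sum fun i _ => kt_kap w y _ (hG i) hL hm1 _)
    refine (norm_sub_le_norm_sub_add_norm_sub _ (∏ i, kt B w y (y ^ K1) (G i) (az z (b + h i))) _).trans ?_
    exact add_le_add h3 h6
  have h3 : ∑ b ∈ range (primorial z), (ε1 + ∑ i, (ε1 + az z (b + h i) * (1 / √(LL B w y)))) ≤
      primorial z * ((1 + 2 * r) * ε1) := by
    have h4 : ∑ b ∈ range (primorial z), ∑ i, (ε1 + az z (b + h i) * (1 / √(LL B w y))) ≤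
        ∑ _i : Fin r, (primorial z * (2 * ε1)) := by
      rw [sum_comm]
      apply sum_le_sum
      intro i _
      rw [sum_add_distrib, sum_const, card_range, nsmul_eq_mul, ← sum_mul]
      have h5 := mul_le_mul_of_nonneg_right (az_avg z (h i)) (by positivity : 0 ≤ 1 / √(LL B w y))
      have h6 := mul_le_mul_of_nonneg_left hP (by positivity : (0 : ℝ) ≤ primorial z)
      linarith
    rw [sum_add_distrib, sum_const, card_range, nsmul_eq_mul]
    rw [sum_const, card_univ, Fintype.card_fin, nsmul_eq_mul] at h4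
    linarith
  have h4 := avg_norm hW1 _ _ _ _ h2 h3
  refine (norm_sub_le_norm_sub_add_norm_sub _ _ _).trans ((add_le_add h1 h4).trans (le_of_eq ?_))
  ring

/-- the mean of one coordinate -/
lemma one_mean {B : Finset ℕ} {r w y K K1 M N z : ℕ} {ε1 : ℝ} (hr : 1 ≤ r) (hrw : r ≤ w) (hyM : y ^ K ≤ M)
    (hlaw : ∀ (α : Fin r → ℕ) (β : Fin r → ℤ), Indep B w y α β → ∀ b M : ℕ, y ^ K ≤ M →
      ∀ Ψ : (Fin r → ℕ) → ℂ, (∀ d, ‖Ψ d‖ ≤ 1) →
      ‖(((1 : ℕ) : ℂ) / (M : ℂ)) * ∑ m ∈ (Ioc 0 M).filter (fun m => m ≡ b [MOD 1]),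
          Ψ (fun i => sm B w y (lf (α i) (β i) m)) -
        ∑ d ∈ box r (y ^ K1), Ψ d * ∏ i, (mu B w y (d i) : ℂ)‖ ≤ ε1)
    (hB : (Icc 1 z).filter Nat.Prime ⊆ B) (hmass : |∑ d ∈ Icc 1 (y ^ K1), mu B w y d - 1| ≤ ε1)
    (hL : 0 < LL B w y)
    (hP : 2 * (∑ p ∈ (Icc 1 z).filter Nat.Prime, 1 / (p : ℝ)) * (1 / √(LL B w y)) ≤ ε1)
    (hWM : primorial z * M ≤ N) (hN : N < primorial z * (M + 1)) (hM : 1 ≤ M)
    (hW : 4 * (primorial z : ℝ) / N ≤ ε1) (G : ℕ → ℂ) (hG : ∀ l, ‖G l‖ ≤ 1) :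
    ‖(∑ n ∈ Ioc 0 N, G (az z n + Om (sm B w y n))) / N - kap B w y G 0‖ ≤ (4 + 2 ^ r) * ε1 := by
  have hW1 : 1 ≤ primorial z := primorial_pos z
  have hε1 : 0 ≤ ε1 := (abs_nonneg _).trans hmass
  set F : ℕ → ℂ := fun n => G (az z n + Om (sm B w y n)) with hF
  have hFb : ∀ n, ‖F n‖ ≤ 1 := fun n => hG _
  have h1 := (class_avg hW1 hWM hN hM F hFb).trans hW
  set s := ∑ c ∈ Icc 1 (y ^ K1), mu B w y c with hs
  have hs1 : s ≤ 1 := mu_finset w y _
  have hs0 : 0 ≤ s := sum_nonneg fun c _ => Pool.Agent.TH823.KB.C.mu_nonneg w y c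
  have hm1 : 1 - s ≤ ε1 := by
    have := (abs_le.1 hmass).1
    linarith
  have hsC : ∑ d ∈ Icc 1 (y ^ K1), (mu B w y d : ℂ) = (s : ℂ) := by rw [hs]; push_cast; rfl
  set i0 : Fin r := ⟨0, hr⟩ with hi0
  have hβ : ∀ l ∈ PP B w y, ∀ i j : Fin r, i ≠ j → ¬ (l : ℤ) ∣ (((j : ℕ) : ℕ) : ℤ) - ((i : ℕ) : ℕ) := by
    intro l hl i j hij hd
    have h1 := (mem_PP hl).1.1
    have h2 : |((j : ℕ) : ℤ) - ((i : ℕ) : ℤ)| < l := by
      have := i.2
      have := j.2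
      rw [abs_lt]
      constructor <;> omega
    have h3 := Int.eq_zero_of_abs_lt_dvd hd h2
    apply hij
    apply Fin.ext
    omega
  have h2 : ∀ b ∈ range (primorial z), ‖(∑ m ∈ Ioc 0 M, F (primorial z * m + b)) / (M : ℂ) - kap B w y G 0‖ ≤
      (2 + 2 ^ r) * ε1 + az z b * (1 / √(LL B w y)) := by
    intro b _
    have h3 := law_class hyM hlaw hB (fun j => (j : ℕ)) hβ b (fun d => G (az z b + Om (d i0))) (fun d => hG _)
    have h4 : ∑ d ∈ box r (y ^ K1), G (az z b + Om (d i0)) * ∏ j, (mu B w y (d j) : ℂ) =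
        kt B w y (y ^ K1) G (az z b) * (s : ℂ) ^ (r - 1) := by
      have h5 : ∀ d ∈ box r (y ^ K1), G (az z b + Om (d i0)) * ∏ j, (mu B w y (d j) : ℂ) =
          ∏ j, ((if j = i0 then G (az z b + Om (d j)) else 1) * (mu B w y (d j) : ℂ)) := by
        intro d _
        rw [prod_mul_distrib, prod_ite_eq' univ i0 (fun j => G (az z b + Om (d j)))]
        simp
      rw [sum_congr rfl h5, box_prod (fun j c => (if j = i0 then G (az z b + Om c) else 1) * (mu B w y c : ℂ)),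
        ← mul_prod_erase univ _ (mem_univ i0)]
      have h6 : ∑ c ∈ Icc 1 (y ^ K1), (if i0 = i0 then G (az z b + Om c) else 1) * (mu B w y c : ℂ) =
          kt B w y (y ^ K1) G (az z b) := by
        unfold kt
        simp
      rw [h6]
      congr 1
      have h7 : ∀ j ∈ univ.erase i0,
          ∑ c ∈ Icc 1 (y ^ K1), (if j = i0 then G (az z b + Om c) else 1) * (mu B w y c : ℂ) = (s : ℂ) := by
        intro j hj
        rw [← hsC]
        apply sum_congr rfl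
        intro c _
        rw [if_neg (ne_of_mem_erase hj), one_mul]
      rw [prod_congr rfl h7, prod_const, card_erase_of_mem (mem_univ _), card_univ, Fintype.card_fin]
    rw [h4] at h3
    have h5 : ∀ m, F (primorial z * m + b) =
        (fun d : Fin r → ℕ => G (az z b + Om (d i0))) (fun i => sm B w y (primorial z * m + b + (i : ℕ))) := by
      intro m
      rw [hF, hi0]
      simp only [add_zero]
      rw [az_periodic]
    simp only [h5]
    have h6 : ‖kt B w y (y ^ K1) G (az z b) * (s : ℂ) ^ (r - 1) - kt B w y (y ^ K1) G (az z b)‖ ≤ 2 ^ r * ε1 := by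
      have e1 : kt B w y (y ^ K1) G (az z b) * (s : ℂ) ^ (r - 1) - kt B w y (y ^ K1) G (az z b) =
          kt B w y (y ^ K1) G (az z b) * ((s ^ (r - 1) - 1 : ℝ) : ℂ) := by push_cast; ring
      rw [e1, norm_mul, Complex.norm_real, Real.norm_eq_abs]
      have h7 : |s ^ (r - 1) - 1| ≤ 2 ^ r * ε1 := by
        refine (pow_close hmass hs0 (by linarith) (r - 1)).trans ?_
        apply mul_le_mul_of_nonneg_right _ hε1
        exact pow_le_pow_right₀ (by norm_num) (by omega)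
      calc _ ≤ 1 * |s ^ (r - 1) - 1| := mul_le_mul_of_nonneg_right (kt_bd w y _ hG _) (abs_nonneg _)
        _ ≤ _ := by rw [one_mul]; exact h7
    have h7 := kt_kap (B := B) w y (y ^ K1) hG hL hm1 (az z b)
    have hfin : ∀ a b c d : ℂ, ‖a - d‖ ≤ ‖a - b‖ + ‖b - c‖ + ‖c - d‖ := by
      intro a b c d
      have : a - d = (a - b) + (b - c) + (c - d) := by ring
      rw [this]
      exact (norm_add_le _ _).trans (add_le_add (norm_add_le _ _) le_rfl)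
    refine (hfin _ _ _ _).trans ((add_le_add (add_le_add h3 h6) h7).trans (le_of_eq ?_))
    ring
  have h3 : ∑ b ∈ range (primorial z), ((2 + 2 ^ r) * ε1 + az z b * (1 / √(LL B w y))) ≤
      primorial z * ((3 + 2 ^ r) * ε1) := by
    rw [sum_add_distrib, sum_const, card_range, nsmul_eq_mul, ← sum_mul]
    have h5 := mul_le_mul_of_nonneg_right (az_avg z 0) (by positivity : 0 ≤ 1 / √(LL B w y))
    simp only [add_zero] at h5
    have h6 := mul_le_mul_of_nonneg_left hP (by positivity : (0 : ℝ) ≤ primorial z)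
    linarith
  have h4 := avg_norm hW1 _ _ _ _ h2 h3
  refine (norm_sub_le_norm_sub_add_norm_sub _ _ _).trans ((add_le_add h1 h4).trans (le_of_eq ?_))
  ring

end Pool.Agent.TH823.KB
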