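import Pool.Agent.TH823.KB.CI2

/-! Independence of smooth functions of the `Ω (n + h i)`, for all distinct `h i` -/

set_option autoImplicit false

namespace Pool.Agent.TH823.KB

open Finset
open Pool.Agent.W208.TL (lf box TAIL)
open Pool.Agent.W883.TL (Om)

/-- the set of the excluded primes -/
def BB {r : ℕ} (h : Fin r → ℕ) (z : ℕ) : Finset ℕ := badp h ∪ (Icc 1 z).filter Nat.Prime

lemma BB_prime {r : ℕ} (h : Fin r → ℕ) (z : ℕ) : ∀ l ∈ BB h z, l.Prime := by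
  intro l hl
  unfold BB at hl
  rcases mem_union.1 hl with hl | hl
  · exact badp_prime h l hl
  · exact (mem_filter.1 hl).2

lemma BB_sub {r : ℕ} (h : Fin r → ℕ) (z : ℕ) : (Icc 1 z).filter Nat.Prime ⊆ BB h z := subset_union_right

lemma BB_big {r : ℕ} (h : Fin r → ℕ) (z : ℕ) : (BB h z).filter (z < ·) ⊆ (badp h).filter (z < ·) := by
  intro l hl
  rw [mem_filter] at hl ⊢
  refine ⟨?_, hl.2⟩
  unfold BB at hl
  rcases mem_union.1 hl.1 with h1 | h1
  · exact h1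
  · rw [mem_filter, mem_Icc] at h1
    omega

lemma BB_LL {r : ℕ} (h : Fin r → ℕ) {w y z : ℕ} (hwz : w ≤ z) :
    ∑ p ∈ (Ioc z y).filter Nat.Prime, 1 / (p : ℝ) ≤ LL (BB h z) w y + ∑ l ∈ (badp h).filter (z < ·), 1 / (l : ℝ) := by
  have hsub : (Ioc z y).filter Nat.Prime ⊆ PP (BB h z) w y ∪ (badp h).filter (z < ·) := by
    intro p hp
    rw [mem_filter, mem_Ioc] at hp
    rw [mem_union]
    by_cases h1 : p ∈ badp h
    · exact Or.inr (mem_filter.2 ⟨h1, hp.1.1⟩)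
    · left
      unfold PP Pool.Agent.W208.TL.PP
      rw [mem_filter, mem_filter, mem_Ioc]
      refine ⟨⟨⟨by omega, hp.1.2⟩, hp.2⟩, fun h2 => ?_⟩
      unfold BB at h2
      rcases mem_union.1 h2 with h3 | h3
      · exact h1 h3
      · rw [mem_filter, mem_Icc] at h3
        omega
  refine (sum_le_sum_of_subset_of_nonneg hsub fun p _ _ => by positivity).trans ?_
  have h1 := sum_union_inter (s₁ := PP (BB h z) w y) (s₂ := (badp h).filter (z < ·)) (f := fun l : ℕ => 1 / (l : ℝ))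
  have h2 : 0 ≤ ∑ l ∈ PP (BB h z) w y ∩ (badp h).filter (z < ·), 1 / (l : ℝ) := sum_nonneg fun l _ => by positivity
  unfold LL
  linarith

lemma BB_indep {r : ℕ} (h : Fin r → ℕ) (hinj : Function.Injective h) {w y z : ℕ} :
    ∀ l ∈ PP (BB h z) w y, ∀ i j, i ≠ j → ¬ (l : ℤ) ∣ (h j : ℤ) - h i := by
  intro l hl i j hij hd
  have hl2 : l ∉ BB h z := by
    unfold PP at hl
    exact (mem_filter.1 hl).2
  apply hl2
  unfold BB badp
  apply mem_union_left
  rw [mem_biUnion]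
  refine ⟨(j, i), mem_univ _, ?_⟩
  rw [Nat.mem_primeFactors]
  refine ⟨(mem_PP hl).2, ?_, ?_⟩
  · rw [← Int.natCast_dvd]
    exact hd
  · intro h0
    rw [Int.natAbs_eq_zero, sub_eq_zero] at h0
    exact hij (hinj (by exact_mod_cast h0)).symm

/-- independence of smooth functions, for all distinct shifts -/
theorem CI2 (A r : ℕ) (hr : 1 ≤ r) {ε : ℝ} (hε : 0 < ε) : ∃ δ : ℝ, 0 < δ ∧ ∃ N0 : ℕ, ∀ N : ℕ,
    N0 ≤ N → ∀ h : Fin r → ℕ, (∀ i, h i ≤ A * N) → Function.Injective h →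
    ∀ G : Fin r → ℕ → ℂ, (∀ i l, ‖G i l‖ ≤ 1) → (∀ i a b, ‖G i a - G i b‖ ≤ δ * |(a : ℝ) - b|) →
    ‖(∑ n ∈ Ioc 0 N, ∏ i, G i (Om (n + h i))) / N - ∏ i, ((∑ n ∈ Ioc 0 N, G i (Om n)) / N)‖ ≤ ε := by
  set T : ℝ := (2 + 2 * r) + r * (4 + 2 ^ r) with hT
  have hT1 : 1 ≤ T := by
    have h1 : (0 : ℝ) ≤ r * (4 + 2 ^ r) := by positivity
    have h2 : (0 : ℝ) ≤ r := Nat.cast_nonneg r
    linarith
  obtain ⟨ε1, hε1, hε1T⟩ : ∃ ε1 : ℝ, 0 < ε1 ∧ T * ε1 ≤ ε / 2 :=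
    ⟨ε / (2 * T), by positivity, by apply le_of_eq; field_simp⟩
  obtain ⟨K1, K, w0, hK1, hK, hcl⟩ := claim_all r hr ε1 hε1
  set w := max w0 r with hw
  obtain ⟨y0, hy0⟩ := hcl w 1 (le_max_left _ _) le_rfl
    (fun l hl hd => absurd (Nat.dvd_one.1 hd) hl.one_lt.ne')
  set D : ℝ := r ^ 2 * (A + 8) with hD
  have hD0 : 0 ≤ D := by positivity
  set Λ : ℝ := 2 * (A + 1) * (w + 1 + D) + 1 + ((2 * K + 1 : ℕ) : ℝ) with hΛ
  have hΛ0 : 0 < Λ := by positivity
  have hr0 : (0 : ℝ) < r := by exact_mod_cast hr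
  obtain ⟨z0, hz0⟩ := size_bound hK hD0 hε1
  obtain ⟨q, hq⟩ := exists_nat_ge (4 / ε1)
  set Y0 := y0 + 2 + (A + 1) * 16 * 4 ^ K with hY0
  set Z0 := z0 + w + 3 + (Y0 + 1) ^ K + q with hZ0
  refine ⟨ε / (8 * r * Λ), by positivity, 16 ^ Z0, fun N hN h hh hinj G hG hL => ?_⟩
  have hN0 : N ≠ 0 := by
    have : 0 < 16 ^ Z0 := by positivity
    omega
  set z := Nat.log 16 N with hz
  have hzZ : Z0 ≤ z := Nat.le_log_of_pow_le (by norm_num) hN
  have hz1 : 16 ^ z ≤ N := Nat.pow_log_le_self 16 hN0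
  have hz2 : N < 16 ^ (z + 1) := Nat.lt_pow_succ_log_self (by norm_num) N
  have hzlt : z < 4 ^ z := Nat.lt_pow_self (by norm_num)
  set W := primorial z with hW
  have hWpos : 0 < W := primorial_pos z
  have hW4 : W ≤ 4 ^ z := primorial_le_four_pow z
  have h16 : 4 ^ z * 4 ^ z = 16 ^ z := by rw [← mul_pow]; norm_num
  set M := N / W with hM
  have hM4 : 4 ^ z ≤ M := by
    rw [hM, Nat.le_div_iff_mul_le hWpos]
    calc 4 ^ z * W ≤ 4 ^ z * 4 ^ z := Nat.mul_le_mul_left _ hW4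
      _ = 16 ^ z := h16
      _ ≤ N := hz1
  have hWM : W * M ≤ N := Nat.mul_div_le N W
  have hWM2 : N < W * (M + 1) := Nat.lt_mul_div_succ N hWpos
  have hM1 : 1 ≤ M := le_trans (Nat.one_le_pow _ _ (by norm_num)) hM4
  have hNM : N < 16 * (M * M) := by
    calc N < 16 ^ (z + 1) := hz2
      _ = 16 * (4 ^ z * 4 ^ z) := by rw [h16, pow_succ, mul_comm]
      _ ≤ 16 * (M * M) := Nat.mul_le_mul_left _ (Nat.mul_le_mul hM4 hM4)
  obtain ⟨y, hy1, hy2⟩ := exists_y K M hK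
  have hyY : Y0 < y := by
    by_contra hcon
    push Not at hcon
    have h1 : (y + 1) ^ K ≤ (Y0 + 1) ^ K := Nat.pow_le_pow_left (by omega) K
    omega
  have h4K : 1 ≤ 4 ^ K := Nat.one_le_pow _ _ (by norm_num)
  have hM2y : M ≤ (2 * y) ^ K := hy2.le.trans (Nat.pow_le_pow_left (by omega) K)
  have hNy : N < 16 * (4 ^ K * y ^ (2 * K)) := by
    calc N < 16 * (M * M) := hNM
      _ ≤ 16 * ((2 * y) ^ K * (2 * y) ^ K) := Nat.mul_le_mul_left _ (Nat.mul_le_mul hM2y hM2y)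
      _ = 16 * (4 ^ K * y ^ (2 * K)) := by
        rw [← mul_pow, pow_mul, ← mul_pow]
        congr 2
        ring
  have hsize : (A + 1) * N < y ^ (2 * K + 1 + 1) := by
    calc (A + 1) * N < (A + 1) * (16 * (4 ^ K * y ^ (2 * K))) := Nat.mul_lt_mul_of_pos_left hNy (by omega)
      _ = ((A + 1) * 16 * 4 ^ K) * y ^ (2 * K) := by ring
      _ ≤ (y * y) * y ^ (2 * K) := by
        apply Nat.mul_le_mul_right
        have : y ≤ y * y := Nat.le_mul_of_pos_left y (by omega)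
        omega
      _ = y ^ (2 * K + 1 + 1) := by ring
  have hzN : z ≤ N := by
    have : z < 16 ^ z := Nat.lt_pow_self (by norm_num)
    omega
  have hzy : 16 ^ z ≤ 16 * (2 * y) ^ (2 * K) := by
    have h1 : 16 * (4 ^ K * y ^ (2 * K)) = 16 * (2 * y) ^ (2 * K) := by
      rw [mul_pow 2 y, pow_mul 2 2 K]
      norm_num
    omega
  set B := BB h z with hB
  have hBD : ∑ l ∈ (badp h).filter (z < ·), 1 / (l : ℝ) ≤ D := bad_sum h (by omega) hz2 hh
  have hBD2 : ∑ l ∈ B.filter (z < ·), 1 / (l : ℝ) ≤ D :=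
    (sum_le_sum_of_subset_of_nonneg (BB_big h z) fun l _ _ => by positivity).trans hBD
  obtain ⟨hLpos, hP⟩ := hz0 z y (by omega) hzy (LL B w y) ((BB_LL h (w := w) (by omega)).trans (by linarith))
  obtain ⟨hmass, hlaw⟩ := hy0 y (by omega) B
  have hNr : (0 : ℝ) < N := by exact_mod_cast (by omega : 0 < N)
  have hWN : 4 * (W : ℝ) / N ≤ ε1 := by
    rw [div_le_iff₀ hNr]
    have h1 : 4 ≤ ε1 * q := by
      rw [div_le_iff₀ hε1] at hq
      linarith
    have h2 : (q : ℝ) * W ≤ N := by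
      have : q * W ≤ N := by
        calc q * W ≤ 4 ^ z * 4 ^ z := Nat.mul_le_mul (by omega) hW4
          _ = 16 ^ z := h16
          _ ≤ N := hz1
      exact_mod_cast this
    have h3 : (0 : ℝ) ≤ W := Nat.cast_nonneg W
    calc 4 * (W : ℝ) ≤ (ε1 * q) * W := mul_le_mul_of_nonneg_right h1 h3
      _ = ε1 * (q * W) := by ring
      _ ≤ ε1 * N := mul_le_mul_of_nonneg_left h2 hε1.le
  -- the two means
  have E2 := joint_mean (N := N) hy1 hlaw (BB_sub h z) hmass hLpos hP hWM hWM2 hM1 hWN h (BB_indep h hinj) G hG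
  have E3 : ∀ i, ‖(∑ n ∈ Ioc 0 N, G i (az z n + Om (sm B w y n))) / N - kap B w y (G i) 0‖ ≤ (4 + 2 ^ r) * ε1 :=
    fun i => one_mean (N := N) hr (le_max_right _ _) hy1 hlaw (BB_sub h z) hmass hLpos hP hWM hWM2 hM1 hWN (G i) (hG i)
  -- replacement
  set δ : ℝ := ε / (8 * r * Λ) with hδ
  have hδ0 : 0 < δ := by positivity
  have hrepl : ∀ (i : Fin r) (g : ℕ), g ≤ A * N →
      ∑ n ∈ Ioc 0 N, ‖G i (Om (n + g)) - G i (az z (n + g) + Om (sm B w y (n + g)))‖ ≤ δ * Λ * N := by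
    intro i g hg
    have h1 := diff_mean2 (B := B) (BB_prime h z) (A := A) (N := N) (w := w) (y := y) (R := 2 * K + 1) (h := g)
      (z := z) (by omega) hsize hg (BB_sub h z) hzN hBD2
    calc _ ≤ ∑ n ∈ Ioc 0 N, δ * |(Om (n + g) : ℝ) - (az z (n + g) + Om (sm B w y (n + g)) : ℕ)| :=
          sum_le_sum fun n _ => hL i _ _
      _ = δ * ∑ n ∈ Ioc 0 N, |(Om (n + g) : ℝ) - (az z (n + g) + Om (sm B w y (n + g)) : ℕ)| := by rw [mul_sum]
      _ ≤ δ * (Λ * N) := mul_le_mul_of_nonneg_left h1 hδ0.le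
      _ = _ := by ring
  have E1 : ‖(∑ n ∈ Ioc 0 N, ∏ i, G i (Om (n + h i))) / N -
      (∑ n ∈ Ioc 0 N, ∏ i, G i (az z (n + h i) + Om (sm B w y (n + h i)))) / N‖ ≤ r * (δ * Λ) := by
    rw [← sub_div, norm_div, Complex.norm_natCast, div_le_iff₀ hNr, ← sum_sub_distrib]
    refine (norm_sum_le _ _).trans ?_
    have h1 : ∀ n ∈ Ioc 0 N, ‖∏ i, G i (Om (n + h i)) - ∏ i, G i (az z (n + h i) + Om (sm B w y (n + h i)))‖ ≤
        ∑ i, ‖G i (Om (n + h i)) - G i (az z (n + h i) + Om (sm B w y (n + h i)))‖ := by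
      intro n _
      exact prod_close univ _ _ (fun i _ => hG i _) (fun i _ => hG i _)
    refine (sum_le_sum h1).trans ?_
    rw [sum_comm]
    refine (sum_le_sum fun i _ => hrepl i (h i) (hh i)).trans ?_
    rw [sum_const, card_univ, Fintype.card_fin, nsmul_eq_mul]
    exact le_of_eq (by ring)
  have E4 : ‖∏ i, kap B w y (G i) 0 - ∏ i, ((∑ n ∈ Ioc 0 N, G i (Om n)) / (N : ℂ))‖ ≤
      r * ((4 + 2 ^ r) * ε1 + δ * Λ) := by
    refine (prod_close univ _ _ (fun i _ => kap_bd w y (hG i) _) (fun i _ => ?_)).trans ?_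
    · rw [norm_div, Complex.norm_natCast, div_le_one hNr]
      refine (norm_sum_le _ _).trans ((sum_le_sum fun n _ => hG i _).trans ?_)
      rw [sum_const, Nat.card_Ioc, nsmul_eq_mul, mul_one]
      simp
    · have h1 : ∀ i ∈ (univ : Finset (Fin r)), ‖kap B w y (G i) 0 - (∑ n ∈ Ioc 0 N, G i (Om n)) / (N : ℂ)‖ ≤
          (4 + 2 ^ r) * ε1 + δ * Λ := by
        intro i _
        refine (norm_sub_le_norm_sub_add_norm_sub _
          ((∑ n ∈ Ioc 0 N, G i (az z n + Om (sm B w y n))) / (N : ℂ)) _).trans (add_le_add ?_ ?_)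
        · rw [norm_sub_rev]
          exact E3 i
        · rw [← sub_div, norm_div, Complex.norm_natCast, div_le_iff₀ hNr, ← sum_sub_distrib]
          refine (norm_sum_le _ _).trans ?_
          have h2 := hrepl i 0 (Nat.zero_le _)
          simp only [add_zero] at h2
          refine le_trans (le_of_eq ?_) h2
          exact sum_congr rfl fun n _ => norm_sub_rev _ _
      refine (sum_le_sum h1).trans ?_
      rw [sum_const, card_univ, Fintype.card_fin, nsmul_eq_mul]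
  have hfin : ∀ a b c d : ℂ, ‖a - d‖ ≤ ‖a - b‖ + ‖b - c‖ + ‖c - d‖ := by
    intro a b c d
    have : a - d = (a - b) + (b - c) + (c - d) := by ring
    rw [this]
    exact (norm_add_le _ _).trans (add_le_add (norm_add_le _ _) le_rfl)
  refine (hfin _ _ _ _).trans ((add_le_add (add_le_add E1 E2) E4).trans ?_)
  have h1 : (r : ℝ) * (δ * Λ) = ε / 8 := by rw [hδ]; field_simp
  have h2 : (2 + 2 * (r : ℝ)) * ε1 + r * ((4 + 2 ^ r) * ε1) = T * ε1 := by rw [hT]; ring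
  have h3 : (r : ℝ) * ((4 + 2 ^ r) * ε1 + δ * Λ) = r * ((4 + 2 ^ r) * ε1) + r * (δ * Λ) := by ring
  rw [h3, h1]
  linarith

end Pool.Agent.TH823.KB
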