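import Pool.Agent.TH823.KB.Sm

/-! Total variation distance to the product law. -/

set_option autoImplicit false

namespace Pool.Agent.TH823.KB.C

open Finset Filter
open Pool.Agent.W208.TL (lf box TAIL)

variable {B : Finset ℕ}

lemma sm_pos (w y n : ℕ) : 1 ≤ sm B w y n := by
  unfold sm
  refine Nat.one_le_iff_ne_zero.mpr ?_
  rw [Finset.prod_ne_zero_iff]
  intro l hl
  have := (mem_PP hl).2.pos
  positivity

lemma sm_le (w y n : ℕ) : sm B w y n ≤ Pool.Agent.W208.TL.sm 0 y n := by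
  unfold sm Pool.Agent.W208.TL.sm
  apply Finset.prod_le_prod_of_subset_of_one_le'
  · intro l hl
    have h := mem_PP hl
    unfold Pool.Agent.W208.TL.PP
    rw [mem_filter, mem_Ioc]
    exact ⟨⟨by omega, h.1.2⟩, h.2⟩
  · intro l hl _
    unfold Pool.Agent.W208.TL.PP at hl
    exact Nat.one_le_pow _ _ (mem_filter.1 hl).2.pos

lemma sm_mul {w y l d : ℕ} (hl : l ∈ PP B w y) (hd : d ≠ 0) : sm B w y (l * d) = l * sm B w y d := by
  have hp := (mem_PP hl).2
  unfold sm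
  have h1 : ∀ p ∈ PP B w y, p ^ (l * d).factorization p =
      (if p = l then l else 1) * p ^ d.factorization p := by
    intro p hp'
    rw [Nat.factorization_mul hp.ne_zero hd, Finsupp.add_apply, pow_add, hp.factorization]
    by_cases h : p = l
    · subst h; simp
    · simp [h]
  rw [Finset.prod_congr rfl h1, Finset.prod_mul_distrib]
  congr 1
  rw [Finset.prod_ite_eq' (PP B w y) l]
  simp [hl]

lemma prime_of_sm {w y d p : ℕ} (hd : sm B w y d = d) (hp : p.Prime) (h : p ∣ d) : p ∈ PP B w y := by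
  rw [← hd] at h
  unfold sm at h
  obtain ⟨l, hl, hl2⟩ := (hp.prime.dvd_finsetProd_iff _).1 h
  have h3 := hp.dvd_of_dvd_pow hl2
  have h4 := (Nat.prime_dvd_prime_iff_eq hp (mem_PP hl).2).1 h3
  rw [h4]; exact hl

/-- the product over the primes in `(w, y]` -/
noncomputable def V (B : Finset ℕ) (w y : ℕ) : ℝ := ∏ l ∈ PP B w y, (1 - 1 / (l : ℝ))

lemma one_div_le {w y l : ℕ} (hl : l ∈ PP B w y) : (0 : ℝ) < 1 / (l : ℝ) ∧ 1 / (l : ℝ) ≤ 1 := by
  have h2 := (mem_PP hl).2.one_lt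
  have h3 : (1 : ℝ) < l := by exact_mod_cast h2
  constructor
  · positivity
  · rw [div_le_one (by linarith)]; exact h3.le

lemma V_nonneg (w y : ℕ) : 0 ≤ V B w y := by
  unfold V
  apply Finset.prod_nonneg
  intro l hl
  have := (one_div_le hl).2
  linarith

lemma mu_def (w y d : ℕ) : mu B w y d = if sm B w y d = d then V B w y / d else 0 := rfl

lemma mu_nonneg (w y d : ℕ) : 0 ≤ mu B w y d := by
  rw [mu_def]
  split_ifs
  · exact div_nonneg (V_nonneg w y) (Nat.cast_nonneg d)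
  · exact le_rfl

lemma mu_mul {w y l d : ℕ} (hl : l ∈ PP B w y) (hd : d ≠ 0) : mu B w y (l * d) = mu B w y d / l := by
  have hl0 : l ≠ 0 := (mem_PP hl).2.ne_zero
  rw [mu_def, mu_def, sm_mul hl hd]
  by_cases h : sm B w y d = d
  · rw [if_pos (by rw [h]), if_pos h]
    push_cast
    field_simp
  · rw [if_neg (fun h' => h (Nat.eq_of_mul_eq_mul_left (Nat.pos_of_ne_zero hl0) h')), if_neg h]
    simp

/-! ### (A) the total mass -/

lemma dens_one (w y d : ℕ) : dens B w y (fun _ : Fin 1 => d) = mu B w y d := by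
  unfold dens mu
  by_cases h : sm B w y d = d
  · rw [if_pos ⟨fun _ => h, fun i j hij => absurd (Subsingleton.elim i j) hij⟩, if_pos h]
    simp
  · rw [if_neg (fun h' => h (h'.1 0)), if_neg h]

lemma indep_one (w y : ℕ) : Indep B w y (fun _ : Fin 1 => 1) (fun _ => 0) := by
  refine ⟨fun _ => le_rfl, fun l hl => ⟨fun _ => (mem_PP hl).2.one_lt.ne' ∘ Nat.dvd_one.1, ?_⟩⟩
  intro i j hij
  exact absurd (Subsingleton.elim i j) hij

lemma mass (hLAW : LAW) (hTAIL : TAIL) (e1 : ℝ) (he : 0 < e1) (he2 : e1 ≤ 1 / 2) :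
    ∃ K1 y0 : ℕ, 1 ≤ K1 ∧ 2 ≤ y0 ∧ ∀ (B : Finset ℕ) (w y : ℕ), y0 ≤ y →
      |∑ d ∈ Icc 1 (y ^ K1), mu B w y d - 1| ≤ 4 * e1 := by
  obtain ⟨C, hC, hT⟩ := hTAIL
  obtain ⟨KL, y0, hKL, hL⟩ := hLAW 1 le_rfl e1 he (by linarith)
  have hCe : 0 < C / e1 := div_pos hC he
  refine ⟨⌈C / e1⌉₊, max y0 2, Nat.one_le_iff_ne_zero.mpr (Nat.ceil_pos.2 hCe).ne', le_max_right _ _,
    ?_⟩
  intro B w y hy
  have hy0 : y0 ≤ y := le_trans (le_max_left _ _) hy
  have hy2 : 2 ≤ y := le_trans (le_max_right _ _) hy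
  set K1 := ⌈C / e1⌉₊ with hK1
  have hK1pos : 0 < K1 := Nat.ceil_pos.2 hCe
  set Z := y ^ K1 with hZ
  have hZ2 : 2 ≤ Z := by
    calc 2 ≤ y := hy2
      _ = y ^ 1 := (pow_one y).symm
      _ ≤ y ^ K1 := Nat.pow_le_pow_right (by omega) hK1pos
  have hlogy : 0 < Real.log y := Real.log_pos (by exact_mod_cast (by omega : 1 < y))
  have hlogZ : Real.log Z = K1 * Real.log y := by
    rw [hZ]; push_cast; rw [Real.log_pow]
  have hCK : C * Real.log y / Real.log Z ≤ e1 := by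
    have hk : (0 : ℝ) < K1 := by exact_mod_cast hK1pos
    rw [hlogZ, mul_div_mul_right _ _ hlogy.ne', div_le_iff₀ hk]
    have := Nat.le_ceil (C / e1)
    rw [div_le_iff₀ he] at this
    linarith
  set s := ∑ d ∈ Icc 1 Z, mu B w y d with hs
  have hs0 : 0 ≤ s := Finset.sum_nonneg fun d _ => mu_nonneg w y d
  obtain ⟨X, hX⟩ : ∃ X : ℕ, (Z : ℝ) * ((y : ℝ) ^ KL + 4) / e1 < X := exists_nat_gt _
  have hXpos : (0 : ℝ) < X := lt_of_le_of_lt (by positivity) hX
  have hX2 : (Z : ℝ) * ((y : ℝ) ^ KL + 4) ≤ e1 * X := by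
    rw [div_lt_iff₀ he] at hX; linarith
  have key : ∀ d : ℕ, |(((Ioc 0 X).filter (fun m => sm B w y m = d)).card : ℝ) - X * mu B w y d| ≤
      e1 * (X * mu B w y d) + ((y : ℝ) ^ KL + 4) := by
    intro d
    have h := hL B (fun _ => 1) (fun _ => 0) w 1 0 le_rfl
      (fun l hl hl2 => absurd (Nat.dvd_one.1 hl2) hl.one_lt.ne') y X hy0 (indep_one w y) (fun _ => d)
    rw [dens_one] at h
    have h2 : (Ioc 0 X).filter (fun m => m ≡ 0 [MOD 1] ∧ ∀ _ : Fin 1, sm B w y (lf 1 0 m) = d) =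
        (Ioc 0 X).filter (fun m => sm B w y m = d) := by
      apply Finset.filter_congr
      intro m _
      simp [lf, Nat.modEq_one]
    rw [h2] at h
    simp only [Nat.cast_one, div_one] at h
    linarith
  have hcard : (∑ d ∈ Icc 1 Z, (((Ioc 0 X).filter (fun m => sm B w y m = d)).card : ℝ)) =
      (((Ioc 0 X).filter (fun m => sm B w y m ≤ Z)).card : ℝ) := by
    rw [Finset.card_eq_sum_card_fiberwise (f := sm B w y) (t := Icc 1 Z)
      (s := (Ioc 0 X).filter (fun m => sm B w y m ≤ Z))]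
    · push_cast
      apply Finset.sum_congr rfl
      intro d hd
      rw [Finset.filter_filter]
      congr 2
      apply Finset.filter_congr
      intro m _
      rw [mem_Icc] at hd
      constructor
      · intro h; exact ⟨by omega, h⟩
      · intro h; exact h.2
    · intro m hm
      simp only [coe_filter, mem_Ioc, Set.mem_ofPred_eq] at hm
      simp only [coe_Icc, Set.mem_Icc]
      exact ⟨sm_pos w y m, hm.2⟩
  have hup : (((Ioc 0 X).filter (fun m => sm B w y m ≤ Z)).card : ℝ) ≤ X := by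
    have := Finset.card_filter_le (Ioc 0 X) (fun m => sm B w y m ≤ Z)
    rw [Nat.card_Ioc] at this
    exact_mod_cast this
  have hlo : (1 - e1) * X ≤ (((Ioc 0 X).filter (fun m => sm B w y m ≤ Z)).card : ℝ) := by
    have h1 := Finset.card_filter_add_card_filter_not (s := Ioc 0 X) (fun m => sm B w y m ≤ Z)
    have h2 : ((Ioc 0 X).filter (fun m => ¬ sm B w y m ≤ Z)).card ≤
        ((Ioc 0 X).filter (fun m => Z < Pool.Agent.W208.TL.sm 0 y m)).card := by
      apply Finset.card_le_card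
      intro m hm
      rw [mem_filter] at hm ⊢
      exact ⟨hm.1, lt_of_lt_of_le (not_le.1 hm.2) (sm_le w y m)⟩
    have h3 := hT X y Z hy2 hZ2
    have h4 : C * Real.log y / Real.log Z * X ≤ e1 * X :=
      mul_le_mul_of_nonneg_right hCK hXpos.le
    rw [Nat.card_Ioc] at h1
    have h5 : (((Ioc 0 X).filter (fun m => sm B w y m ≤ Z)).card : ℝ) +
      (((Ioc 0 X).filter (fun m => ¬ sm B w y m ≤ Z)).card : ℝ) = X := by
      have : (((Ioc 0 X).filter (fun m => sm B w y m ≤ Z)).card) +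
        (((Ioc 0 X).filter (fun m => ¬ sm B w y m ≤ Z)).card) = X := by omega
      exact_mod_cast this
    have h6 : (((Ioc 0 X).filter (fun m => ¬ sm B w y m ≤ Z)).card : ℝ) ≤
        (((Ioc 0 X).filter (fun m => Z < Pool.Agent.W208.TL.sm 0 y m)).card : ℝ) := by exact_mod_cast h2
    linarith
  have hsum : |(∑ d ∈ Icc 1 Z, (((Ioc 0 X).filter (fun m => sm B w y m = d)).card : ℝ)) - X * s| ≤
      e1 * (X * s) + Z * ((y : ℝ) ^ KL + 4) := by
    calc |(∑ d ∈ Icc 1 Z, (((Ioc 0 X).filter (fun m => sm B w y m = d)).card : ℝ)) - X * s|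
        = |∑ d ∈ Icc 1 Z, ((((Ioc 0 X).filter (fun m => sm B w y m = d)).card : ℝ) -
            X * mu B w y d)| := by
          rw [Finset.sum_sub_distrib, hs, Finset.mul_sum]
      _ ≤ ∑ d ∈ Icc 1 Z, |(((Ioc 0 X).filter (fun m => sm B w y m = d)).card : ℝ) -
            X * mu B w y d| := Finset.abs_sum_le_sum_abs _ _
      _ ≤ ∑ d ∈ Icc 1 Z, (e1 * (X * mu B w y d) + ((y : ℝ) ^ KL + 4)) :=
          Finset.sum_le_sum fun d _ => key d
      _ = e1 * (X * s) + Z * ((y : ℝ) ^ KL + 4) := by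
          rw [Finset.sum_add_distrib, ← Finset.mul_sum, ← Finset.mul_sum, Finset.sum_const,
            Nat.card_Icc, nsmul_eq_mul]
          simp [hs]
  rw [hcard] at hsum
  rw [abs_le] at hsum
  obtain ⟨ha, hb⟩ := hsum
  have hc1 : (1 - e1) * X ≤ (1 + e1) * (X * s) + e1 * X := by linarith
  have hc2 : (1 - e1) * (X * s) ≤ X + e1 * X := by linarith
  have hd1 : (1 - e1) ≤ (1 + e1) * s + e1 := by
    have : X * (1 - e1) ≤ X * ((1 + e1) * s + e1) := by linarith
    exact le_of_mul_le_mul_left this hXpos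
  have hd2 : (1 - e1) * s ≤ 1 + e1 := by
    have : X * ((1 - e1) * s) ≤ X * (1 + e1) := by linarith
    exact le_of_mul_le_mul_left this hXpos
  rw [abs_le]
  constructor
  · nlinarith
  · have h7 : (1 - e1) * s ≤ (1 - e1) * (1 + 4 * e1) := by nlinarith
    have h8 := le_of_mul_le_mul_left h7 (by linarith)
    linarith

/-! ### (B) comparison of the densities -/

lemma one_sub_sum_le {ι : Type*} (S : Finset ι) (f : ι → ℝ) (h0 : ∀ i ∈ S, 0 ≤ f i)
    (h1 : ∀ i ∈ S, f i ≤ 1) : 1 - ∑ i ∈ S, f i ≤ ∏ i ∈ S, (1 - f i) := by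
  classical
  induction S using Finset.induction_on with
  | empty => simp
  | insert a S ha ih =>
    rw [Finset.sum_insert ha, Finset.prod_insert ha]
    have h2 := ih (fun i hi => h0 i (mem_insert_of_mem hi)) (fun i hi => h1 i (mem_insert_of_mem hi))
    have h3 := h0 a (mem_insert_self a S)
    have h4 := h1 a (mem_insert_self a S)
    have h5 : 0 ≤ ∑ i ∈ S, f i := Finset.sum_nonneg fun i hi => h0 i (mem_insert_of_mem hi)
    have h6 : (1 - f a) * (1 - ∑ i ∈ S, f i) ≤ (1 - f a) * ∏ i ∈ S, (1 - f i) :=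
      mul_le_mul_of_nonneg_left h2 (by linarith)
    nlinarith [mul_nonneg h3 h5]

lemma sum_inv_sq {w y : ℕ} (hw : 1 ≤ w) : ∑ l ∈ PP B w y, 1 / (l : ℝ) ^ 2 ≤ 1 / (w : ℝ) := by
  have hsub : PP B w y ⊆ Ioc w y := by
    intro l hl
    have := (mem_PP hl).1
    rw [mem_Ioc]
    exact this
  by_cases h : w ≤ y
  · calc ∑ l ∈ PP B w y, 1 / (l : ℝ) ^ 2 ≤ ∑ l ∈ Ioc w y, 1 / (l : ℝ) ^ 2 := by
          apply Finset.sum_le_sum_of_subset_of_nonneg hsub
          intro i _ _; positivity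
      _ = ∑ l ∈ Ioc w y, ((l : ℝ) ^ 2)⁻¹ := by simp [one_div]
      _ ≤ (w : ℝ)⁻¹ - (y : ℝ)⁻¹ := sum_Ioc_inv_sq_le_sub (by omega) h
      _ ≤ 1 / (w : ℝ) := by
          rw [one_div]
          have : (0 : ℝ) ≤ (y : ℝ)⁻¹ := by positivity
          linarith
  · have : PP B w y = ∅ := by
      rw [Finset.eq_empty_iff_forall_notMem]
      intro l hl
      have := (mem_PP hl).1
      omega
    rw [this]
    simp

lemma local_le {J : ℕ} {x : ℝ} (hx : 0 < x) (hx1 : x ≤ 1) (hJx : (J : ℝ) * x ≤ 1) :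
    (1 - x) ^ J * (1 - (J : ℝ) ^ 2 * x ^ 2) ≤ 1 - J * x := by
  have h1 : (1 - x) ^ J * (1 + J * x) ≤ 1 := by
    have h2 : 1 + (J : ℝ) * x ≤ (1 + x) ^ J := one_add_mul_le_pow (by linarith) J
    calc (1 - x) ^ J * (1 + J * x) ≤ (1 - x) ^ J * (1 + x) ^ J :=
          mul_le_mul_of_nonneg_left h2 (pow_nonneg (by linarith) J)
      _ = (1 - x ^ 2) ^ J := by rw [← mul_pow]; ring
      _ ≤ 1 := pow_le_one₀ (by nlinarith) (by nlinarith)
  have h3 : (1 - x) ^ J * (1 - (J : ℝ) ^ 2 * x ^ 2) = ((1 - x) ^ J * (1 + J * x)) * (1 - J * x) := by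
    ring
  rw [h3]
  calc ((1 - x) ^ J * (1 + J * x)) * (1 - J * x) ≤ 1 * (1 - J * x) :=
        mul_le_mul_of_nonneg_right h1 (by linarith)
    _ = 1 - J * x := one_mul _

lemma dens_ge {J w y : ℕ} (hJ : 1 ≤ J) (hw : J ≤ w) {d : Fin J → ℕ}
    (h1 : ∀ i, sm B w y (d i) = d i) (h2 : ∀ i j, i ≠ j → Nat.Coprime (d i) (d j)) :
    (1 - (J : ℝ) ^ 2 / w) * ∏ i, mu B w y (d i) ≤ dens B w y d := by
  classical
  have hw1 : 1 ≤ w := le_trans hJ hw
  have hmu : ∏ i, mu B w y (d i) = V B w y ^ J / ∏ i, (d i : ℝ) := by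
    have : ∀ i ∈ (univ : Finset (Fin J)), mu B w y (d i) = V B w y / (d i : ℝ) := by
      intro i _
      rw [mu_def, if_pos (h1 i)]
    rw [Finset.prod_congr rfl this, Finset.prod_div_distrib, Finset.prod_const, Finset.card_univ,
      Fintype.card_fin]
  unfold dens
  rw [if_pos ⟨h1, h2⟩, hmu, mul_div_assoc']
  apply div_le_div_of_nonneg_right _ (Finset.prod_nonneg fun i _ => Nat.cast_nonneg _)
  have hloc : ∀ l ∈ PP B w y, (1 - 1 / (l : ℝ)) ^ J * (1 - (J : ℝ) ^ 2 * (1 / (l : ℝ)) ^ 2) ≤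
      1 - (if ∃ i, l ∣ d i then (1 : ℝ) else (J : ℝ)) / l := by
    intro l hl
    obtain ⟨ha, hb⟩ := one_div_le hl
    have hJl : (J : ℝ) * (1 / (l : ℝ)) ≤ 1 := by
      have h3 : J ≤ l := le_trans hw (mem_PP hl).1.1.le
      have h4 : (0 : ℝ) < l := by exact_mod_cast (mem_PP hl).2.pos
      rw [mul_one_div, div_le_one h4]
      exact_mod_cast h3
    split_ifs with h
    · have h5 : (1 - 1 / (l : ℝ)) ^ J ≤ 1 - 1 / (l : ℝ) := by
        calc (1 - 1 / (l : ℝ)) ^ J ≤ (1 - 1 / (l : ℝ)) ^ 1 :=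
              pow_le_pow_of_le_one (by linarith) (by linarith) hJ
          _ = 1 - 1 / (l : ℝ) := pow_one _
      have h6 : 0 ≤ (1 - 1 / (l : ℝ)) ^ J := pow_nonneg (by linarith) J
      have h7 : 0 ≤ (J : ℝ) ^ 2 * (1 / (l : ℝ)) ^ 2 := by positivity
      nlinarith [mul_nonneg h6 h7]
    · have := local_le ha hb hJl
      rw [mul_one_div] at this
      exact this
  have hone : ∀ l ∈ PP B w y, (J : ℝ) ^ 2 * (1 / (l : ℝ)) ^ 2 ≤ 1 := by
    intro l hl
    have h3 : J ≤ l := le_trans hw (mem_PP hl).1.1.le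
    have h4 : (0 : ℝ) < l := by exact_mod_cast (mem_PP hl).2.pos
    have hJl : (J : ℝ) * (1 / (l : ℝ)) ≤ 1 := by
      rw [mul_one_div, div_le_one h4]
      exact_mod_cast h3
    rw [← mul_pow]
    exact pow_le_one₀ (by positivity) hJl
  have hprod : V B w y ^ J * ∏ l ∈ PP B w y, (1 - (J : ℝ) ^ 2 * (1 / (l : ℝ)) ^ 2) ≤
      ∏ l ∈ PP B w y, (1 - (if ∃ i, l ∣ d i then (1 : ℝ) else (J : ℝ)) / l) := by
    unfold V
    rw [← Finset.prod_pow, ← Finset.prod_mul_distrib]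
    apply Finset.prod_le_prod
    · intro l hl
      obtain ⟨ha, hb⟩ := one_div_le hl
      have := hone l hl
      exact mul_nonneg (pow_nonneg (by linarith) J) (by linarith)
    · exact hloc
  refine le_trans ?_ hprod
  rw [mul_comm]
  apply mul_le_mul_of_nonneg_left _ (pow_nonneg (V_nonneg w y) J)
  refine le_trans ?_ (one_sub_sum_le (PP B w y) _ (fun l _ => by positivity) hone)
  have h8 := sum_inv_sq (B := B) (y := y) hw1
  have h9 : ∑ l ∈ PP B w y, (J : ℝ) ^ 2 * (1 / (l : ℝ)) ^ 2 =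
      (J : ℝ) ^ 2 * ∑ l ∈ PP B w y, 1 / (l : ℝ) ^ 2 := by
    rw [Finset.mul_sum]
    apply Finset.sum_congr rfl
    intro l _
    rw [one_div_pow]
  rw [h9]
  have h10 : (J : ℝ) ^ 2 * ∑ l ∈ PP B w y, 1 / (l : ℝ) ^ 2 ≤ (J : ℝ) ^ 2 * (1 / w) :=
    mul_le_mul_of_nonneg_left h8 (by positivity)
  rw [mul_one_div] at h10
  linarith

/-! ### (C) vectors that are not pairwise coprime -/

lemma sum_dvd_le {w y l Z : ℕ} (hl : l ∈ PP B w y) :
    ∑ d ∈ Icc 1 Z, (if l ∣ d then mu B w y d else 0) ≤ (∑ d ∈ Icc 1 Z, mu B w y d) * (1 / l) := by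
  have hl0 : 0 < l := (mem_PP hl).2.pos
  rw [← Finset.sum_filter, Finset.sum_mul]
  have h1 : ∑ d ∈ (Icc 1 Z).filter (fun d => l ∣ d), mu B w y d =
      ∑ d ∈ (Icc 1 Z).filter (fun d => l ∣ d), mu B w y (d / l) * (1 / l) := by
    apply Finset.sum_congr rfl
    intro d hd
    rw [mem_filter, mem_Icc] at hd
    obtain ⟨c, rfl⟩ := hd.2
    have hc : c ≠ 0 := by
      rintro rfl
      have := hd.1.1
      simp at this
    rw [mu_mul hl hc, Nat.mul_div_cancel_left c hl0, mul_one_div]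
  rw [h1]
  have h2 : ∑ d ∈ (Icc 1 Z).filter (fun d => l ∣ d), mu B w y (d / l) * (1 / l) =
      ∑ c ∈ ((Icc 1 Z).filter (fun d => l ∣ d)).image (fun d => d / l), mu B w y c * (1 / l) := by
    rw [Finset.sum_image]
    intro a ha b hb hab
    simp only [coe_filter, mem_Icc, Set.mem_ofPred_eq] at ha hb
    obtain ⟨c, rfl⟩ := ha.2
    obtain ⟨c', rfl⟩ := hb.2
    simp only [Nat.mul_div_cancel_left _ hl0] at hab
    rw [hab]
  rw [h2]
  apply Finset.sum_le_sum_of_subset_of_nonneg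
  · intro c hc
    rw [mem_image] at hc
    obtain ⟨d, hd, rfl⟩ := hc
    rw [mem_filter, mem_Icc] at hd
    rw [mem_Icc]
    refine ⟨Nat.div_pos (Nat.le_of_dvd (by omega) hd.2) hl0, le_trans (Nat.div_le_self _ _) hd.1.2⟩
  · intro c _ _
    exact mul_nonneg (mu_nonneg w y c) (by positivity)

lemma pair_le {J w y l Z : ℕ} (hl : l ∈ PP B w y) {i j : Fin J} (hij : i ≠ j) :
    ∑ d ∈ box J Z, (if l ∣ d i ∧ l ∣ d j then ∏ t, mu B w y (d t) else 0) ≤
      (∑ d ∈ Icc 1 Z, mu B w y d) ^ J * (1 / (l : ℝ) ^ 2) := by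
  classical
  set s := ∑ d ∈ Icc 1 Z, mu B w y d with hs
  have hs0 : 0 ≤ s := Finset.sum_nonneg fun d _ => mu_nonneg w y d
  have h1 : ∀ d ∈ box J Z, (if l ∣ d i ∧ l ∣ d j then ∏ t, mu B w y (d t) else 0) =
      ∏ t, (if (t = i ∨ t = j) ∧ ¬ l ∣ d t then 0 else mu B w y (d t)) := by
    intro d _
    by_cases h : l ∣ d i ∧ l ∣ d j
    · rw [if_pos h]
      apply Finset.prod_congr rfl
      intro t _
      rw [if_neg]
      rintro ⟨rfl | rfl, h2⟩
      · exact h2 h.1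
      · exact h2 h.2
    · rw [if_neg h]
      symm
      rw [Finset.prod_eq_zero_iff]
      rw [not_and_or] at h
      rcases h with h | h
      · exact ⟨i, mem_univ i, by rw [if_pos ⟨Or.inl rfl, h⟩]⟩
      · exact ⟨j, mem_univ j, by rw [if_pos ⟨Or.inr rfl, h⟩]⟩
  rw [Finset.sum_congr rfl h1]
  have h2 : ∑ d ∈ box J Z, ∏ t, (if (t = i ∨ t = j) ∧ ¬ l ∣ d t then 0 else mu B w y (d t)) =
      ∏ t : Fin J, ∑ c ∈ Icc 1 Z, (if (t = i ∨ t = j) ∧ ¬ l ∣ c then 0 else mu B w y c) := by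
    unfold Pool.Agent.W208.TL.box
    rw [Finset.prod_univ_sum]
  rw [h2]
  have h3 : ∀ t ∈ (univ : Finset (Fin J)),
      ∑ c ∈ Icc 1 Z, (if (t = i ∨ t = j) ∧ ¬ l ∣ c then 0 else mu B w y c) ≤
        s * (if t = i ∨ t = j then 1 / (l : ℝ) else 1) := by
    intro t _
    by_cases ht : t = i ∨ t = j
    · rw [if_pos ht]
      refine le_trans (le_of_eq ?_) (sum_dvd_le (Z := Z) hl)
      apply Finset.sum_congr rfl
      intro c _
      by_cases hc : l ∣ c
      · simp [hc]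
      · simp [hc, ht]
    · rw [if_neg ht, mul_one]
      apply le_of_eq
      apply Finset.sum_congr rfl
      intro c _
      rw [if_neg (fun h => ht h.1)]
  refine le_trans (Finset.prod_le_prod ?_ h3) (le_of_eq ?_)
  · intro t _
    apply Finset.sum_nonneg
    intro c _
    split_ifs
    · exact le_rfl
    · exact mu_nonneg w y c
  · rw [Finset.prod_mul_distrib, Finset.prod_const, Finset.card_univ, Fintype.card_fin,
      Finset.prod_ite, Finset.prod_const, Finset.prod_const_one, mul_one]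
    have h4 : (univ.filter (fun t : Fin J => t = i ∨ t = j)) = {i, j} := by
      ext t; simp
    rw [h4, Finset.card_pair hij, one_div_pow]

lemma noncop {J w y Z : ℕ} (hw : 1 ≤ w) :
    ∑ d ∈ (box J Z).filter (fun d => ¬ ∀ i j, i ≠ j → Nat.Coprime (d i) (d j)),
      ∏ t, mu B w y (d t) ≤ (J : ℝ) ^ 2 * (∑ d ∈ Icc 1 Z, mu B w y d) ^ J / w := by
  classical
  set s := ∑ d ∈ Icc 1 Z, mu B w y d with hs
  have hs0 : 0 ≤ s := Finset.sum_nonneg fun d _ => mu_nonneg w y d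
  have h1 : ∀ d ∈ (box J Z).filter (fun d => ¬ ∀ i j, i ≠ j → Nat.Coprime (d i) (d j)),
      ∏ t, mu B w y (d t) ≤ ∑ p ∈ (univ : Finset (Fin J × Fin J)).filter (fun p => p.1 ≠ p.2),
        ∑ l ∈ PP B w y, (if l ∣ d p.1 ∧ l ∣ d p.2 then ∏ t, mu B w y (d t) else 0) := by
    intro d hd
    have hpos : 0 ≤ ∏ t, mu B w y (d t) := Finset.prod_nonneg fun t _ => mu_nonneg w y _
    have hnn : ∀ (p : Fin J × Fin J) (l : ℕ),
        0 ≤ (if l ∣ d p.1 ∧ l ∣ d p.2 then ∏ t, mu B w y (d t) else 0) := by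
      intro p l
      split_ifs
      · exact hpos
      · exact le_rfl
    by_cases h0 : ∏ t, mu B w y (d t) = 0
    · rw [h0]
      apply Finset.sum_nonneg
      intro p _
      apply Finset.sum_nonneg
      intro l _
      split_ifs <;> exact le_rfl
    · have hsm : ∀ t, sm B w y (d t) = d t := by
        intro t
        by_contra h
        apply h0
        rw [Finset.prod_eq_zero_iff]
        exact ⟨t, mem_univ t, by rw [mu_def, if_neg h]⟩
      rw [mem_filter] at hd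
      have hd2 := hd.2
      push Not at hd2
      obtain ⟨i, j, hij, hc⟩ := hd2
      obtain ⟨l, hlp, hli, hlj⟩ := Nat.Prime.not_coprime_iff_dvd.1 hc
      have hl : l ∈ PP B w y := prime_of_sm (hsm i) hlp hli
      calc ∏ t, mu B w y (d t) = (if l ∣ d i ∧ l ∣ d j then ∏ t, mu B w y (d t) else 0) := by
            rw [if_pos ⟨hli, hlj⟩]
        _ ≤ ∑ l ∈ PP B w y, (if l ∣ d i ∧ l ∣ d j then ∏ t, mu B w y (d t) else 0) :=
            Finset.single_le_sum
              (f := fun l => (if l ∣ d i ∧ l ∣ d j then ∏ t, mu B w y (d t) else 0))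
              (fun l _ => hnn (i, j) l) hl
        _ ≤ _ := Finset.single_le_sum
              (f := fun p : Fin J × Fin J =>
                ∑ l ∈ PP B w y, (if l ∣ d p.1 ∧ l ∣ d p.2 then ∏ t, mu B w y (d t) else 0))
              (fun p _ => Finset.sum_nonneg fun l _ => hnn p l)
              (by rw [mem_filter]; exact ⟨mem_univ _, hij⟩ :
                (i, j) ∈ (univ : Finset (Fin J × Fin J)).filter (fun p => p.1 ≠ p.2))
  have hnn2 : ∀ d ∈ box J Z,
      0 ≤ ∑ p ∈ (univ : Finset (Fin J × Fin J)).filter (fun p => p.1 ≠ p.2),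
        ∑ l ∈ PP B w y, (if l ∣ d p.1 ∧ l ∣ d p.2 then ∏ t, mu B w y (d t) else 0) := by
    intro d _
    apply Finset.sum_nonneg
    intro p _
    apply Finset.sum_nonneg
    intro l _
    split_ifs
    · exact Finset.prod_nonneg fun t _ => mu_nonneg w y _
    · exact le_rfl
  calc ∑ d ∈ (box J Z).filter (fun d => ¬ ∀ i j, i ≠ j → Nat.Coprime (d i) (d j)),
      ∏ t, mu B w y (d t)
      ≤ ∑ d ∈ (box J Z).filter (fun d => ¬ ∀ i j, i ≠ j → Nat.Coprime (d i) (d j)),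
        ∑ p ∈ (univ : Finset (Fin J × Fin J)).filter (fun p => p.1 ≠ p.2),
        ∑ l ∈ PP B w y, (if l ∣ d p.1 ∧ l ∣ d p.2 then ∏ t, mu B w y (d t) else 0) :=
        Finset.sum_le_sum h1
    _ ≤ ∑ d ∈ box J Z,
        ∑ p ∈ (univ : Finset (Fin J × Fin J)).filter (fun p => p.1 ≠ p.2),
        ∑ l ∈ PP B w y, (if l ∣ d p.1 ∧ l ∣ d p.2 then ∏ t, mu B w y (d t) else 0) :=
        Finset.sum_le_sum_of_subset_of_nonneg (Finset.filter_subset _ _)
          (fun d hd _ => hnn2 d hd)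
    _ = ∑ p ∈ (univ : Finset (Fin J × Fin J)).filter (fun p => p.1 ≠ p.2),
        ∑ l ∈ PP B w y, ∑ d ∈ box J Z,
          (if l ∣ d p.1 ∧ l ∣ d p.2 then ∏ t, mu B w y (d t) else 0) := by
        rw [Finset.sum_comm]
        apply Finset.sum_congr rfl
        intro p _
        rw [Finset.sum_comm]
    _ ≤ ∑ p ∈ (univ : Finset (Fin J × Fin J)).filter (fun p => p.1 ≠ p.2),
        ∑ l ∈ PP B w y, s ^ J * (1 / (l : ℝ) ^ 2) := by
        apply Finset.sum_le_sum
        intro p hp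
        apply Finset.sum_le_sum
        intro l hl
        exact pair_le hl (mem_filter.1 hp).2
    _ ≤ ∑ _p ∈ (univ : Finset (Fin J × Fin J)).filter (fun p => p.1 ≠ p.2), s ^ J * (1 / w) := by
        apply Finset.sum_le_sum
        intro p _
        rw [← Finset.mul_sum]
        exact mul_le_mul_of_nonneg_left (sum_inv_sq hw) (pow_nonneg hs0 J)
    _ ≤ ∑ _p ∈ (univ : Finset (Fin J × Fin J)), s ^ J * (1 / w) := by
        apply Finset.sum_le_sum_of_subset_of_nonneg (Finset.filter_subset _ _)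
        intro p _ _
        positivity
    _ = (J : ℝ) ^ 2 * s ^ J / w := by
        rw [Finset.sum_const, Finset.card_univ, Fintype.card_prod, Fintype.card_fin, nsmul_eq_mul]
        push_cast
        ring

/-! ### (D), (E) total variation -/

open Classical in
/-- the number of `m` in the class whose vector of parts is `d` -/
noncomputable def cnt {J : ℕ} (B : Finset ℕ) (w y : ℕ) (α : Fin J → ℕ) (β : Fin J → ℤ) (Q b M : ℕ)
    (d : Fin J → ℕ) : ℕ :=
  ((Ioc 0 M).filter (fun m => m ≡ b [MOD Q] ∧ ∀ i, sm B w y (lf (α i) (β i) m) = d i)).card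

lemma card_class (Q b M : ℕ) (hQ : 1 ≤ Q) :
    (((Ioc 0 M).filter (fun m => m ≡ b [MOD Q])).card : ℝ) ≤ M / Q + 1 := by
  have h := Nat.Ioc_filter_modEq_card 0 M (r := Q) hQ b
  have hQ' : (0 : ℚ) < Q := by exact_mod_cast hQ
  have h1 : (((#{x ∈ Ioc 0 M | x ≡ b [MOD Q]} : ℕ) : ℤ) : ℚ) ≤ (M : ℚ) / Q + 1 := by
    rw [h]
    push_cast
    apply max_le
    · have h2 := Int.floor_le (((M : ℚ) - b) / Q)
      have h3 := Int.sub_one_lt_floor ((((0 : ℕ) : ℚ) - b) / Q)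
      have h4 : ((M : ℚ) - b) / Q - (((0 : ℕ) : ℚ) - b) / Q = M / Q := by
        field_simp; push_cast; ring
      push_cast at h2 h3 h4
      linarith
    · positivity
  have h5 : ((((#{x ∈ Ioc 0 M | x ≡ b [MOD Q]} : ℕ) : ℚ)) : ℝ) ≤ (((M : ℚ) / Q + 1 : ℚ) : ℝ) := by
    exact_mod_cast h1
  push_cast at h5
  exact h5

/-- the abstract estimate of (E) -/
lemma tv {J w y Z : ℕ} {α : Fin J → ℕ} {β : Fin J → ℤ} {Q b M : ℕ} (hQ : 1 ≤ Q) (hM : 1 ≤ M)
    (Ψ : (Fin J → ℕ) → ℂ) (hΨ : ∀ d, ‖Ψ d‖ ≤ 1) (D : ℝ)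
    (hD : ∑ d ∈ box J Z, max (∏ i, mu B w y (d i) - (Q : ℝ) / M * cnt B w y α β Q b M d) 0 ≤ D) :
    ‖((Q : ℂ) / (M : ℂ)) * ∑ m ∈ (Ioc 0 M).filter (fun m => m ≡ b [MOD Q]),
          Ψ (fun i => sm B w y (lf (α i) (β i) m)) -
        ∑ d ∈ box J Z, Ψ d * ∏ i, (mu B w y (d i) : ℂ)‖ ≤
      1 + (Q : ℝ) / M - (∑ d ∈ Icc 1 Z, mu B w y d) ^ J + 2 * D := by
  classical
  set F := (Ioc 0 M).filter (fun m => m ≡ b [MOD Q]) with hF
  set parts : ℕ → (Fin J → ℕ) := fun m i => sm B w y (lf (α i) (β i) m) with hparts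
  have hMpos : (0 : ℝ) < M := by exact_mod_cast hM
  have hQM : (0 : ℝ) ≤ (Q : ℝ) / M := by positivity
  set U : (Fin J → ℕ) → ℝ := fun d => ∏ i, mu B w y (d i) with hU
  set P : (Fin J → ℕ) → ℝ := fun d => (Q : ℝ) / M * cnt B w y α β Q b M d with hP
  have hcnt : ∀ d, cnt B w y α β Q b M d = (F.filter (fun m => parts m = d)).card := by
    intro d
    unfold cnt
    rw [hF, Finset.filter_filter]
    congr 1
    apply Finset.filter_congr
    intro m _
    rw [hparts, funext_iff]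
  have hsplit : ∑ m ∈ F, Ψ (parts m) = ∑ d ∈ box J Z, (cnt B w y α β Q b M d : ℂ) * Ψ d +
      ∑ m ∈ F.filter (fun m => ¬ parts m ∈ box J Z), Ψ (parts m) := by
    rw [← Finset.sum_filter_add_sum_filter_not F (fun m => parts m ∈ box J Z)]
    congr 1
    rw [← Finset.sum_fiberwise_of_maps_to (g := parts) (t := box J Z)
      (s := F.filter (fun m => parts m ∈ box J Z))]
    · apply Finset.sum_congr rfl
      intro d hd
      rw [Finset.filter_filter]
      have h1 : F.filter (fun m => parts m ∈ box J Z ∧ parts m = d) =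
          F.filter (fun m => parts m = d) := by
        apply Finset.filter_congr
        intro m _
        constructor
        · exact fun h => h.2
        · rintro rfl; exact ⟨hd, rfl⟩
      rw [h1, hcnt d]
      rw [Finset.sum_congr rfl (g := fun _ => Ψ d)
        (fun m hm => by rw [(mem_filter.1 hm).2]), Finset.sum_const, nsmul_eq_mul]
    · intro m hm
      exact (mem_filter.1 hm).2
  have hcardsplit : (F.card : ℝ) = ∑ d ∈ box J Z, (cnt B w y α β Q b M d : ℝ) +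
      ((F.filter (fun m => ¬ parts m ∈ box J Z)).card : ℝ) := by
    rw [← Finset.card_filter_add_card_filter_not (s := F) (fun m => parts m ∈ box J Z)]
    push_cast
    congr 1
    rw [Finset.card_eq_sum_card_fiberwise (f := parts) (t := box J Z)]
    · push_cast
      apply Finset.sum_congr rfl
      intro d hd
      rw [Finset.filter_filter]
      have h1 : F.filter (fun m => parts m ∈ box J Z ∧ parts m = d) =
          F.filter (fun m => parts m = d) := by
        apply Finset.filter_congr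
        intro m _
        constructor
        · exact fun h => h.2
        · rintro rfl; exact ⟨hd, rfl⟩
      rw [h1, hcnt d]
    · intro m hm
      exact (mem_filter.1 hm).2
  have hsumU : ∑ d ∈ box J Z, U d = (∑ d ∈ Icc 1 Z, mu B w y d) ^ J := by
    rw [hU]
    unfold Pool.Agent.W208.TL.box
    rw [← Finset.prod_univ_sum, Finset.prod_const, Finset.card_univ, Fintype.card_fin]
  have hrew : ((Q : ℂ) / (M : ℂ)) * ∑ m ∈ F, Ψ (parts m) -
        ∑ d ∈ box J Z, Ψ d * ∏ i, (mu B w y (d i) : ℂ) =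
      ∑ d ∈ box J Z, ((P d - U d : ℝ) : ℂ) * Ψ d +
        ((Q : ℂ) / (M : ℂ)) * ∑ m ∈ F.filter (fun m => ¬ parts m ∈ box J Z), Ψ (parts m) := by
    rw [hsplit, mul_add, Finset.mul_sum]
    have h2 : ∑ d ∈ box J Z, ((P d - U d : ℝ) : ℂ) * Ψ d =
        ∑ d ∈ box J Z, (Q : ℂ) / (M : ℂ) * ((cnt B w y α β Q b M d : ℂ) * Ψ d) -
          ∑ d ∈ box J Z, Ψ d * ∏ i, (mu B w y (d i) : ℂ) := by
      rw [← Finset.sum_sub_distrib]
      apply Finset.sum_congr rfl
      intro d _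
      rw [hP, hU]
      push_cast
      ring
    rw [h2]
    ring
  rw [hrew]
  have hb1 : ‖∑ d ∈ box J Z, ((P d - U d : ℝ) : ℂ) * Ψ d‖ ≤ ∑ d ∈ box J Z, |P d - U d| := by
    refine le_trans (norm_sum_le _ _) (Finset.sum_le_sum fun d _ => ?_)
    rw [norm_mul, Complex.norm_real, Real.norm_eq_abs]
    exact mul_le_of_le_one_right (abs_nonneg _) (hΨ d)
  have hb2 : ‖((Q : ℂ) / (M : ℂ)) * ∑ m ∈ F.filter (fun m => ¬ parts m ∈ box J Z), Ψ (parts m)‖ ≤
      (Q : ℝ) / M * ((F.filter (fun m => ¬ parts m ∈ box J Z)).card : ℝ) := by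
    rw [norm_mul, norm_div, Complex.norm_natCast, Complex.norm_natCast]
    apply mul_le_mul_of_nonneg_left _ hQM
    refine le_trans (norm_sum_le _ _) ?_
    refine le_trans (Finset.sum_le_sum (fun m _ => hΨ (parts m))) ?_
    simp
  have hb3 : ∑ d ∈ box J Z, |P d - U d| = ∑ d ∈ box J Z, P d - ∑ d ∈ box J Z, U d +
      2 * ∑ d ∈ box J Z, max (U d - P d) 0 := by
    rw [Finset.mul_sum, ← Finset.sum_sub_distrib, ← Finset.sum_add_distrib]
    apply Finset.sum_congr rfl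
    intro d _
    rcases le_total (U d) (P d) with h | h
    · rw [abs_of_nonneg (by linarith), max_eq_right (by linarith)]; ring
    · rw [abs_of_nonpos (by linarith), max_eq_left (by linarith)]; ring
  have hb4 : ∑ d ∈ box J Z, P d = (Q : ℝ) / M * ∑ d ∈ box J Z, (cnt B w y α β Q b M d : ℝ) := by
    rw [hP, Finset.mul_sum]
  have hb5 : (Q : ℝ) / M * (F.card : ℝ) ≤ 1 + (Q : ℝ) / M := by
    have h6 := card_class Q b M hQ
    have hQpos : (0 : ℝ) < Q := by exact_mod_cast hQ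
    calc (Q : ℝ) / M * (F.card : ℝ) ≤ (Q : ℝ) / M * (M / Q + 1) :=
          mul_le_mul_of_nonneg_left h6 hQM
      _ = 1 + (Q : ℝ) / M := by field_simp
  rw [hcardsplit, mul_add] at hb5
  refine le_trans (norm_add_le _ _) ?_
  rw [hsumU] at hb3
  linarith

lemma pow_bounds {J : ℕ} {e1 s : ℝ} (he1 : 0 < e1) (hJ : 1 ≤ J) (h4J : 4 * (J : ℝ) * e1 ≤ 1 / 4)
    (hs1 : -(4 * e1) ≤ s - 1) (hs2 : s - 1 ≤ 4 * e1) :
    1 - 4 * J * e1 ≤ s ^ J ∧ s ^ J ≤ 2 := by
  have hJ1 : (1 : ℝ) ≤ J := by exact_mod_cast hJ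
  have he1J : e1 ≤ J * e1 := by nlinarith
  have h1 : 1 + (J : ℝ) * (-(4 * e1)) ≤ (1 + -(4 * e1)) ^ J :=
    one_add_mul_le_pow (by linarith) J
  have h0 : 0 ≤ s := by linarith
  constructor
  · have h2 : (1 + -(4 * e1)) ^ J ≤ s ^ J := by
      apply pow_le_pow_left₀
      · linarith
      · linarith
    linarith
  · have h2 : s ^ J ≤ (1 + 4 * e1) ^ J := pow_le_pow_left₀ h0 (by linarith) J
    have h3 : (1 + 4 * e1) ^ J * (1 + -(4 * e1)) ^ J ≤ 1 := by
      rw [← mul_pow]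
      apply pow_le_one₀
      · nlinarith
      · nlinarith
    have h4 : (3 / 4 : ℝ) ≤ (1 + -(4 * e1)) ^ J := by linarith
    have h5 : 0 ≤ (1 + 4 * e1) ^ J := by positivity
    have h6 : (1 + 4 * e1) ^ J * (3 / 4) ≤ 1 := le_trans (mul_le_mul_of_nonneg_left h4 h5) h3
    linarith

lemma size_bounds {J K1 KL Q M y : ℕ} {e1 : ℝ} (he1 : 0 < e1) (hQ1 : (1 : ℝ) ≤ Q)
    (hy1r : (1 : ℝ) ≤ y) (hyQ : (Q : ℝ) * (J + 4) ≤ e1 * y)
    (hM : y ^ (K1 * J + KL + 2) ≤ M) (hMpos : (0 : ℝ) < M) :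
    (Q : ℝ) / M ≤ e1 ∧
      (y : ℝ) ^ (K1 * J) * ((Q : ℝ) / M * ((y : ℝ) ^ KL + J + 3)) ≤ e1 := by
  have hJ0 : (0 : ℝ) ≤ J := Nat.cast_nonneg J
  have hMr : (y : ℝ) ^ (K1 * J) * (y : ℝ) ^ KL * y ≤ M := by
    have h1 : ((y ^ (K1 * J + KL + 2) : ℕ) : ℝ) ≤ M := by exact_mod_cast hM
    refine le_trans ?_ h1
    push_cast
    rw [pow_add, pow_add]
    apply mul_le_mul_of_nonneg_left _ (by positivity)
    nlinarith
  have hA1 : (1 : ℝ) ≤ (y : ℝ) ^ (K1 * J) := one_le_pow₀ hy1r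
  have hA2 : (1 : ℝ) ≤ (y : ℝ) ^ KL := one_le_pow₀ hy1r
  have hA3 : (1 : ℝ) ≤ (y : ℝ) ^ (K1 * J) * (y : ℝ) ^ KL := one_le_mul_of_one_le_of_one_le hA1 hA2
  have hyM : (y : ℝ) ≤ M := by
    refine le_trans ?_ hMr
    exact le_mul_of_one_le_left (by linarith) hA3
  constructor
  · rw [div_le_iff₀ hMpos]
    have h1 : (Q : ℝ) ≤ Q * (J + 4) := le_mul_of_one_le_right (by linarith) (by linarith)
    have h2 : e1 * y ≤ e1 * M := mul_le_mul_of_nonneg_left hyM he1.le
    linarith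
  · have h1 : (y : ℝ) ^ KL + J + 3 ≤ (J + 4) * (y : ℝ) ^ KL := by nlinarith
    have h2 : (y : ℝ) ^ (K1 * J) * ((Q : ℝ) / M * ((y : ℝ) ^ KL + J + 3)) ≤
        (y : ℝ) ^ (K1 * J) * ((Q : ℝ) / M * ((J + 4) * (y : ℝ) ^ KL)) := by
      gcongr
    refine le_trans h2 ?_
    have h3 : (y : ℝ) ^ (K1 * J) * ((Q : ℝ) / M * ((J + 4) * (y : ℝ) ^ KL)) =
        ((y : ℝ) ^ (K1 * J) * (y : ℝ) ^ KL) * ((Q : ℝ) * (J + 4)) / M := by ring
    rw [h3, div_le_iff₀ hMpos]
    have h4 : ((y : ℝ) ^ (K1 * J) * (y : ℝ) ^ KL) * ((Q : ℝ) * (J + 4)) ≤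
        ((y : ℝ) ^ (K1 * J) * (y : ℝ) ^ KL) * (e1 * y) :=
      mul_le_mul_of_nonneg_left hyQ (by positivity)
    have h5 : ((y : ℝ) ^ (K1 * J) * (y : ℝ) ^ KL) * (e1 * y) =
        e1 * ((y : ℝ) ^ (K1 * J) * (y : ℝ) ^ KL * y) := by ring
    have h6 : e1 * ((y : ℝ) ^ (K1 * J) * (y : ℝ) ^ KL * y) ≤ e1 * M :=
      mul_le_mul_of_nonneg_left hMr he1.le
    linarith

set_option maxHeartbeats 2000000 in
theorem claim : LAW → TAIL → CLAIM := by
  classical
  intro hLAW hTAIL J hJ ε hε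
  have hJ1 : (1 : ℝ) ≤ J := by exact_mod_cast hJ
  set e1 : ℝ := min 1 ε / (19 * J) with he1def
  have hmin : 0 < min 1 ε := lt_min one_pos hε
  have he1 : 0 < e1 := by positivity
  have hJe : 19 * J * e1 = min 1 ε := by rw [he1def]; field_simp
  have hmin1 : min 1 ε ≤ 1 := min_le_left _ _
  have hmin2 : min 1 ε ≤ ε := min_le_right _ _
  have he1J : e1 ≤ J * e1 := by nlinarith
  have he1half : e1 ≤ 1 / 2 := by nlinarith
  obtain ⟨K1, y1, hK1, hy12, hmass⟩ := mass hLAW hTAIL e1 he1 he1half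
  obtain ⟨KL, y2, hKL, hL⟩ := hLAW J hJ e1 he1 (by linarith)
  refine ⟨K1, K1 * J + KL + 2, max J ⌈(J : ℝ) ^ 2 / e1⌉₊, hK1, by omega, ?_⟩
  intro w Q hw hQ hQw
  have hwJ : J ≤ w := le_trans (le_max_left _ _) hw
  have hw1 : 1 ≤ w := le_trans hJ hwJ
  have hwpos : (0 : ℝ) < w := by exact_mod_cast hw1
  have hwe : (J : ℝ) ^ 2 / w ≤ e1 := by
    have h1 : ⌈(J : ℝ) ^ 2 / e1⌉₊ ≤ w := le_trans (le_max_right _ _) hw
    have h2 : (J : ℝ) ^ 2 / e1 ≤ w := le_trans (Nat.le_ceil _) (by exact_mod_cast h1)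
    rw [div_le_iff₀ he1] at h2
    rw [div_le_iff₀ hwpos]
    linarith
  have hQ1 : (1 : ℝ) ≤ Q := by exact_mod_cast hQ
  refine ⟨max (max y1 y2) ⌈(Q : ℝ) * (J + 4) / e1⌉₊, ?_⟩
  intro y hy B
  have hyy1 : y1 ≤ y := le_trans (le_trans (le_max_left _ _) (le_max_left _ _)) hy
  have hyy2 : y2 ≤ y := le_trans (le_trans (le_max_right _ _) (le_max_left _ _)) hy
  have hy2 : 2 ≤ y := le_trans hy12 hyy1
  have hy1r : (1 : ℝ) ≤ y := by exact_mod_cast (by omega : 1 ≤ y)
  have hyQ : (Q : ℝ) * (J + 4) ≤ e1 * y := by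
    have h1 : ⌈(Q : ℝ) * (J + 4) / e1⌉₊ ≤ y := le_trans (le_max_right _ _) hy
    have h2 : (Q : ℝ) * (J + 4) / e1 ≤ y := le_trans (Nat.le_ceil _) (by exact_mod_cast h1)
    rw [div_le_iff₀ he1] at h2
    linarith
  have hs := hmass B w y hyy1
  refine ⟨le_trans hs (by nlinarith), ?_⟩
  intro α β hI b M hM Ψ hΨ
  set Z := y ^ K1 with hZ
  set s := ∑ d ∈ Icc 1 Z, mu B w y d with hsdef
  rw [abs_le] at hs
  obtain ⟨hs1, hs2⟩ := hs
  have h4J : 4 * (J : ℝ) * e1 ≤ 1 / 4 := by nlinarith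
  obtain ⟨hsJlo, hsJhi⟩ := pow_bounds he1 hJ h4J hs1 hs2
  -- sizes
  have hypow : 1 ≤ y ^ (K1 * J + KL + 2) := Nat.one_le_pow _ _ (by omega)
  have hM1 : 1 ≤ M := le_trans hypow hM
  have hMpos : (0 : ℝ) < M := by exact_mod_cast hM1
  obtain ⟨hQM, herrb⟩ := size_bounds he1 hQ1 hy1r hyQ hM hMpos
  set err : ℝ := (Q : ℝ) / M * ((y : ℝ) ^ KL + J + 3) with herr
  have herr0 : 0 ≤ err := by positivity
  have hbox : ((box J Z).card : ℝ) = (y : ℝ) ^ (K1 * J) := by
    unfold Pool.Agent.W208.TL.box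
    rw [Fintype.card_piFinset_const, Nat.card_Icc, hZ, Nat.add_sub_cancel, ← pow_mul]
    push_cast
    rfl
  have herrbox : ((box J Z).card : ℝ) * err ≤ e1 := by
    rw [hbox, herr]
    exact herrb
  -- the pointwise bound
  have hpt : ∀ d ∈ box J Z,
      max (∏ i, mu B w y (d i) - (Q : ℝ) / M * cnt B w y α β Q b M d) 0 ≤
        2 * e1 * ∏ i, mu B w y (d i) + err +
          (if ¬ ∀ i j, i ≠ j → Nat.Coprime (d i) (d j) then ∏ i, mu B w y (d i) else 0) := by
    intro d _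
    have hU0 : 0 ≤ ∏ i, mu B w y (d i) := Finset.prod_nonneg fun i _ => mu_nonneg w y _
    have hP0 : 0 ≤ (Q : ℝ) / M * cnt B w y α β Q b M d := by positivity
    have hsplit0 : 0 ≤ 2 * e1 * ∏ i, mu B w y (d i) + err +
          (if ¬ ∀ i j, i ≠ j → Nat.Coprime (d i) (d j) then ∏ i, mu B w y (d i) else 0) := by
      have : 0 ≤ (if ¬ ∀ i j, i ≠ j → Nat.Coprime (d i) (d j) then ∏ i, mu B w y (d i) else 0) := by
        split_ifs
        · exact le_rfl
        · exact hU0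
      positivity
    apply max_le _ hsplit0
    by_cases hc : ∀ i j, i ≠ j → Nat.Coprime (d i) (d j)
    · rw [if_neg (not_not.2 hc), add_zero]
      by_cases hsm : ∀ i, sm B w y (d i) = d i
      · have hdens := dens_ge hJ hwJ hsm hc
        have hlaw := hL B α β w Q b hQ hQw y M hyy2 hI d
        rw [abs_le] at hlaw
        have h1 := hlaw.1
        have h2 : ((M : ℝ) / Q * dens B w y d) - (e1 * ((M : ℝ) / Q * dens B w y d) +
            (y : ℝ) ^ KL + J + 3) ≤ cnt B w y α β Q b M d := by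
          unfold cnt
          linarith
        have h3 : (Q : ℝ) / M * (((M : ℝ) / Q * dens B w y d) -
            (e1 * ((M : ℝ) / Q * dens B w y d) + (y : ℝ) ^ KL + J + 3)) ≤
            (Q : ℝ) / M * cnt B w y α β Q b M d := mul_le_mul_of_nonneg_left h2 (by positivity)
        have h4 : (Q : ℝ) / M * (((M : ℝ) / Q * dens B w y d) -
            (e1 * ((M : ℝ) / Q * dens B w y d) + (y : ℝ) ^ KL + J + 3)) =
            (1 - e1) * dens B w y d - err := by
          rw [herr]; field_simp; ring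
        rw [h4] at h3
        have h5 : (1 - e1) * ∏ i, mu B w y (d i) ≤ dens B w y d := by
          refine le_trans ?_ hdens
          apply mul_le_mul_of_nonneg_right _ hU0
          linarith
        have h6 : (1 - e1) * ((1 - e1) * ∏ i, mu B w y (d i)) ≤ (1 - e1) * dens B w y d :=
          mul_le_mul_of_nonneg_left h5 (by linarith)
        have h7 : 0 ≤ e1 ^ 2 * ∏ i, mu B w y (d i) := by positivity
        nlinarith
      · have : ∏ i, mu B w y (d i) = 0 := by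
          push Not at hsm
          obtain ⟨i, hi⟩ := hsm
          rw [Finset.prod_eq_zero_iff]
          exact ⟨i, mem_univ i, by rw [mu_def, if_neg hi]⟩
        rw [this]
        linarith
    · rw [if_pos hc]
      have : 0 ≤ 2 * e1 * ∏ i, mu B w y (d i) := by positivity
      linarith
  have hsumU : ∑ d ∈ box J Z, ∏ i, mu B w y (d i) = s ^ J := by
    unfold Pool.Agent.W208.TL.box
    rw [← Finset.prod_univ_sum, Finset.prod_const, Finset.card_univ, Fintype.card_fin]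
  have hD : ∑ d ∈ box J Z, max (∏ i, mu B w y (d i) - (Q : ℝ) / M * cnt B w y α β Q b M d) 0 ≤
      7 * e1 := by
    refine le_trans (Finset.sum_le_sum hpt) ?_
    rw [Finset.sum_add_distrib, Finset.sum_add_distrib, ← Finset.mul_sum, hsumU, Finset.sum_const,
      nsmul_eq_mul, ← Finset.sum_filter]
    have h1 := noncop (B := B) (J := J) (Z := Z) (y := y) hw1
    have h2 : (J : ℝ) ^ 2 * s ^ J / w ≤ 2 * e1 := by
      have h3 : (J : ℝ) ^ 2 * s ^ J / w = (J : ℝ) ^ 2 / w * s ^ J := by ring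
      rw [h3]
      have h4 : 0 ≤ (J : ℝ) ^ 2 / w := by positivity
      nlinarith
    have h5 : 2 * e1 * s ^ J ≤ 4 * e1 := by nlinarith
    linarith
  refine le_trans (tv hQ hM1 Ψ hΨ (7 * e1) hD) ?_
  nlinarith

end Pool.Agent.TH823.KB.C
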