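import Pool.Agent.TH823.KB.Mean2

/-! Residue classes modulo the product of the small primes -/

set_option autoImplicit false

namespace Pool.Agent.TH823.KB

open Finset

lemma dvd_prim {z l : ℕ} (hl : l.Prime) : l ∣ primorial z ↔ l ≤ z := by
  unfold primorial
  rw [hl.prime.dvd_finsetProd_iff]
  constructor
  · rintro ⟨p, hp, hd⟩
    rw [mem_filter, mem_range] at hp
    have := (Nat.prime_dvd_prime_iff_eq hl hp.2).1 hd
    omega
  · intro h
    exact ⟨l, mem_filter.2 ⟨mem_range.2 (by omega), hl⟩, dvd_rfl⟩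

lemma az_periodic (z m n : ℕ) : az z (primorial z * m + n) = az z n := by
  unfold az
  congr 1
  apply filter_congr
  intro p hp
  rw [mem_Icc] at hp
  constructor
  · rintro ⟨h1, h2⟩
    exact ⟨h1, (Nat.dvd_add_right (Dvd.dvd.mul_right ((dvd_prim h1).2 hp.2) m)).1 h2⟩
  · rintro ⟨h1, h2⟩
    exact ⟨h1, (Nat.dvd_add_right (Dvd.dvd.mul_right ((dvd_prim h1).2 hp.2) m)).2 h2⟩

lemma count_range (W g l : ℕ) : ((range W).filter fun b => l ∣ b + g).card ≤ W / l + 1 := by
  rw [← card_range (W / l + 1)]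
  apply card_le_card_of_injOn (fun m => m / l)
  · intro m hm
    rw [mem_coe, mem_filter, mem_range] at hm
    rw [mem_coe, mem_range]
    exact Nat.lt_succ_of_le (Nat.div_le_div_right hm.1.le)
  · intro a ha b hb hab
    rw [mem_coe, mem_filter] at ha hb
    have h2 : a / l = b / l := hab
    have h3 : a % l = b % l := by
      have h4 : a + g ≡ b + g [MOD l] := (Nat.modEq_zero_iff_dvd.2 ha.2).trans (Nat.modEq_zero_iff_dvd.2 hb.2).symm
      exact Nat.ModEq.add_right_cancel' g h4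
    rw [← Nat.div_add_mod a l, ← Nat.div_add_mod b l, h2, h3]

lemma az_avg (z g : ℕ) : ∑ b ∈ range (primorial z), (az z (b + g) : ℝ) ≤
    primorial z * (2 * ∑ p ∈ (Icc 1 z).filter Nat.Prime, 1 / (p : ℝ)) := by
  have h1 : ∀ b, (az z (b + g) : ℝ) = ∑ l ∈ (Icc 1 z).filter Nat.Prime, if l ∣ b + g then (1 : ℝ) else 0 := by
    intro b
    rw [az_sum]
    push_cast
    rfl
  simp only [h1]
  rw [sum_comm, mul_sum, mul_sum]
  apply sum_le_sum
  intro l hl
  rw [mem_filter, mem_Icc] at hl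
  have hl0 : (0 : ℝ) < l := by exact_mod_cast hl.2.pos
  have hW : 0 < primorial z := primorial_pos z
  have hlW : l ≤ primorial z := Nat.le_of_dvd hW ((dvd_prim hl.2).2 hl.1.2)
  have h2 : ∑ b ∈ range (primorial z), (if l ∣ b + g then (1 : ℝ) else 0) =
      (((range (primorial z)).filter fun b => l ∣ b + g).card : ℝ) := by
    rw [card_filter]
    push_cast
    rfl
  rw [h2]
  have h3 : (((range (primorial z)).filter fun b => l ∣ b + g).card : ℝ) ≤ (primorial z : ℝ) / l + 1 := by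
    calc (((range (primorial z)).filter fun b => l ∣ b + g).card : ℝ) ≤ ((primorial z / l + 1 : ℕ) : ℝ) :=
          Nat.cast_le.2 (count_range _ _ _)
      _ ≤ _ := by push_cast; linarith [@Nat.cast_div_le ℝ _ _ _ (primorial z) l]
  have h4 : (1 : ℝ) ≤ (primorial z : ℝ) / l := by
    rw [le_div_iff₀ hl0, one_mul]
    exact_mod_cast hlW
  calc _ ≤ (primorial z : ℝ) / l + 1 := h3
    _ ≤ 2 * ((primorial z : ℝ) / l) := by linarith
    _ = _ := by ring

lemma sum_classes {E : Type*} [AddCommMonoid E] (W M : ℕ) (F : ℕ → E) :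
    ∑ n ∈ range (W * M), F n = ∑ m ∈ range M, ∑ b ∈ range W, F (W * m + b) := by
  induction M with
  | zero => simp
  | succ M ih => rw [mul_add, mul_one, sum_range_add, ih, sum_range_succ]

lemma class_avg {N W M : ℕ} (hW : 1 ≤ W) (hWM : W * M ≤ N) (hN : N < W * (M + 1)) (hM : 1 ≤ M) (F : ℕ → ℂ)
    (hF : ∀ n, ‖F n‖ ≤ 1) :
    ‖(∑ n ∈ Ioc 0 N, F n) / N - (∑ b ∈ range W, (∑ m ∈ Ioc 0 M, F (W * m + b)) / M) / W‖ ≤ 4 * W / N := by
  have hW0 : (0 : ℝ) < W := by exact_mod_cast hW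
  have hM0 : (0 : ℝ) < M := by exact_mod_cast hM
  have hWMr : (0 : ℝ) < W * M := by positivity
  have hN0 : (0 : ℝ) < N := lt_of_lt_of_le hWMr (by exact_mod_cast hWM)
  have hIoc : ∀ K : ℕ, Ioc 0 K = (range (K + 1)).erase 0 := by
    intro K
    ext n
    rw [mem_Ioc, mem_erase, mem_range]
    omega
  set S1 := ∑ b ∈ range W, ∑ m ∈ Ioc 0 M, F (W * m + b) with hS1
  have e1 : ∑ n ∈ range (W * (M + 1)), F n = ∑ b ∈ range W, F b + S1 := by
    rw [sum_classes, sum_comm, hS1, ← sum_add_distrib]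
    apply sum_congr rfl
    intro b _
    rw [hIoc, ← add_sum_erase (range (M + 1)) (fun m => F (W * m + b)) (mem_range.2 (by omega : 0 < M + 1))]
    simp
  have e2 : ∑ n ∈ range (W * (M + 1)), F n = F 0 + ∑ n ∈ Ioc 0 N, F n + ∑ n ∈ Ico (N + 1) (W * (M + 1)), F n := by
    rw [range_eq_Ico, ← sum_Ico_consecutive F (Nat.zero_le (N + 1)) (by omega), ← range_eq_Ico, hIoc,
      add_sum_erase (range (N + 1)) F (mem_range.2 (by omega))]
  have hnorm : ∀ s : Finset ℕ, ‖∑ n ∈ s, F n‖ ≤ s.card := by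
    intro s
    refine (norm_sum_le _ _).trans ((sum_le_sum fun n _ => hF n).trans ?_)
    rw [sum_const, nsmul_eq_mul, mul_one]
  have e3 : ‖∑ n ∈ Ioc 0 N, F n - S1‖ ≤ 2 * W + 1 := by
    have h1 : ∑ n ∈ Ioc 0 N, F n - S1 = ∑ b ∈ range W, F b - F 0 - ∑ n ∈ Ico (N + 1) (W * (M + 1)), F n := by
      rw [e1] at e2
      linear_combination -e2
    rw [h1]
    have h2 := hnorm (range W)
    have h3 := hnorm (Ico (N + 1) (W * (M + 1)))
    rw [card_range] at h2
    rw [Nat.card_Ico] at h3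
    have h4 : ((W * (M + 1) - (N + 1) : ℕ) : ℝ) ≤ W := by
      have : W * (M + 1) - (N + 1) ≤ W := by rw [mul_add, mul_one]; omega
      exact_mod_cast this
    calc _ ≤ ‖∑ b ∈ range W, F b‖ + ‖F 0‖ + ‖∑ n ∈ Ico (N + 1) (W * (M + 1)), F n‖ :=
          (norm_sub_le _ _).trans (add_le_add (norm_sub_le _ _) le_rfl)
      _ ≤ W + 1 + W := add_le_add (add_le_add h2 (hF 0)) (h3.trans h4)
      _ = _ := by ring
  have e4 : ‖S1‖ ≤ W * M := by
    rw [hS1]
    refine (norm_sum_le _ _).trans ((sum_le_sum fun b _ => (norm_sum_le _ _).trans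
      (sum_le_sum fun m _ => hF _)).trans ?_)
    rw [sum_const, sum_const, card_range, Nat.card_Ioc]
    simp
  have hNc : (N : ℂ) ≠ 0 := by exact_mod_cast hN0.ne'
  have hWc : (W : ℂ) ≠ 0 := by exact_mod_cast hW0.ne'
  have hMc : (M : ℂ) ≠ 0 := by exact_mod_cast hM0.ne'
  have e5 : (∑ b ∈ range W, (∑ m ∈ Ioc 0 M, F (W * m + b)) / (M : ℂ)) / W = S1 / (W * M) := by
    rw [← sum_div, div_div, mul_comm (M : ℂ)]
  rw [e5]
  have e6 : (∑ n ∈ Ioc 0 N, F n) / (N : ℂ) - S1 / (W * M) =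
      (∑ n ∈ Ioc 0 N, F n - S1) / N - S1 * (((1 / (W * M) - 1 / N : ℝ)) : ℂ) := by
    push_cast
    field_simp
    ring
  rw [e6]
  have h5 : 0 ≤ 1 / ((W : ℝ) * M) - 1 / N := by
    rw [sub_nonneg]
    exact one_div_le_one_div_of_le hWMr (by exact_mod_cast hWM)
  have h6 : (W * M : ℝ) * (1 / ((W : ℝ) * M) - 1 / N) ≤ W / N := by
    have h7 : (N : ℝ) ≤ W * M + W := by
      have : N ≤ W * M + W := by rw [mul_add, mul_one] at hN; omega
      exact_mod_cast this
    have h8 : (W * M : ℝ) * (1 / ((W : ℝ) * M) - 1 / N) = (N - W * M) / N := by field_simp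
    rw [h8]
    apply div_le_div_of_nonneg_right _ hN0.le
    linarith
  calc _ ≤ ‖(∑ n ∈ Ioc 0 N, F n - S1) / (N : ℂ)‖ + ‖S1 * (((1 / (W * M) - 1 / N : ℝ)) : ℂ)‖ := norm_sub_le _ _
    _ ≤ (2 * W + 1) / N + (W * M) * (1 / (W * M) - 1 / N) := by
        rw [norm_div, Complex.norm_natCast, norm_mul, Complex.norm_real, Real.norm_of_nonneg h5]
        exact add_le_add (div_le_div_of_nonneg_right e3 hN0.le) (mul_le_mul_of_nonneg_right e4 h5)
    _ ≤ (2 * W + 1) / N + W / N := by linarith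
    _ ≤ 4 * W / N := by
        rw [← add_div]
        apply div_le_div_of_nonneg_right _ hN0.le
        have : (1 : ℝ) ≤ W := by exact_mod_cast hW
        linarith

end Pool.Agent.TH823.KB
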