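import Pool.Agent.TH823.KB.CI3

/-! Smooth functions of `Ω (n + h)` are almost orthogonal, hence seldom correlated with a given sequence -/

set_option autoImplicit false

namespace Pool.Agent.TH823.KB

open Finset
open Pool.Agent.W883.TL (Om)
open scoped ComplexConjugate

/-- the mean of `G ∘ Ω` -/
noncomputable def gam (N : ℕ) (G : ℕ → ℂ) : ℂ := (∑ n ∈ Ioc 0 N, G (Om n)) / N

lemma gam_bd {N : ℕ} (hN : 1 ≤ N) {G : ℕ → ℂ} (hG : ∀ l, ‖G l‖ ≤ 1) : ‖gam N G‖ ≤ 1 := by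
  have hNr : (0 : ℝ) < N := by exact_mod_cast hN
  unfold gam
  rw [norm_div, Complex.norm_natCast, div_le_one hNr]
  refine (norm_sum_le _ _).trans ((sum_le_sum fun n _ => hG _).trans ?_)
  rw [sum_const, Nat.card_Ioc, nsmul_eq_mul, mul_one]
  simp

lemma pair_small (A : ℕ) {e : ℝ} (he : 0 < e) : ∃ δ : ℝ, 0 < δ ∧ ∃ N0 : ℕ, ∀ N : ℕ, N0 ≤ N → ∀ G : ℕ → ℂ,
    (∀ l, ‖G l‖ ≤ 1) → (∀ a b, ‖G a - G b‖ ≤ δ * |(a : ℝ) - b|) → ∀ h h' : ℕ, h ≤ A * N → h' ≤ A * N → h ≠ h' →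
    ‖∑ n ∈ Ioc 0 N, (G (Om (n + h)) - gam N G) * conj (G (Om (n + h')) - gam N G)‖ ≤ 3 * e * N := by
  obtain ⟨δ, hδ, N0, hCI⟩ := CI2 A 2 (by norm_num) he
  refine ⟨δ, hδ, N0 + 1, fun N hN G hG hL h h' hh hh' hne => ?_⟩
  have hN1 : 1 ≤ N := by omega
  have hNr : (0 : ℝ) < N := by exact_mod_cast hN1
  have hNc : (N : ℂ) ≠ 0 := by exact_mod_cast hNr.ne'
  have hGc : ∀ l, ‖conj (G l)‖ ≤ 1 := fun l => by rw [RCLike.norm_conj]; exact hG l
  set γ := gam N G with hγ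
  have hγ1 : ‖γ‖ ≤ 1 := gam_bd hN1 hG
  have hone : (∑ _n ∈ Ioc 0 N, (1 : ℂ)) / N = 1 := by
    rw [sum_const, Nat.card_Ioc, nsmul_eq_mul, mul_one]
    simp only [Nat.sub_zero]
    exact div_self hNc
  have hinj : ∀ a b : ℕ, a ≠ b → Function.Injective (![a, b] : Fin 2 → ℕ) := by
    intro a b hab i j hij
    fin_cases i <;> fin_cases j <;> simp_all
  -- one factor
  have key1 : ∀ a b : ℕ, a ≤ A * N → b ≤ A * N → a ≠ b → ‖(∑ n ∈ Ioc 0 N, G (Om (n + a))) / N - γ‖ ≤ e := by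
    intro a b ha hb hab
    have h1 := hCI N (by omega) ![a, b] (by intro i; fin_cases i <;> simpa) (hinj a b hab) ![G, fun _ => 1]
      (by intro i l; fin_cases i <;> simp [hG]) (by
        intro i x y
        fin_cases i
        · exact hL x y
        · simp
          positivity)
    simp only [Fin.prod_univ_two, Matrix.cons_val_zero, Matrix.cons_val_one, mul_one] at h1
    rw [hone, mul_one] at h1
    exact h1
  have key2 : ‖(∑ n ∈ Ioc 0 N, G (Om (n + h)) * conj (G (Om (n + h')))) / N - γ * conj γ‖ ≤ e := by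
    have h1 := hCI N (by omega) ![h, h'] (by intro i; fin_cases i <;> simpa) (hinj h h' hne)
      ![G, fun l => conj (G l)] (by intro i l; fin_cases i <;> simp [hG]) (by
        intro i x y
        fin_cases i
        · exact hL x y
        · simp only [Fin.mk_one, Matrix.cons_val_one]
          have : conj (G x) - conj (G y) = conj (G x - G y) := (map_sub _ _ _).symm
          change ‖conj (G x) - conj (G y)‖ ≤ _
          rw [this, RCLike.norm_conj]
          exact hL x y)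
    simp only [Fin.prod_univ_two, Matrix.cons_val_zero, Matrix.cons_val_one] at h1
    have h2 : (∑ n ∈ Ioc 0 N, conj (G (Om n))) / (N : ℂ) = conj γ := by
      rw [hγ]
      unfold gam
      rw [map_div₀, map_sum, map_natCast]
    rw [h2] at h1
    exact h1
  have k1 := key1 h h' hh hh' hne
  have k2 := key1 h' h hh' hh hne.symm
  set a := (∑ n ∈ Ioc 0 N, G (Om (n + h)) * conj (G (Om (n + h')))) / (N : ℂ) with ha
  set b := (∑ n ∈ Ioc 0 N, G (Om (n + h))) / (N : ℂ) with hb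
  set b' := (∑ n ∈ Ioc 0 N, G (Om (n + h'))) / (N : ℂ) with hb'
  have hcb : conj b' = (∑ n ∈ Ioc 0 N, conj (G (Om (n + h')))) / (N : ℂ) := by
    rw [hb', map_div₀, map_sum, map_natCast]
  have e1 : ∑ n ∈ Ioc 0 N, (G (Om (n + h)) - γ) * conj (G (Om (n + h')) - γ) =
      N * ((a - γ * conj γ) - γ * (conj b' - conj γ) - conj γ * (b - γ)) := by
    have e2 : ∀ n ∈ Ioc 0 N, (G (Om (n + h)) - γ) * conj (G (Om (n + h')) - γ) =
        G (Om (n + h)) * conj (G (Om (n + h'))) - γ * conj (G (Om (n + h'))) - conj γ * G (Om (n + h)) +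
          γ * conj γ := by
      intro n _
      rw [map_sub]
      ring
    rw [sum_congr rfl e2, sum_add_distrib, sum_sub_distrib, sum_sub_distrib, ← mul_sum, ← mul_sum, sum_const,
      Nat.card_Ioc, nsmul_eq_mul, hcb, ha, hb]
    simp only [Nat.sub_zero]
    field_simp
    ring
  rw [e1, norm_mul, Complex.norm_natCast, mul_comm]
  apply mul_le_mul_of_nonneg_right _ hNr.le
  have k3 : ‖conj b' - conj γ‖ ≤ e := by
    rw [← map_sub, RCLike.norm_conj]
    exact k2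
  have h3 : ‖γ * (conj b' - conj γ)‖ ≤ e := by
    rw [norm_mul]
    exact (mul_le_of_le_one_left (norm_nonneg _) hγ1).trans k3
  have h4 : ‖conj γ * (b - γ)‖ ≤ e := by
    rw [norm_mul, RCLike.norm_conj]
    exact (mul_le_of_le_one_left (norm_nonneg _) hγ1).trans k1
  calc _ ≤ ‖a - γ * conj γ‖ + ‖γ * (conj b' - conj γ)‖ + ‖conj γ * (b - γ)‖ :=
        (norm_sub_le _ _).trans (add_le_add (norm_sub_le _ _) le_rfl)
    _ ≤ e + e + e := add_le_add (add_le_add key2 h3) h4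
    _ = 3 * e := by ring

lemma dual_count {N : ℕ} (hN : 1 ≤ N) {ε e : ℝ} (hε : 0 < ε) (he : 0 ≤ e) (hee : e ≤ ε ^ 2 / 4) (c : ℕ → ℂ)
    (hc : ∀ n, ‖c n‖ ≤ 1) (u : ℕ → ℕ → ℂ) (hu : ∀ h n, ‖u h n‖ ≤ 2) (H : Finset ℕ)
    (hp : ∀ h ∈ H, ∀ h' ∈ H, h ≠ h' → ‖∑ n ∈ Ioc 0 N, u h n * conj (u h' n)‖ ≤ e * N)
    (hH : ∀ h ∈ H, ε * N < ‖∑ n ∈ Ioc 0 N, c n * u h n‖) : (H.card : ℝ) ≤ 6 / ε ^ 2 := by
  rcases H.eq_empty_or_nonempty with rfl | hne
  · simp only [card_empty, Nat.cast_zero]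
    positivity
  have hNr : (0 : ℝ) < N := by exact_mod_cast hN
  set m : ℝ := (H.card : ℝ) with hm
  have hm0 : 0 < m := by rw [hm]; exact_mod_cast hne.card_pos
  set wv : ℕ → ℂ := fun h => ∑ n ∈ Ioc 0 N, c n * u h n with hwv
  set θ : ℕ → ℂ := fun h => conj (wv h) / (‖wv h‖ : ℂ) with hθ
  have hθ1 : ∀ h, ‖θ h‖ ≤ 1 := by
    intro h
    rw [hθ]
    simp only [norm_div, RCLike.norm_conj, Complex.norm_real, norm_norm]
    exact div_self_le_one _
  have hθw : ∀ h ∈ H, θ h * wv h = ((‖wv h‖ : ℝ) : ℂ) := by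
    intro h hh
    have h1 : ‖wv h‖ ≠ 0 := by
      have := hH h hh
      have h2 : 0 < ε * N := by positivity
      exact (lt_trans h2 this).ne'
    have h2 : ((‖wv h‖ : ℝ) : ℂ) ≠ 0 := by exact_mod_cast h1
    rw [hθ]
    simp only
    rw [div_mul_eq_mul_div, div_eq_iff h2, ← Complex.normSq_eq_conj_mul_self, Complex.normSq_eq_norm_sq]
    push_cast
    ring
  set U : ℕ → ℂ := fun n => ∑ h ∈ H, θ h * u h n with hU
  have h1 : ((∑ h ∈ H, ‖wv h‖ : ℝ) : ℂ) = ∑ n ∈ Ioc 0 N, c n * U n := by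
    push_cast
    rw [← sum_congr rfl hθw]
    simp only [hwv, hU, mul_sum]
    rw [sum_comm]
    exact sum_congr rfl fun n _ => sum_congr rfl fun h _ => by ring
  have h2 : ∑ h ∈ H, ‖wv h‖ ≤ ∑ n ∈ Ioc 0 N, ‖U n‖ := by
    have h3 : ∑ h ∈ H, ‖wv h‖ = ‖((∑ h ∈ H, ‖wv h‖ : ℝ) : ℂ)‖ := by
      rw [Complex.norm_real, Real.norm_of_nonneg (sum_nonneg fun h _ => norm_nonneg _)]
    rw [h3, h1]
    refine (norm_sum_le _ _).trans (sum_le_sum fun n _ => ?_)
    rw [norm_mul]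
    exact mul_le_of_le_one_left (norm_nonneg _) (hc n)
  have h3 : m * (ε * N) < ∑ h ∈ H, ‖wv h‖ := by
    calc m * (ε * N) = ∑ _h ∈ H, ε * N := by rw [sum_const, nsmul_eq_mul]
      _ < _ := sum_lt_sum_of_nonempty hne hH
  have h4 : (∑ n ∈ Ioc 0 N, ‖U n‖) ^ 2 ≤ N * ∑ n ∈ Ioc 0 N, ‖U n‖ ^ 2 := by
    have := sq_sum_le_card_mul_sum_sq (s := Ioc 0 N) (f := fun n => ‖U n‖)
    rw [Nat.card_Ioc, Nat.sub_zero] at this
    exact this
  have h5 : ∑ n ∈ Ioc 0 N, ‖U n‖ ^ 2 ≤ m * (4 * N + m * (e * N)) := by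
    have e1 : ((∑ n ∈ Ioc 0 N, ‖U n‖ ^ 2 : ℝ) : ℂ) =
        ∑ h ∈ H, ∑ h' ∈ H, θ h * conj (θ h') * ∑ n ∈ Ioc 0 N, u h n * conj (u h' n) := by
      push_cast
      have e2 : ∀ n ∈ Ioc 0 N, ((‖U n‖ : ℝ) : ℂ) ^ 2 =
          ∑ h ∈ H, ∑ h' ∈ H, θ h * conj (θ h') * (u h n * conj (u h' n)) := by
        intro n _
        have e3 : ((‖U n‖ : ℝ) : ℂ) ^ 2 = U n * conj (U n) := by
          rw [Complex.mul_conj, Complex.normSq_eq_norm_sq]
          push_cast
          ring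
        rw [e3, hU]
        simp only
        rw [map_sum, sum_mul_sum]
        refine sum_congr rfl fun h _ => sum_congr rfl fun h' _ => ?_
        rw [map_mul]
        ring
      rw [sum_congr rfl e2, sum_comm]
      apply sum_congr rfl
      intro h _
      rw [sum_comm]
      apply sum_congr rfl
      intro h' _
      rw [mul_sum]
    have e4 : ∑ n ∈ Ioc 0 N, ‖U n‖ ^ 2 = ‖((∑ n ∈ Ioc 0 N, ‖U n‖ ^ 2 : ℝ) : ℂ)‖ := by
      rw [Complex.norm_real, Real.norm_of_nonneg (sum_nonneg fun n _ => by positivity)]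
    rw [e4, e1]
    have e5 : ∀ h ∈ H, ‖∑ h' ∈ H, θ h * conj (θ h') * ∑ n ∈ Ioc 0 N, u h n * conj (u h' n)‖ ≤
        4 * N + m * (e * N) := by
      intro h hh
      refine (norm_sum_le _ _).trans ?_
      have e6 : ∀ h' ∈ H, ‖θ h * conj (θ h') * ∑ n ∈ Ioc 0 N, u h n * conj (u h' n)‖ ≤
          (if h' = h then 4 * (N : ℝ) else 0) + e * N := by
        intro h' hh'
        rw [norm_mul, norm_mul, RCLike.norm_conj]
        have e7 : ‖θ h‖ * ‖θ h'‖ ≤ 1 := mul_le_one₀ (hθ1 h) (norm_nonneg _) (hθ1 h')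
        refine (mul_le_of_le_one_left (norm_nonneg _) e7).trans ?_
        have heN : 0 ≤ e * N := by positivity
        split_ifs with h8
        · have e9 : ‖∑ n ∈ Ioc 0 N, u h n * conj (u h' n)‖ ≤ 4 * N := by
            refine (norm_sum_le _ _).trans ?_
            have e10 : ∀ n ∈ Ioc 0 N, ‖u h n * conj (u h' n)‖ ≤ 4 := by
              intro n _
              rw [norm_mul, RCLike.norm_conj]
              have := mul_le_mul (hu h n) (hu h' n) (norm_nonneg _) (by norm_num)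
              linarith
            refine (sum_le_sum e10).trans ?_
            rw [sum_const, Nat.card_Ioc, nsmul_eq_mul, Nat.sub_zero, mul_comm]
          linarith
        · rw [zero_add]
          exact hp h hh h' hh' (Ne.symm h8)
      refine (sum_le_sum e6).trans ?_
      rw [sum_add_distrib, sum_ite_eq' H h, if_pos hh, sum_const, nsmul_eq_mul]
    refine (norm_sum_le _ _).trans ((sum_le_sum e5).trans ?_)
    rw [sum_const, nsmul_eq_mul]
  -- conclusion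
  have h6 : (m * (ε * N)) ^ 2 < N * (m * (4 * N + m * (e * N))) := by
    calc (m * (ε * N)) ^ 2 < (∑ n ∈ Ioc 0 N, ‖U n‖) ^ 2 :=
          pow_lt_pow_left₀ (lt_of_lt_of_le h3 h2) (by positivity) two_ne_zero
      _ ≤ N * ∑ n ∈ Ioc 0 N, ‖U n‖ ^ 2 := h4
      _ ≤ _ := mul_le_mul_of_nonneg_left h5 hNr.le
  have h7 : (m * (ε * N)) ^ 2 = (m * N ^ 2) * (m * ε ^ 2) := by ring
  have h8 : N * (m * (4 * N + m * (e * N))) = (m * N ^ 2) * (4 + m * e) := by ring
  rw [h7, h8] at h6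
  have h9 : m * ε ^ 2 < 4 + m * e := lt_of_mul_lt_mul_left h6 (by positivity)
  have h10 : m * e ≤ m * (ε ^ 2 / 4) := mul_le_mul_of_nonneg_left hee hm0.le
  rw [le_div_iff₀ (by positivity)]
  linarith

end Pool.Agent.TH823.KB
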