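import Pool.Agent.TH823.KB.CI
import Pool.Agent.TH823.KB.Avg

/-! Independence over product sets -/

set_option autoImplicit false

namespace Pool.Agent.TH823.KB

open Finset
open Pool.Agent.TH823.OP (cn ind ind_bd near_inv cn_close)
open Pool.Agent.TH823.PS (NE)
open ArithmeticFunction (cardFactors)

/-- the number of the `n ≤ N` with `Ω (n + g) ∈ S` -/
noncomputable def p1 (N g : ℕ) (S : Set ℕ) : ℝ := pn N (fun _ : Fin 1 => g) (fun _ => S)

lemma p1_sum (N g : ℕ) (S : Set ℕ) : (p1 N g S : ℂ) = ∑ n ∈ Icc 1 N, ind S (cardFactors (n + g)) := by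
  unfold p1
  rw [pn_sum]
  simp

lemma p1_le (N g : ℕ) (S : Set ℕ) : p1 N g S ≤ N := by
  classical
  unfold p1 pn
  have := card_filter_le (Icc 1 N) fun n => ∀ _i : Fin 1, cardFactors (n + g) ∈ S
  rw [Nat.card_Icc, Nat.add_sub_cancel] at this
  refine le_trans (le_of_eq ?_) (Nat.cast_le.2 this)
  congr!

lemma p1_nonneg (N g : ℕ) (S : Set ℕ) : 0 ≤ p1 N g S := by
  unfold p1 pn
  exact Nat.cast_nonneg _

lemma p1_shift (N g : ℕ) (S : Set ℕ) : |p1 N g S - p1 N 0 S| ≤ g := by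
  induction g with
  | zero => simp
  | succ g ih =>
    have h1 : |p1 N (g + 1) S - p1 N g S| ≤ 1 := by
      rw [← Real.norm_eq_abs, ← Complex.norm_real, Complex.ofReal_sub, p1_sum, p1_sum, ← sum_sub_distrib]
      have h2 : ∑ n ∈ Icc 1 N, (ind S (cardFactors (n + (g + 1))) - ind S (cardFactors (n + g))) =
          ind S (cardFactors (N + 1 + g)) - ind S (cardFactors (0 + 1 + g)) := by
        have h3 : Icc 1 N = Ico (0 + 1) (N + 1) := by ext x; rw [mem_Icc, mem_Ico]; omega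
        rw [h3, ← sum_Ico_add' (fun n => ind S (cardFactors (n + (g + 1))) - ind S (cardFactors (n + g))) 0 N 1,
          ← range_eq_Ico, ← sum_range_sub (fun n => ind S (cardFactors (n + 1 + g)))]
        apply sum_congr rfl
        intro n _
        congr 3
        ring
      rw [h2]
      exact ind_sub_bd _ _ _
    have e1 : p1 N (g + 1) S - p1 N 0 S = (p1 N (g + 1) S - p1 N g S) + (p1 N g S - p1 N 0 S) := by ring
    rw [e1]
    refine (abs_add_le _ _).trans ((add_le_add h1 ih).trans (le_of_eq ?_))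
    push_cast
    ring

lemma indep_of_inv {k N M s A : ℕ} {C ε ε' δ1 : ℝ} (hN : 1 ≤ N) (hM : 1 ≤ M) (hs : 1 ≤ s) (hε' : 0 ≤ ε')
    (hMδ : 1 / (M : ℝ) ≤ δ1) (hsmall : 3 * (k + 1) * M * ε' ≤ ε / 2) (hε : 0 < ε)
    (hCI : ∀ h : Fin (k + 1) → ℕ, (∀ i, h i ≤ A * N) → Function.Injective h →
      (∀ i j, ∑ p ∈ ((h i : ℤ) - h j).natAbs.primeFactors, 1 / (p : ℝ) ≤ C) →
      ∀ G : Fin (k + 1) → ℕ → ℂ, (∀ i l, ‖G i l‖ ≤ 1) → (∀ i a b, ‖G i a - G i b‖ ≤ δ1 * |(a : ℝ) - b|) →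
      ‖(∑ n ∈ Ioc 0 N, ∏ i, G i (cardFactors (n + h i))) / N -
        ∏ i, ((∑ n ∈ Ioc 0 N, G i (cardFactors n)) / N)‖ ≤ ε / 3)
    (h1 : ∀ S, |p1 N 0 {l | l + s ∈ S} - p1 N 0 S| ≤ 2 * ε' * N)
    (h : Fin (k + 1) → ℕ) (hA : ∀ i, h i ≤ A * N) (hinj : Function.Injective h)
    (hσ : ∀ i j, ∑ p ∈ ((h i : ℤ) - h j).natAbs.primeFactors, 1 / (p : ℝ) ≤ C)
    (hinv : ∀ i S T, |cn N h i {l | l + s ∈ S} T - cn N h i S T| ≤ ε' * N) (S : Fin (k + 1) → Set ℕ) :
    |pn N h (fun i => {l | l / s ∈ S i}) / N - ∏ i, (p1 N 0 {l | l / s ∈ S i} / N)| ≤ ε := by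
  have hNr : (0 : ℝ) < N := by exact_mod_cast hN
  have hIcc : Ioc 0 N = Icc 1 N := by ext; simp; omega
  set F : Fin (k + 1) → Set ℕ := fun i => {l | l / s ∈ S i} with hF
  set G : Fin (k + 1) → ℕ → ℂ := fun i => Gf M s (F i) with hG
  have hGb : ∀ i l, ‖G i l‖ ≤ 1 := fun i l => Gf_bd hM _ _
  have hGL : ∀ i a b, ‖G i a - G i b‖ ≤ δ1 * |(a : ℝ) - b| := fun i a b =>
    (Gf_lip hM hs (S i) a b).trans (mul_le_mul_of_nonneg_right hMδ (abs_nonneg _))
  have E2 := hCI h hA hinj hσ G hGb hGL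
  rw [hIcc] at E2
  -- the joint average
  have E1 : ‖(∑ n ∈ Icc 1 N, ∏ i, G i (cardFactors (n + h i))) / N - (pn N h F : ℂ) / N‖ ≤
      (k + 1) * M * ε' := by
    have h2 := avg_close (N := N) (s := s) hM h (e := ε' * N) (by positivity) (fun i S => by
      have h3 := hinv i (S i) {v | ∀ j, v j ∈ S (i.succAbove j)}
      have e1 : pn N h (Function.update S i {l | l + s ∈ S i}) =
          cn N h i {l | l + s ∈ S i} {v | ∀ j, v j ∈ S (i.succAbove j)} := by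
        rw [pn_cn N h _ i, Function.update_self]
        congr 1
        ext v
        change (∀ j, v j ∈ Function.update S i {l | l + s ∈ S i} (i.succAbove j)) ↔ ∀ j, v j ∈ S (i.succAbove j)
        simp only [Function.update_of_ne (Fin.succAbove_ne i _)]
      rw [e1, pn_cn N h S i]
      exact h3) F
    rw [← sub_div, norm_div, Complex.norm_natCast, div_le_iff₀ hNr]
    refine h2.trans (le_of_eq ?_)
    push_cast
    ring
  -- one coordinate
  have E3 : ∀ i, ‖(∑ n ∈ Icc 1 N, G i (cardFactors n)) / N - ((p1 N 0 (F i) / N : ℝ) : ℂ)‖ ≤ 2 * M * ε' := by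
    intro i
    have h2 := avg_close (N := N) (s := s) hM (fun _ : Fin 1 => 0) (e := 2 * ε' * N) (by positivity) (fun i S => by
      have e1 : Function.update S i {l | l + s ∈ S i} = fun _ => {l | l + s ∈ S 0} := by
        funext j
        rw [Subsingleton.elim j i, Function.update_self, Subsingleton.elim i 0]
      have e2 : S = fun _ => S 0 := by
        funext j
        rw [Subsingleton.elim j 0]
      rw [e1, e2]
      exact h1 (S 0)) (fun _ => F i)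
    have e3 : ∀ n : ℕ, ∏ _j : Fin 1, Gf M s (F i) (cardFactors (n + 0)) = G i (cardFactors n) := by
      intro n
      simp [hG]
    simp only [e3] at h2
    push_cast
    rw [← sub_div, norm_div, Complex.norm_natCast, div_le_iff₀ hNr]
    refine h2.trans (le_of_eq ?_)
    push_cast
    ring
  have E4 : ‖∏ i, ((∑ n ∈ Icc 1 N, G i (cardFactors n)) / (N : ℂ)) - ∏ i, ((p1 N 0 (F i) / N : ℝ) : ℂ)‖ ≤
      (k + 1) * (2 * M * ε') := by
    refine (prod_close univ _ _ (fun i _ => ?_) (fun i _ => ?_)).trans ?_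
    · rw [norm_div, Complex.norm_natCast, div_le_one hNr]
      refine (norm_sum_le _ _).trans ((sum_le_sum fun n _ => hGb i _).trans ?_)
      rw [sum_const, Nat.card_Icc, nsmul_eq_mul, mul_one]
      simp
    · rw [Complex.norm_real, Real.norm_of_nonneg (div_nonneg (p1_nonneg _ _ _) hNr.le), div_le_one hNr]
      exact p1_le _ _ _
    · refine (sum_le_sum fun i _ => E3 i).trans ?_
      rw [sum_const, card_univ, Fintype.card_fin, nsmul_eq_mul]
      push_cast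
      exact le_rfl
  rw [← Real.norm_eq_abs, ← Complex.norm_real]
  push_cast
  have hfin : ∀ a b c d : ℂ, ‖b - a‖ ≤ (k + 1) * M * ε' → ‖b - c‖ ≤ ε / 3 → ‖c - d‖ ≤ (k + 1) * (2 * M * ε') →
      ‖a - d‖ ≤ ε := by
    intro a b c d e1 e2 e3
    have e4 : a - d = -(b - a) + (b - c) + (c - d) := by ring
    rw [e4]
    refine (norm_add_le _ _).trans ?_
    have e5 := norm_add_le (-(b - a)) (b - c)
    rw [norm_neg] at e5
    linarith
  apply hfin _ _ _ _ E1 E2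
  convert E4 using 4
  push_cast
  rfl

lemma small_power (δ : ℝ) (hδ : 0 < δ) (ε : ℝ) (hε : 0 < ε) : ∃ N₀ : ℕ, ∀ N : ℕ, N₀ ≤ N →
    2 * ((N : ℝ) ^ (1 - δ) + 1) ≤ ε * N := by
  have h1 : Filter.Tendsto (fun N : ℕ => (N : ℝ) ^ (-δ)) Filter.atTop (nhds 0) :=
    (tendsto_rpow_neg_atTop hδ).comp tendsto_natCast_atTop_atTop
  have h2 := h1.eventually (gt_mem_nhds (by positivity : (0 : ℝ) < ε / 4))
  obtain ⟨N1, hN1⟩ := Filter.eventually_atTop.1 h2
  obtain ⟨N2, hN2⟩ := exists_nat_ge (4 / ε)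
  refine ⟨N1 + N2 + 1, fun N hN => ?_⟩
  have h3 := hN1 N (by omega)
  have hN0 : (0 : ℝ) < N := by exact_mod_cast (by omega : 0 < N)
  have h4 : (N : ℝ) ^ (1 - δ) = N * (N : ℝ) ^ (-δ) := by
    rw [sub_eq_add_neg, Real.rpow_add hN0, Real.rpow_one]
  have h5 : 4 / ε ≤ N := hN2.trans (by exact_mod_cast (by omega : N2 ≤ N))
  rw [div_le_iff₀ hε] at h5
  rw [h4]
  have h6 := mul_lt_mul_of_pos_left h3 hN0
  linarith

open Classical in
/-- **independence over product sets** -/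
theorem prod_indep (E01 A k : ℕ) {C ε : ℝ} (hC : 0 ≤ C) (hε : 0 < ε) : ∃ E D : ℕ, E01 < E ∧ 6 * E + 2 ≤ D ∧
    ∃ δ : ℝ, 0 < δ ∧ δ ≤ 1 / 2 ∧ ∃ N₀ : ℕ, ∀ N : ℕ, N₀ ≤ N → ∀ x : Fin (k + 1) → ℕ,
    (∀ i, x i ≤ A * N ∧ (N : ℝ) ^ (1 - δ) ≤ x i) →
    ∀ s : ℕ, s = 1 ∧ NE 6 E ⌊(N : ℝ) ^ (1 / (2 * D : ℝ))⌋₊ ∨ s = 2 →
    (((Fintype.piFinset fun i => Icc 1 (x i)).filter fun h =>
      ¬ ((∀ i S T X, X ≤ N → |cn X h i {l | l + s ∈ S} T - cn X h i S T| ≤ ε * N) ∧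
        (Function.Injective h → (∀ i j, ∑ p ∈ ((h i : ℤ) - h j).natAbs.primeFactors, 1 / (p : ℝ) ≤ C) →
          ∀ S : Fin (k + 1) → Set ℕ,
            |pn N h (fun i => {l | l / s ∈ S i}) / N - ∏ i, (p1 N 0 {l | l / s ∈ S i} / N)| ≤ ε))).card : ℝ) ≤
      (∏ i, (x i : ℝ)) * (N : ℝ) ^ (-δ) := by
  obtain ⟨δ1, hδ1, N1, hCI⟩ := CI A (k + 1) (by omega) hC (by positivity : 0 < ε / 3)
  obtain ⟨M, hM⟩ := exists_nat_ge (1 / δ1)
  have hM0 : (0 : ℝ) < M := lt_of_lt_of_le (by positivity) hM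
  have hM1 : 1 ≤ M := by exact_mod_cast (Nat.pos_of_ne_zero (by rintro rfl; simp at hM0) : 0 < M)
  have hMδ : 1 / (M : ℝ) ≤ δ1 := by
    rw [div_le_iff₀ hδ1] at hM
    rw [div_le_iff₀ hM0]
    linarith
  set ε' : ℝ := ε / (6 * (k + 1) * M) with hε'
  have hden : (1 : ℝ) ≤ 6 * (k + 1) * M := by
    have e1 : (1 : ℝ) ≤ M := by exact_mod_cast hM1
    have e2 : (1 : ℝ) ≤ 6 * ((k : ℝ) + 1) := by
      have : (0 : ℝ) ≤ k := Nat.cast_nonneg k
      linarith
    exact one_le_mul_of_one_le_of_one_le e2 e1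
  have hε'0 : 0 < ε' := by positivity
  have hε'ε : ε' ≤ ε := div_le_self hε.le hden
  have hsmall : 3 * ((k : ℝ) + 1) * M * ε' ≤ ε / 2 := by
    rw [hε']
    apply le_of_eq
    field_simp
    norm_num
  obtain ⟨E, D, hE, hD, δ0, hδ0, N2, hN2⟩ := near_inv E01 (A + 1) k hε'0
  obtain ⟨N3, hN3⟩ := small_power δ0 hδ0 ε' hε'0
  have hδmin : min δ0 (1 / 2) ≤ δ0 := min_le_left _ _
  refine ⟨E, D, hE, hD, min δ0 (1 / 2), by positivity, min_le_right _ _, N1 + N2 + N3 + 2,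
    fun N hN x hx s hs => ?_⟩
  have hs1 : 1 ≤ s := by rcases hs with ⟨rfl, _⟩ | rfl <;> omega
  have hNr : (1 : ℝ) < N := by exact_mod_cast (by omega : 1 < N)
  have hN0 : (0 : ℝ) < N := by linarith
  -- one coordinate
  set x' : ℕ := ⌈(N : ℝ) ^ (1 - δ0)⌉₊ with hx'
  have hx'1 : (N : ℝ) ^ (1 - δ0) ≤ x' := Nat.le_ceil _
  have hx'2 : (x' : ℝ) < (N : ℝ) ^ (1 - δ0) + 1 := Nat.ceil_lt_add_one (by positivity)
  have hx'0 : 0 < x' := Nat.ceil_pos.2 (by positivity)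
  have hx'N : x' ≤ N := by
    rw [hx', Nat.ceil_le]
    calc (N : ℝ) ^ (1 - δ0) ≤ (N : ℝ) ^ (1 : ℝ) := Real.rpow_le_rpow_of_exponent_le hNr.le (by linarith)
      _ = N := Real.rpow_one _
  have hex := hN2 N (by omega) (fun _ => x') (fun _ => ⟨hx'N.trans (Nat.le_mul_of_pos_left N (by omega)), hx'1⟩) s hs
  obtain ⟨h', hh'box, hh'inv⟩ : ∃ h' ∈ Fintype.piFinset (fun _ : Fin (k + 1) => Icc 1 x'),
      ∀ i S T X, X ≤ N → |cn X h' i {l | l + s ∈ S} T - cn X h' i S T| ≤ ε' * N := by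
    by_contra hcon
    have hall : ∀ h ∈ Fintype.piFinset (fun _ : Fin (k + 1) => Icc 1 x'),
        ¬ ∀ i S T X, X ≤ N → |cn X h i {l | l + s ∈ S} T - cn X h i S T| ≤ ε' * N :=
      fun h hh hinv => hcon ⟨h, hh, hinv⟩
    rw [filter_true_of_mem hall, Fintype.card_piFinset] at hex
    simp only [Nat.card_Icc, Nat.add_sub_cancel] at hex
    push_cast at hex
    have e1 : (0 : ℝ) < ∏ _i : Fin (k + 1), (x' : ℝ) := prod_pos fun _ _ => by exact_mod_cast hx'0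
    have e2 : (N : ℝ) ^ (-δ0) < 1 := Real.rpow_lt_one_of_one_lt_of_neg hNr (by linarith)
    have e3 := mul_lt_mul_of_pos_left e2 e1
    linarith
  have h1 : ∀ S, |p1 N 0 {l | l + s ∈ S} - p1 N 0 S| ≤ 2 * ε' * N := by
    intro S
    have e1 := hh'inv 0 S Set.univ N le_rfl
    have e2 : ∀ S : Set ℕ, cn N h' 0 S Set.univ = p1 N (h' 0) S := by
      intro S
      unfold p1 pn cn
      congr! 3
      simp
    rw [e2, e2] at e1
    have e3 := p1_shift N (h' 0) {l | l + s ∈ S}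
    have e4 := p1_shift N (h' 0) S
    have e5 : ((h' 0 : ℕ) : ℝ) ≤ x' := by
      rw [Fintype.mem_piFinset] at hh'box
      exact_mod_cast (mem_Icc.1 (hh'box 0)).2
    have e6 := hN3 N (by omega)
    rw [abs_le] at *
    constructor <;> linarith [e1.1, e1.2, e3.1, e3.2, e4.1, e4.2]
  -- the exceptional set
  have hx2 : ∀ i, x i ≤ (A + 1) * N ∧ (N : ℝ) ^ (1 - δ0) ≤ x i := fun i =>
    ⟨(hx i).1.trans (Nat.mul_le_mul_right N (by omega)),
      (Real.rpow_le_rpow_of_exponent_le hNr.le (by linarith)).trans (hx i).2⟩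
  refine le_trans ?_ ((hN2 N (by omega) x hx2 s hs).trans ?_)
  · apply Nat.cast_le.2
    apply card_le_card
    intro h hh
    rw [mem_filter] at hh ⊢
    refine ⟨hh.1, fun hinv => hh.2 ⟨fun i S T X hX => ?_, fun hinj hσ S => ?_⟩⟩
    · exact (hinv i S T X hX).trans (mul_le_mul_of_nonneg_right hε'ε hN0.le)
    · refine indep_of_inv (by omega) hM1 hs1 hε'0.le hMδ hsmall hε (hCI N (by omega)) h1 h (fun i => ?_) hinj hσ
        (fun i S T => hinv i S T N le_rfl) S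
      have := (Fintype.mem_piFinset.1 hh.1) i
      exact (mem_Icc.1 this).2.trans (hx i).1
  · apply mul_le_mul_of_nonneg_left _ (prod_nonneg fun i _ => Nat.cast_nonneg _)
    exact Real.rpow_le_rpow_of_exponent_le hNr.le (by linarith)

end Pool.Agent.TH823.KB
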