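import Pool.Agent.TH823.KB.Dual
import Pool.Agent.TH823.KB.Prod

/-! Independence of one coordinate of arbitrary events of the others -/

set_option autoImplicit false

namespace Pool.Agent.TH823.KB

open Finset
open Pool.Agent.TH823.OP (cn ind ind_bd near_inv cn_close cn_sum big_count om_count J_exists card_close)
open Pool.Agent.TH823.PS (NE)
open ArithmeticFunction (cardFactors)
open scoped ComplexConjugate

/-- the vector of the other coordinates -/
def oth {k : ℕ} (h : Fin (k + 1) → ℕ) (i : Fin (k + 1)) (n : ℕ) : Fin k → ℕ :=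
  fun j => cardFactors (n + h (i.succAbove j))

lemma cn_shift {k N s : ℕ} (h : Fin (k + 1) → ℕ) (i : Fin (k + 1)) {e : ℝ}
    (hinv : ∀ S T, |cn N h i {l | l + s ∈ S} T - cn N h i S T| ≤ e) (S : Set ℕ) (T : Set (Fin k → ℕ)) (m : ℕ) :
    |cn N h i {l | l + s * m ∈ S} T - cn N h i S T| ≤ m * e := by
  induction m with
  | zero => simp
  | succ m ih =>
    have h1 := hinv {l | l + s * m ∈ S} T
    have h2 : {l | l + s ∈ {l | l + s * m ∈ S}} = {l | l + s * (m + 1) ∈ S} := by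
      ext l
      change l + s + s * m ∈ S ↔ l + s * (m + 1) ∈ S
      have : l + s + s * m = l + s * (m + 1) := by ring
      rw [this]
    rw [h2] at h1
    push_cast
    rw [abs_le] at *
    constructor <;> linarith [h1.1, h1.2, ih.1, ih.2]

lemma cn_le {k N : ℕ} (h : Fin (k + 1) → ℕ) (i : Fin (k + 1)) (S : Set ℕ) (T : Set (Fin k → ℕ)) :
    0 ≤ cn N h i S T ∧ cn N h i S T ≤ N := by
  classical
  unfold cn
  refine ⟨Nat.cast_nonneg _, ?_⟩
  refine le_trans (Nat.cast_le.2 (card_filter_le _ _)) ?_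
  rw [Nat.card_Icc, Nat.add_sub_cancel]

lemma Icc_Ioc (N : ℕ) : Icc 1 N = Ioc 0 N := by
  ext n
  rw [mem_Icc, mem_Ioc]
  omega

lemma cn_oth {k N : ℕ} (h : Fin (k + 1) → ℕ) (i : Fin (k + 1)) (S : Set ℕ) (T : Set (Fin k → ℕ)) :
    (cn N h i S T : ℂ) = ∑ n ∈ Ioc 0 N, ind T (oth h i n) * ind S (cardFactors (n + h i)) := by
  rw [cn_sum, Icc_Ioc]
  rfl

lemma indep_full {k N M s : ℕ} {ε' e2 : ℝ} (hN : 1 ≤ N) (hM : 1 ≤ M) (hε' : 0 ≤ ε')
    (h : Fin (k + 1) → ℕ) (i : Fin (k + 1))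
    (hinv : ∀ S T, |cn N h i {l | l + s ∈ S} T - cn N h i S T| ≤ ε' * N)
    (h1 : ∀ S, |p1 N 0 {l | l + s ∈ S} - p1 N 0 S| ≤ 2 * ε' * N) (F : Set ℕ) (T : Set (Fin k → ℕ))
    (hdec : ‖∑ n ∈ Ioc 0 N, ind T (oth h i n) * (Gf M s F (cardFactors (n + h i)) - gam N (Gf M s F))‖ ≤ e2 * N) :
    |cn N h i F T / N - (p1 N 0 F / N) * (cn N h i Set.univ T / N)| ≤ 3 * M * ε' + e2 := by
  have hNr : (0 : ℝ) < N := by exact_mod_cast hN
  have hMr : (0 : ℝ) < M := by exact_mod_cast hM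
  have hMc : (M : ℂ) ≠ 0 := by exact_mod_cast hMr.ne'
  set a := cn N h i F T with ha
  set t := cn N h i Set.univ T with ht
  set γ := gam N (Gf M s F) with hγ
  have ht1 := cn_le (N := N) h i Set.univ T
  have htc : (t : ℂ) = ∑ n ∈ Ioc 0 N, ind T (oth h i n) := by
    rw [ht, cn_oth]
    apply sum_congr rfl
    intro n _
    have : ind (Set.univ : Set ℕ) (cardFactors (n + h i)) = 1 := by
      unfold ind
      rw [if_pos (Set.mem_univ _)]
    rw [this, mul_one]
  -- step A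
  have hA : ‖∑ n ∈ Ioc 0 N, ind T (oth h i n) * Gf M s F (cardFactors (n + h i)) - (a : ℂ)‖ ≤ M * ε' * N := by
    have e1 : ∑ n ∈ Ioc 0 N, ind T (oth h i n) * Gf M s F (cardFactors (n + h i)) =
        (∑ m ∈ range M, (cn N h i {l | l + s * m ∈ F} T : ℂ)) / M := by
      rw [eq_div_iff hMc, sum_mul]
      simp only [cn_oth]
      rw [sum_comm]
      apply sum_congr rfl
      intro n _
      unfold Gf
      rw [mul_assoc, div_mul_cancel₀ _ hMc, mul_sum]
      rfl
    have e2 : (a : ℂ) = (∑ m ∈ range M, (a : ℂ)) / M := by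
      rw [sum_const, card_range, nsmul_eq_mul]
      field_simp
    rw [e1, e2, ← sub_div, ← sum_sub_distrib, norm_div, Complex.norm_natCast, div_le_iff₀ hMr]
    have e3 : ∀ m ∈ range M, ‖(cn N h i {l | l + s * m ∈ F} T : ℂ) - (a : ℂ)‖ ≤ M * ε' * N := by
      intro m hm
      rw [← Complex.ofReal_sub, Complex.norm_real, Real.norm_eq_abs]
      refine (cn_shift h i hinv F T m).trans ?_
      rw [mul_assoc]
      apply mul_le_mul_of_nonneg_right _ (by positivity)
      exact_mod_cast (mem_range.1 hm).le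
    refine (norm_sum_le _ _).trans ((sum_le_sum e3).trans (le_of_eq ?_))
    rw [sum_const, card_range, nsmul_eq_mul]
    ring
  -- step C
  have hC : ‖γ - ((p1 N 0 F / N : ℝ) : ℂ)‖ ≤ 2 * M * ε' := by
    have h2 := avg_close (N := N) (s := s) hM (fun _ : Fin 1 => 0) (e := 2 * ε' * N) (by positivity) (fun i S => by
      have e1 : Function.update S i {l | l + s ∈ S i} = fun _ => {l | l + s ∈ S 0} := by
        funext j
        rw [Subsingleton.elim j i, Function.update_self, Subsingleton.elim i 0]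
      have e2 : S = fun _ => S 0 := by
        funext j
        rw [Subsingleton.elim j 0]
      rw [e1, e2]
      exact h1 (S 0)) (fun _ => F)
    have e3 : ∀ n : ℕ, ∏ _j : Fin 1, Gf M s F (cardFactors (n + 0)) = Gf M s F (cardFactors n) := by
      intro n
      simp
    simp only [e3] at h2
    rw [hγ]
    unfold gam
    push_cast
    rw [← sub_div, norm_div, Complex.norm_natCast, div_le_iff₀ hNr, ← Icc_Ioc]
    refine h2.trans (le_of_eq ?_)
    push_cast
    ring
  -- step B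
  have hB : ‖∑ n ∈ Ioc 0 N, ind T (oth h i n) * Gf M s F (cardFactors (n + h i)) - γ * (t : ℂ)‖ ≤ e2 * N := by
    refine le_trans (le_of_eq ?_) hdec
    rw [htc, mul_sum, ← sum_sub_distrib]
    congr 1
    apply sum_congr rfl
    intro n _
    ring
  have hD : ‖γ * (t : ℂ) - ((p1 N 0 F / N : ℝ) : ℂ) * (t : ℂ)‖ ≤ 2 * M * ε' * N := by
    rw [← sub_mul, norm_mul, Complex.norm_real, Real.norm_of_nonneg ht1.1]
    exact mul_le_mul hC ht1.2 ht1.1 (by positivity)
  have hfin : ‖(a : ℂ) - ((p1 N 0 F / N : ℝ) : ℂ) * (t : ℂ)‖ ≤ (3 * M * ε' + e2) * N := by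
    set X1 := ∑ n ∈ Ioc 0 N, ind T (oth h i n) * Gf M s F (cardFactors (n + h i))
    have e1 : (a : ℂ) - ((p1 N 0 F / N : ℝ) : ℂ) * (t : ℂ) =
        -(X1 - (a : ℂ)) + (X1 - γ * (t : ℂ)) + (γ * (t : ℂ) - ((p1 N 0 F / N : ℝ) : ℂ) * (t : ℂ)) := by ring
    rw [e1]
    refine (norm_add_le _ _).trans ?_
    have e2 := norm_add_le (-(X1 - (a : ℂ))) (X1 - γ * (t : ℂ))
    rw [norm_neg] at e2
    linarith
  have h9 : cn N h i F T / N - (p1 N 0 F / N) * (cn N h i Set.univ T / N) = (a - (p1 N 0 F / N) * t) / N := by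
    rw [ha, ht]
    ring
  rw [h9, abs_div, Nat.abs_cast, div_le_iff₀ hNr, ← Real.norm_eq_abs, ← Complex.norm_real]
  push_cast at hfin ⊢
  exact hfin

/-- reduction to finite families of sets -/
lemma dec_all {k N M s J : ℕ} {e2 e3 : ℝ} (hN : 1 ≤ N) (hM : 1 ≤ M) (hs2 : s ≤ 2)
    (h : Fin (k + 1) → ℕ) (i : Fin (k + 1))
    (hbig : (((Icc 1 N).filter fun n => ∃ j, J < cardFactors (n + h j)).card : ℝ) ≤ e3 * N)
    (hbig1 : (((Icc 1 N).filter fun n => J < cardFactors n).card : ℝ) ≤ e3 * N)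
    (hfin : ∀ S0 ∈ (range (J + 2 * M + 1)).powerset, ∀ T0 ∈ (Fintype.piFinset fun _ : Fin k => range (J + 1)).powerset,
      ‖∑ n ∈ Ioc 0 N, ind (T0 : Set (Fin k → ℕ)) (oth h i n) * (Gf M s {l | l / s ∈ (S0 : Set ℕ)} (cardFactors (n + h i)) -
        gam N (Gf M s {l | l / s ∈ (S0 : Set ℕ)}))‖ ≤ e2 * N) (S : Set ℕ) (T : Set (Fin k → ℕ)) :
    ‖∑ n ∈ Ioc 0 N, ind T (oth h i n) * (Gf M s {l | l / s ∈ S} (cardFactors (n + h i)) -
        gam N (Gf M s {l | l / s ∈ S}))‖ ≤ (e2 + 6 * e3) * N := by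
  classical
  have hNr : (0 : ℝ) < N := by exact_mod_cast hN
  set S0 : Finset ℕ := (range (J + 2 * M + 1)).filter (· ∈ S) with hS0
  set T0 : Finset (Fin k → ℕ) := (Fintype.piFinset fun _ : Fin k => range (J + 1)).filter (· ∈ T) with hT0
  have h1 := hfin S0 (mem_powerset.2 (filter_subset _ _)) T0 (mem_powerset.2 (filter_subset _ _))
  set G : ℕ → ℂ := Gf M s {l | l / s ∈ S} with hG
  set G0 : ℕ → ℂ := Gf M s {l | l / s ∈ (S0 : Set ℕ)} with hG0
  have hGb : ∀ l, ‖G l‖ ≤ 1 := fun l => Gf_bd hM _ _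
  have hG0b : ∀ l, ‖G0 l‖ ≤ 1 := fun l => Gf_bd hM _ _
  have hGG : ∀ l, l ≤ J → G l = G0 l := by
    intro l hl
    rw [hG, hG0]
    unfold Gf
    congr 1
    apply sum_congr rfl
    intro m hm
    rw [mem_range] at hm
    have hlt : (l + s * m) / s < J + 2 * M + 1 := by
      have h2 : (l + s * m) / s ≤ l + s * m := Nat.div_le_self _ _
      have h3 : s * m ≤ 2 * m := Nat.mul_le_mul_right m hs2
      omega
    have h4 : (l + s * m ∈ {l | l / s ∈ S}) ↔ (l + s * m ∈ {l | l / s ∈ (S0 : Set ℕ)}) := by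
      change (l + s * m) / s ∈ S ↔ (l + s * m) / s ∈ (S0 : Set ℕ)
      rw [mem_coe, hS0, mem_filter, mem_range]
      exact ⟨fun h => ⟨hlt, h⟩, fun h => h.2⟩
    unfold ind
    by_cases h5 : l + s * m ∈ {l | l / s ∈ S}
    · rw [if_pos h5, if_pos (h4.1 h5)]
    · rw [if_neg h5, if_neg (fun h6 => h5 (h4.2 h6))]
  have hTT : ∀ n, (¬ ∃ j, J < cardFactors (n + h j)) → ind T (oth h i n) = ind (T0 : Set (Fin k → ℕ)) (oth h i n) := by
    intro n hn
    push Not at hn
    have h4 : oth h i n ∈ T ↔ oth h i n ∈ (T0 : Set (Fin k → ℕ)) := by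
      rw [mem_coe, hT0, mem_filter, Fintype.mem_piFinset]
      constructor
      · intro h5
        refine ⟨fun j => ?_, h5⟩
        rw [mem_range]
        have := hn (i.succAbove j)
        unfold oth
        omega
      · exact fun h => h.2
    unfold ind
    by_cases h5 : oth h i n ∈ T
    · rw [if_pos h5, if_pos (h4.1 h5)]
    · rw [if_neg h5, if_neg (fun h6 => h5 (h4.2 h6))]
  have hγ : ‖gam N G - gam N G0‖ ≤ 2 * e3 := by
    unfold gam
    rw [← sub_div, norm_div, Complex.norm_natCast, div_le_iff₀ hNr, ← sum_sub_distrib]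
    refine (norm_sum_le _ _).trans ?_
    have h2 : ∀ n ∈ Ioc 0 N, ‖G (cardFactors n) - G0 (cardFactors n)‖ ≤ if J < cardFactors n then (2 : ℝ) else 0 := by
      intro n _
      split_ifs with h3
      · refine (norm_sub_le _ _).trans ((add_le_add (hGb _) (hG0b _)).trans (by norm_num))
      · rw [hGG _ (by omega), sub_self, norm_zero]
    refine (sum_le_sum h2).trans ?_
    rw [← sum_filter, sum_const, nsmul_eq_mul, ← Icc_Ioc]
    linarith
  have h2 : ∀ n ∈ Ioc 0 N, ‖ind T (oth h i n) * (G (cardFactors (n + h i)) - gam N G) -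
      ind (T0 : Set (Fin k → ℕ)) (oth h i n) * (G0 (cardFactors (n + h i)) - gam N G0)‖ ≤
      (if ∃ j, J < cardFactors (n + h j) then (4 : ℝ) else 0) + 2 * e3 := by
    intro n _
    have he3 : 0 ≤ e3 := by
      have := (Nat.cast_nonneg _).trans hbig1
      exact nonneg_of_mul_nonneg_left this hNr
    have hbd : ∀ (T : Set (Fin k → ℕ)) (G : ℕ → ℂ), (∀ l, ‖G l‖ ≤ 1) →
        ‖ind T (oth h i n) * (G (cardFactors (n + h i)) - gam N G)‖ ≤ 2 := by
      intro T G hG
      rw [norm_mul]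
      have h3 : ‖G (cardFactors (n + h i)) - gam N G‖ ≤ 1 + 1 :=
        (norm_sub_le _ _).trans (add_le_add (hG _) (gam_bd hN hG))
      have h4 := mul_le_mul (ind_bd T (oth h i n)) h3 (norm_nonneg _) zero_le_one
      linarith
    split_ifs with h3
    · have h4 := hbd T G hGb
      have h5 := hbd (T0 : Set (Fin k → ℕ)) G0 hG0b
      refine (norm_sub_le _ _).trans ?_
      linarith
    · have h4 : cardFactors (n + h i) ≤ J := by
        push Not at h3
        exact h3 i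
      rw [hTT n h3, hGG _ h4, ← mul_sub, norm_mul, zero_add]
      have e1 : G0 (cardFactors (n + h i)) - gam N G - (G0 (cardFactors (n + h i)) - gam N G0) =
          -(gam N G - gam N G0) := by ring
      rw [e1, norm_neg]
      exact (mul_le_of_le_one_left (norm_nonneg _) (ind_bd _ _)).trans hγ
  have h3 : ‖∑ n ∈ Ioc 0 N, ind T (oth h i n) * (G (cardFactors (n + h i)) - gam N G) -
      ∑ n ∈ Ioc 0 N, ind (T0 : Set (Fin k → ℕ)) (oth h i n) * (G0 (cardFactors (n + h i)) - gam N G0)‖ ≤ 6 * e3 * N := by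
    rw [← sum_sub_distrib]
    refine (norm_sum_le _ _).trans ((sum_le_sum h2).trans ?_)
    rw [sum_add_distrib, ← sum_filter, sum_const, sum_const, nsmul_eq_mul, nsmul_eq_mul, Nat.card_Ioc, ← Icc_Ioc]
    simp only [Nat.sub_zero]
    linarith
  have h4 := norm_add_le (∑ n ∈ Ioc 0 N, ind T (oth h i n) * (G (cardFactors (n + h i)) - gam N G) -
      ∑ n ∈ Ioc 0 N, ind (T0 : Set (Fin k → ℕ)) (oth h i n) * (G0 (cardFactors (n + h i)) - gam N G0))
      (∑ n ∈ Ioc 0 N, ind (T0 : Set (Fin k → ℕ)) (oth h i n) * (G0 (cardFactors (n + h i)) - gam N G0))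
  rw [sub_add_cancel] at h4
  linarith

end Pool.Agent.TH823.KB
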