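import Pool.Agent.TH823.KB.Full

/-! Independence of one coordinate of arbitrary events of the others, for almost all tuples -/

set_option autoImplicit false

namespace Pool.Agent.TH823.KB

open Finset
open Pool.Agent.TH823.OP (cn ind ind_bd near_inv cn_close cn_sum big_count om_count J_exists card_close)
open Pool.Agent.TH823.PS (NE)
open ArithmeticFunction (cardFactors)
open scoped ComplexConjugate

/-- the failure for one pair of sets -/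
def bad2 {k : ℕ} (N M s : ℕ) (e2 : ℝ) (i : Fin (k + 1)) (S0 : Set ℕ) (T0 : Set (Fin k → ℕ)) (h : Fin (k + 1) → ℕ) :
    Prop :=
  e2 * N < ‖∑ n ∈ Ioc 0 N, ind T0 (oth h i n) * (Gf M s {l | l / s ∈ S0} (cardFactors (n + h i)) -
    gam N (Gf M s {l | l / s ∈ S0}))‖

lemma bad_count {A k N M s : ℕ} {e2 δ1 : ℝ} (hN : 1 ≤ N) (hM : 1 ≤ M) (hs : 1 ≤ s) (he2 : 0 < e2)
    (hMδ : 1 / (M : ℝ) ≤ δ1)
    (hpair : ∀ G : ℕ → ℂ, (∀ l, ‖G l‖ ≤ 1) → (∀ a b, ‖G a - G b‖ ≤ δ1 * |(a : ℝ) - b|) → ∀ h h' : ℕ, h ≤ A * N →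
      h' ≤ A * N → h ≠ h' → ‖∑ n ∈ Ioc 0 N, (G (cardFactors (n + h)) - gam N G) *
        conj (G (cardFactors (n + h')) - gam N G)‖ ≤ 3 * (e2 ^ 2 / 12) * N)
    (x : Fin (k + 1) → ℕ) (hx : ∀ i, x i ≤ A * N) (hxr : ∀ i, (N : ℝ) ^ (1 / 2 : ℝ) ≤ x i)
    (i : Fin (k + 1)) (S0 : Set ℕ) (T0 : Set (Fin k → ℕ)) [DecidablePred (bad2 N M s e2 i S0 T0)] :
    (((Fintype.piFinset fun i => Icc 1 (x i)).filter (bad2 N M s e2 i S0 T0)).card : ℝ) ≤
      (∏ i, (x i : ℝ)) * (6 / e2 ^ 2 * (N : ℝ) ^ (-(1 / 2) : ℝ)) := by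
  have hNr : (0 : ℝ) < N := by exact_mod_cast hN
  have h1 := Pool.Agent.TH823.PS.tuple_count' i (fun i => Icc 1 (x i)) (bad2 N M s e2 i S0 T0)
    (T := 6 / e2 ^ 2 * (N : ℝ) ^ (-(1 / 2) : ℝ)) (by
    intro b _
    set G : ℕ → ℂ := Gf M s {l | l / s ∈ S0} with hG
    have hGb : ∀ l, ‖G l‖ ≤ 1 := fun l => Gf_bd hM _ _
    have hGL : ∀ a b, ‖G a - G b‖ ≤ δ1 * |(a : ℝ) - b| := fun a b =>
      (Gf_lip hM hs S0 a b).trans (mul_le_mul_of_nonneg_right hMδ (abs_nonneg _))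
    have h2 := dual_count (ε := e2) (e := 3 * (e2 ^ 2 / 12)) hN he2 (by positivity) (by linarith)
      (fun n => ind T0 (fun j => cardFactors (n + b j))) (fun n => ind_bd _ _)
      (fun m n => G (cardFactors (n + m)) - gam N G) (fun m n =>
        (norm_sub_le _ _).trans ((add_le_add (hGb _) (gam_bd hN hGb)).trans (by norm_num)))
      ((Icc 1 (x i)).filter (fun m => bad2 N M s e2 i S0 T0 (i.insertNth m b))) (by
        intro h hh h' hh' hne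
        rw [mem_filter, mem_Icc] at hh hh'
        exact hpair G hGb hGL h h' (hh.1.2.trans (hx i)) (hh'.1.2.trans (hx i)) hne) (by
        intro m hm
        rw [mem_filter] at hm
        have h3 := hm.2
        unfold bad2 oth at h3
        simp only [Fin.insertNth_apply_same, Fin.insertNth_apply_succAbove] at h3
        exact h3)
    refine h2.trans ?_
    rw [Nat.card_Icc, Nat.add_sub_cancel]
    have h4 : 1 ≤ (x i : ℝ) * (N : ℝ) ^ (-(1 / 2) : ℝ) := by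
      have h5 := mul_le_mul_of_nonneg_right (hxr i) (by positivity : 0 ≤ (N : ℝ) ^ (-(1 / 2) : ℝ))
      rw [← Real.rpow_add hNr] at h5
      norm_num at h5 ⊢
      exact h5
    calc 6 / e2 ^ 2 = 6 / e2 ^ 2 * 1 := (mul_one _).symm
      _ ≤ 6 / e2 ^ 2 * ((x i : ℝ) * (N : ℝ) ^ (-(1 / 2) : ℝ)) := mul_le_mul_of_nonneg_left h4 (by positivity)
      _ = _ := by ring)
  simpa only [Nat.card_Icc, Nat.add_sub_cancel] using h1

lemma power_beats (C δ : ℝ) (hδ : 0 < δ) : ∃ N₀ : ℕ, ∀ N : ℕ, N₀ ≤ N → C ≤ (N : ℝ) ^ δ := by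
  have h1 : Filter.Tendsto (fun N : ℕ => (N : ℝ) ^ δ) Filter.atTop Filter.atTop :=
    (tendsto_rpow_atTop hδ).comp tendsto_natCast_atTop_atTop
  exact Filter.eventually_atTop.1 (h1.eventually_ge_atTop C)

open Classical in
/-- **independence of one coordinate of arbitrary events of the others** -/
theorem full (E01 A k : ℕ) {ε : ℝ} (hε : 0 < ε) : ∃ E D : ℕ, E01 < E ∧ 6 * E + 2 ≤ D ∧
    ∃ δ : ℝ, 0 < δ ∧ ∃ N₀ : ℕ, ∀ N : ℕ, N₀ ≤ N → ∀ x : Fin (k + 1) → ℕ,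
    (∀ i, x i ≤ A * N ∧ (N : ℝ) ^ (1 - δ) ≤ x i) →
    ∀ s : ℕ, s = 1 ∧ NE 6 E ⌊(N : ℝ) ^ (1 / (2 * D : ℝ))⌋₊ ∨ s = 2 →
    (((Fintype.piFinset fun i => Icc 1 (x i)).filter fun h =>
      ¬ ((∀ i S T X, X ≤ N → |cn X h i {l | l + s ∈ S} T - cn X h i S T| ≤ ε * N) ∧
        (∀ (i : Fin (k + 1)) (S : Set ℕ) (T : Set (Fin k → ℕ)), |cn N h i {l | l / s ∈ S} T / N -
          (p1 N 0 {l | l / s ∈ S} / N) * (cn N h i Set.univ T / N)| ≤ ε))).card : ℝ) ≤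
      (∏ i, (x i : ℝ)) * (N : ℝ) ^ (-δ) := by
  set e2 : ℝ := ε / 4 with he2
  have he20 : 0 < e2 := by positivity
  obtain ⟨δ1, hδ1, N1, hpair⟩ := pair_small A (e := e2 ^ 2 / 12) (by positivity)
  obtain ⟨M, hM⟩ := exists_nat_ge (1 / δ1)
  have hM0 : (0 : ℝ) < M := lt_of_lt_of_le (by positivity) hM
  have hM1 : 1 ≤ M := by exact_mod_cast (Nat.pos_of_ne_zero (by rintro rfl; simp at hM0) : 0 < M)
  have hMr1 : (1 : ℝ) ≤ M := by exact_mod_cast hM1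
  have hMδ : 1 / (M : ℝ) ≤ δ1 := by
    rw [div_le_iff₀ hδ1] at hM
    rw [div_le_iff₀ hM0]
    linarith
  set ε' : ℝ := ε / (24 * M) with hε'
  have hε'0 : 0 < ε' := by positivity
  have hε'ε : ε' ≤ ε := div_le_self hε.le (by linarith)
  have hsmall : 3 * M * ε' = ε / 8 := by
    rw [hε']
    field_simp
    norm_num
  obtain ⟨E, D, hE, hD, δ0, hδ0, N2, hN2⟩ := near_inv E01 (A + 1) k hε'0
  obtain ⟨N3, hN3⟩ := small_power δ0 hδ0 ε' hε'0
  obtain ⟨C, hC, hom⟩ := om_count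
  set εb : ℝ := ε / 6 with hεb
  set Kc : ℝ := 16 * ((A : ℝ) + 1) * (2 + C) * (k + 1) / εb with hKc
  obtain ⟨N4, hN4⟩ := J_exists Kc (1 / 8) (by positivity) (by norm_num) k
  obtain ⟨N5, hN5⟩ := power_beats (2 ^ (2 * M) * (6 / e2 ^ 2)) (1 / 8) (by norm_num)
  set δ : ℝ := min δ0 (1 / 4) / 2 with hδ
  have hδmin : 0 < min δ0 (1 / 4) := by positivity
  have hδpos : 0 < δ := by positivity
  have hδ0' : δ ≤ δ0 / 2 := by rw [hδ]; linarith [min_le_left δ0 (1 / 4)]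
  have hδ4' : δ ≤ 1 / 8 := by rw [hδ]; linarith [min_le_right δ0 (1 / 4)]
  obtain ⟨N6, hN6⟩ := power_beats 2 δ hδpos
  refine ⟨E, D, hE, hD, δ, hδpos, N1 + N2 + N3 + N4 + N5 + N6 + A + 3, fun N hN x hx s hs => ?_⟩
  have hs1 : 1 ≤ s := by rcases hs with ⟨rfl, _⟩ | rfl <;> omega
  have hs2 : s ≤ 2 := by rcases hs with ⟨rfl, _⟩ | rfl <;> omega
  have hN1 : 1 ≤ N := by omega
  have hNr : (1 : ℝ) < N := by exact_mod_cast (by omega : 1 < N)
  have hN0 : (0 : ℝ) < N := by linarith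
  obtain ⟨J, hll, hJ, hcount⟩ := hN4 N (by omega)
  -- one coordinate
  set x' : ℕ := ⌈(N : ℝ) ^ (1 - δ0)⌉₊ with hx'
  have hx'1 : (N : ℝ) ^ (1 - δ0) ≤ x' := Nat.le_ceil _
  have hx'2 : (x' : ℝ) < (N : ℝ) ^ (1 - δ0) + 1 := Nat.ceil_lt_add_one (by positivity)
  have hx'0 : 0 < x' := Nat.ceil_pos.2 (by positivity)
  have hx'N : x' ≤ N := by
    rw [hx', Nat.ceil_le]
    calc (N : ℝ) ^ (1 - δ0) ≤ (N : ℝ) ^ (1 : ℝ) := Real.rpow_le_rpow_of_exponent_le hNr.le (by linarith)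
      _ = N := Real.rpow_one _
  have hex := hN2 N (by omega) (fun _ => x') (fun _ => ⟨hx'N.trans (Nat.le_mul_of_pos_left N (by omega)), hx'1⟩) s hs
  obtain ⟨h', hh'box, hh'inv⟩ : ∃ h' ∈ Fintype.piFinset (fun _ : Fin (k + 1) => Icc 1 x'),
      ∀ i S T X, X ≤ N → |cn X h' i {l | l + s ∈ S} T - cn X h' i S T| ≤ ε' * N := by
    by_contra hcon
    have hall : ∀ h ∈ Fintype.piFinset (fun _ : Fin (k + 1) => Icc 1 x'),
        ¬ ∀ i S T X, X ≤ N → |cn X h i {l | l + s ∈ S} T - cn X h i S T| ≤ ε' * N :=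
      fun h hh hinv => hcon ⟨h, hh, hinv⟩
    rw [filter_true_of_mem hall, Fintype.card_piFinset] at hex
    simp only [Nat.card_Icc, Nat.add_sub_cancel] at hex
    push_cast at hex
    have e1 : (0 : ℝ) < ∏ _i : Fin (k + 1), (x' : ℝ) := prod_pos fun _ _ => by exact_mod_cast hx'0
    have e2 : (N : ℝ) ^ (-δ0) < 1 := Real.rpow_lt_one_of_one_lt_of_neg hNr (by linarith)
    have e3 := mul_lt_mul_of_pos_left e2 e1
    linarith
  have h1 : ∀ S, |p1 N 0 {l | l + s ∈ S} - p1 N 0 S| ≤ 2 * ε' * N := by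
    intro S
    have e1 := hh'inv 0 S Set.univ N le_rfl
    have e2 : ∀ S : Set ℕ, cn N h' 0 S Set.univ = p1 N (h' 0) S := by
      intro S
      unfold p1 pn cn
      congr! 3
      simp
    rw [e2, e2] at e1
    have e3 := p1_shift N (h' 0) {l | l + s ∈ S}
    have e4 := p1_shift N (h' 0) S
    have e5 : ((h' 0 : ℕ) : ℝ) ≤ x' := by
      rw [Fintype.mem_piFinset] at hh'box
      exact_mod_cast (mem_Icc.1 (hh'box 0)).2
    have e6 := hN3 N (by omega)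
    rw [abs_le] at *
    constructor <;> linarith [e1.1, e1.2, e3.1, e3.2, e4.1, e4.2]
  -- the exceptional set
  have hx2 : ∀ i, x i ≤ (A + 1) * N ∧ (N : ℝ) ^ (1 - δ0) ≤ x i := fun i =>
    ⟨(hx i).1.trans (Nat.mul_le_mul_right N (by omega)),
      (Real.rpow_le_rpow_of_exponent_le hNr.le (by linarith)).trans (hx i).2⟩
  have hxr : ∀ i, (N : ℝ) ^ (1 / 2 : ℝ) ≤ x i := fun i =>
    (Real.rpow_le_rpow_of_exponent_le hNr.le (by linarith)).trans (hx i).2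
  set US : Finset (Finset ℕ) := (range (J + 2 * M + 1)).powerset with hUS
  set UT : Finset (Finset (Fin k → ℕ)) := (Fintype.piFinset fun _ : Fin k => range (J + 1)).powerset with hUT
  set box := Fintype.piFinset fun i => Icc 1 (x i) with hbox
  set B1 := box.filter fun h => ¬ ∀ i S T X, X ≤ N → |cn X h i {l | l + s ∈ S} T - cn X h i S T| ≤ ε' * N with hB1
  set B2 := ((univ : Finset (Fin (k + 1))) ×ˢ (US ×ˢ UT)).biUnion fun q =>
        box.filter (bad2 N M s e2 q.1 (q.2.1 : Set ℕ) (q.2.2 : Set (Fin k → ℕ))) with hB2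
  have hsub : (box.filter fun h =>
      ¬ ((∀ i S T X, X ≤ N → |cn X h i {l | l + s ∈ S} T - cn X h i S T| ≤ ε * N) ∧
        (∀ (i : Fin (k + 1)) (S : Set ℕ) (T : Set (Fin k → ℕ)), |cn N h i {l | l / s ∈ S} T / N -
          (p1 N 0 {l | l / s ∈ S} / N) * (cn N h i Set.univ T / N)| ≤ ε))) ⊆ B1 ∪ B2 := by
    intro h hh
    rw [mem_filter] at hh
    by_contra hcon
    rw [mem_union, not_or] at hcon
    obtain ⟨hc1, hc2⟩ := hcon
    have hinv : ∀ i S T X, X ≤ N → |cn X h i {l | l + s ∈ S} T - cn X h i S T| ≤ ε' * N := by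
      by_contra h3
      exact hc1 (mem_filter.2 ⟨hh.1, h3⟩)
    have hhA : ∀ j, h j ≤ A * N := fun j => (mem_Icc.1 ((Fintype.mem_piFinset.1 hh.1) j)).2.trans (hx j).1
    have hbig := big_count hom hC (by omega : A + 1 ≤ N) (by omega) hll hJ (by positivity : 0 < εb) h hhA
    have hbig1 : (((Icc 1 N).filter fun n => J < cardFactors n).card : ℝ) ≤ εb / 8 * N := by
      have h3 := big_count (k := 0) hom hC (by omega : A + 1 ≤ N) (by omega) hll (J := J) (ε := εb) (by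
        refine le_trans ?_ hJ
        apply mul_le_mul_of_nonneg_right _ (by linarith)
        rw [hKc]
        apply div_le_div_of_nonneg_right _ (by positivity)
        apply mul_le_mul_of_nonneg_left _ (by positivity)
        have : (0 : ℝ) ≤ k := Nat.cast_nonneg k
        push_cast
        linarith) (by positivity) (fun _ => 0) (fun _ => Nat.zero_le _)
      refine le_trans (le_of_eq ?_) h3
      congr 2
      apply filter_congr
      intro n _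
      simp
    have hfin : ∀ i, ∀ S0 ∈ US, ∀ T0 ∈ UT, ‖∑ n ∈ Ioc 0 N, ind (T0 : Set (Fin k → ℕ)) (oth h i n) *
        (Gf M s {l | l / s ∈ (S0 : Set ℕ)} (cardFactors (n + h i)) -
          gam N (Gf M s {l | l / s ∈ (S0 : Set ℕ)}))‖ ≤ e2 * N := by
      intro i S0 hS0 T0 hT0
      by_contra h3
      push Not at h3
      apply hc2
      rw [hB2, mem_biUnion]
      exact ⟨(i, S0, T0), mem_product.2 ⟨mem_univ _, mem_product.2 ⟨hS0, hT0⟩⟩, mem_filter.2 ⟨hh.1, h3⟩⟩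
    apply hh.2
    refine ⟨fun i S T X hX => (hinv i S T X hX).trans (mul_le_mul_of_nonneg_right hε'ε hN0.le), fun i S T => ?_⟩
    have h3 := dec_all hN1 hM1 hs2 h i hbig hbig1 (hfin i) S T
    have h4 := indep_full hN1 hM1 hε'0.le h i (fun S T => hinv i S T N le_rfl) h1 {l | l / s ∈ S} T h3
    refine h4.trans ?_
    rw [hsmall, he2, hεb]
    linarith
  have hcB1 : (B1.card : ℝ) ≤ (∏ i, (x i : ℝ)) * (N : ℝ) ^ (-δ0) := hN2 N (by omega) x hx2 s hs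
  have hone : ∀ (i : Fin (k + 1)) (S0 : Set ℕ) (T0 : Set (Fin k → ℕ)), ((box.filter (bad2 N M s e2 i S0 T0)).card : ℝ) ≤
      (∏ i, (x i : ℝ)) * (6 / e2 ^ 2 * (N : ℝ) ^ (-(1 / 2) : ℝ)) := fun i S0 T0 =>
    bad_count hN1 hM1 hs1 he20 hMδ (hpair N (by omega)) x (fun i => (hx i).1) hxr i S0 T0
  have hcard : ((((univ : Finset (Fin (k + 1))) ×ˢ (US ×ˢ UT)).card : ℕ) : ℝ) =
      ((k : ℝ) + 1) * 2 ^ ((J + 2 * M + 1) + (J + 1) ^ k) := by
    rw [card_product, card_product, card_univ, Fintype.card_fin, hUS, hUT, card_powerset, card_powerset,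
      card_range, Fintype.card_piFinset, prod_const, card_range, card_univ, Fintype.card_fin]
    push_cast
    rw [← pow_add]
  have hPnn : 0 ≤ ∏ i, (x i : ℝ) := prod_nonneg fun _ _ => Nat.cast_nonneg _
  have hcB2 : (B2.card : ℝ) ≤ (∏ i, (x i : ℝ)) * (N : ℝ) ^ (-(1 / 4) : ℝ) := by
    have h2 : ((k : ℝ) + 1) * 2 ^ ((J + 2 * M + 1) + (J + 1) ^ k) ≤ (N : ℝ) ^ (1 / 8 : ℝ) * 2 ^ (2 * M) := by
      calc ((k : ℝ) + 1) * 2 ^ ((J + 2 * M + 1) + (J + 1) ^ k)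
          ≤ ((k : ℝ) + 1) * 2 ^ (((J + 3) + (J + 1) ^ k) + 2 * M) := by
            apply mul_le_mul_of_nonneg_left _ (by positivity)
            exact pow_le_pow_right₀ (by norm_num) (by omega)
        _ = (((k : ℝ) + 1) * 2 ^ ((J + 3) + (J + 1) ^ k)) * 2 ^ (2 * M) := by rw [pow_add]; ring
        _ ≤ _ := mul_le_mul_of_nonneg_right hcount (by positivity)
    have h3 := hN5 N (by omega)
    calc (B2.card : ℝ) ≤ ∑ q ∈ (univ : Finset (Fin (k + 1))) ×ˢ (US ×ˢ UT),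
          ((box.filter (bad2 N M s e2 q.1 (q.2.1 : Set ℕ) (q.2.2 : Set (Fin k → ℕ)))).card : ℝ) := by
          rw [hB2]
          exact_mod_cast card_biUnion_le
      _ ≤ ∑ q ∈ (univ : Finset (Fin (k + 1))) ×ˢ (US ×ˢ UT),
          (∏ i, (x i : ℝ)) * (6 / e2 ^ 2 * (N : ℝ) ^ (-(1 / 2) : ℝ)) := sum_le_sum fun q _ => hone _ _ _
      _ = (((k : ℝ) + 1) * 2 ^ ((J + 2 * M + 1) + (J + 1) ^ k)) *
          ((∏ i, (x i : ℝ)) * (6 / e2 ^ 2 * (N : ℝ) ^ (-(1 / 2) : ℝ))) := by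
          rw [sum_const, nsmul_eq_mul, hcard]
      _ ≤ ((N : ℝ) ^ (1 / 8 : ℝ) * 2 ^ (2 * M)) *
          ((∏ i, (x i : ℝ)) * (6 / e2 ^ 2 * (N : ℝ) ^ (-(1 / 2) : ℝ))) :=
          mul_le_mul_of_nonneg_right h2 (by positivity)
      _ = (∏ i, (x i : ℝ)) * ((N : ℝ) ^ (1 / 8 : ℝ) * (2 ^ (2 * M) * (6 / e2 ^ 2)) * (N : ℝ) ^ (-(1 / 2) : ℝ)) := by
          ring
      _ ≤ (∏ i, (x i : ℝ)) * ((N : ℝ) ^ (1 / 8 : ℝ) * (N : ℝ) ^ (1 / 8 : ℝ) * (N : ℝ) ^ (-(1 / 2) : ℝ)) := by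
          apply mul_le_mul_of_nonneg_left _ hPnn
          apply mul_le_mul_of_nonneg_right _ (by positivity)
          exact mul_le_mul_of_nonneg_left h3 (by positivity)
      _ = (∏ i, (x i : ℝ)) * (N : ℝ) ^ (-(1 / 4) : ℝ) := by
          rw [← Real.rpow_add hN0, ← Real.rpow_add hN0]
          norm_num
  have h2 : (2 : ℝ) ≤ (N : ℝ) ^ δ := hN6 N (by omega)
  have h3 : (N : ℝ) ^ (-δ0) ≤ (N : ℝ) ^ (-(2 * δ)) := Real.rpow_le_rpow_of_exponent_le hNr.le (by linarith)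
  have h4 : (N : ℝ) ^ (-(1 / 4) : ℝ) ≤ (N : ℝ) ^ (-(2 * δ)) := Real.rpow_le_rpow_of_exponent_le hNr.le (by linarith)
  have h5 : (N : ℝ) ^ (-(2 * δ)) * 2 ≤ (N : ℝ) ^ (-δ) := by
    calc (N : ℝ) ^ (-(2 * δ)) * 2 ≤ (N : ℝ) ^ (-(2 * δ)) * (N : ℝ) ^ δ :=
          mul_le_mul_of_nonneg_left h2 (by positivity)
      _ = (N : ℝ) ^ (-δ) := by rw [← Real.rpow_add hN0]; congr 1; ring
  calc _ ≤ ((B1 ∪ B2).card : ℝ) := Nat.cast_le.2 (card_le_card hsub)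
    _ ≤ (B1.card : ℝ) + B2.card := by exact_mod_cast card_union_le _ _
    _ ≤ (∏ i, (x i : ℝ)) * (N : ℝ) ^ (-δ0) + (∏ i, (x i : ℝ)) * (N : ℝ) ^ (-(1 / 4) : ℝ) := add_le_add hcB1 hcB2
    _ = (∏ i, (x i : ℝ)) * ((N : ℝ) ^ (-δ0) + (N : ℝ) ^ (-(1 / 4) : ℝ)) := by ring
    _ ≤ (∏ i, (x i : ℝ)) * (N : ℝ) ^ (-δ) := by
        apply mul_le_mul_of_nonneg_left _ hPnn
        linarith

end Pool.Agent.TH823.KB
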