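import Pool.Agent.TH823.KB.Mean
import Pool.Agent.TH823.KB.CI

/-! The mean of the difference with the small primes counted once -/

set_option autoImplicit false

namespace Pool.Agent.TH823.KB

open Finset
open Pool.Agent.W883.TL (Om Om_prod Om_full big_bound)

/-- the number of the primes `≤ z` dividing `m` -/
def az (z m : ℕ) : ℕ := ((Icc 1 z).filter fun p => p.Prime ∧ p ∣ m).card

lemma az_sum (z m : ℕ) : az z m = ∑ l ∈ (Icc 1 z).filter Nat.Prime, if l ∣ m then 1 else 0 := by
  unfold az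
  rw [← filter_filter, card_filter]

lemma fac_mean2 {l : ℕ} (hl : l.Prime) {A N h : ℕ} (hh : h ≤ A * N) :
    ∑ n ∈ Ioc 0 N, (((n + h).factorization l : ℝ) - if l ∣ n + h then 1 else 0) ≤
      2 * (A + 1) * N * ((l : ℝ) ^ 2)⁻¹ + 1 := by
  set Y := (A + 1) * N with hY
  have hnn : ∀ m, m ≠ 0 → 0 ≤ (m.factorization l : ℝ) - if l ∣ m then 1 else 0 := by
    intro m hm
    split_ifs with h
    · have := (hl.dvd_iff_one_le_factorization hm).1 h
      have : (1 : ℝ) ≤ m.factorization l := by exact_mod_cast this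
      linarith
    · have : (0 : ℝ) ≤ m.factorization l := Nat.cast_nonneg _
      linarith
  have h1 : ∑ n ∈ Ioc 0 N, (((n + h).factorization l : ℝ) - if l ∣ n + h then 1 else 0) ≤
      ∑ m ∈ Icc 1 Y, ((m.factorization l : ℝ) - if l ∣ m then 1 else 0) := by
    rw [← sum_image (g := fun n => n + h) (f := fun m => ((m.factorization l : ℝ) - if l ∣ m then 1 else 0))
      (s := Ioc 0 N) (fun a _ b _ hab => by simpa using hab)]
    apply sum_le_sum_of_subset_of_nonneg
    · intro m hm
      rw [mem_image] at hm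
      obtain ⟨n, hn, rfl⟩ := hm
      rw [mem_Ioc] at hn
      rw [mem_Icc, hY, add_mul, one_mul]
      omega
    · intro m hm _
      rw [mem_Icc] at hm
      exact hnn m (by omega)
  refine h1.trans ?_
  rw [sum_sub_distrib]
  have h2 : ∑ m ∈ Icc 1 Y, (m.factorization l : ℝ) ≤ ((Y / (l - 1) : ℕ) : ℝ) := by
    have := Nat.factorization_factorial_le_div_pred hl Y
    rw [← fac_sum] at this
    exact_mod_cast this
  have h3 : ∑ m ∈ Icc 1 Y, (if l ∣ m then (1 : ℝ) else 0) = ((Y / l : ℕ) : ℝ) := by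
    rw [← Nat.Ioc_filter_dvd_card_eq_div, card_filter]
    push_cast
    rfl
  rw [h3]
  have hl2 : (2 : ℝ) ≤ l := by exact_mod_cast hl.two_le
  have h4 : ((Y / (l - 1) : ℕ) : ℝ) ≤ (Y : ℝ) / (l - 1) := by
    refine Nat.cast_div_le.trans (le_of_eq ?_)
    rw [Nat.cast_sub hl.one_lt.le]
    push_cast
    ring
  have h5 : (Y : ℝ) / l - 1 ≤ ((Y / l : ℕ) : ℝ) := by
    have := Nat.lt_div_mul_add (a := Y) hl.pos
    have h6 : (Y : ℝ) < (Y / l : ℕ) * l + l := by exact_mod_cast this
    rw [sub_le_iff_le_add, div_le_iff₀ (by linarith)]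
    linarith
  have h6 : (Y : ℝ) / (l - 1) - Y / l ≤ 2 * Y * ((l : ℝ) ^ 2)⁻¹ := by
    have hY0 : (0 : ℝ) ≤ Y := Nat.cast_nonneg Y
    have e1 : (Y : ℝ) / (l - 1) - Y / l = Y / (l * (l - 1)) := by
      have : (l : ℝ) - 1 ≠ 0 := by linarith
      field_simp
      ring
    rw [e1, ← div_eq_mul_inv, div_le_div_iff₀ (by nlinarith) (by positivity)]
    nlinarith [mul_nonneg hY0 (by nlinarith : (0 : ℝ) ≤ (l : ℝ) * (l - 2))]
  have hYr : (Y : ℝ) = (A + 1) * N := by rw [hY]; push_cast; ring
  have h7 : 2 * ((A : ℝ) + 1) * N * ((l : ℝ) ^ 2)⁻¹ = 2 * Y * ((l : ℝ) ^ 2)⁻¹ := by rw [hYr]; ring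
  rw [h7]
  linarith

lemma diff_pt2 {B : Finset ℕ} {w y R m z : ℕ} (hy : 1 < y) (hm : m ≠ 0) (h : m < y ^ (R + 1))
    (hB : (Icc 1 z).filter Nat.Prime ⊆ B) :
    |(Om m : ℝ) - (az z m + Om (sm B w y m) : ℕ)| ≤
      ∑ l ∈ (Icc 1 w).filter Nat.Prime, (m.factorization l : ℝ) +
      (∑ l ∈ (Icc 1 z).filter Nat.Prime, ((m.factorization l : ℝ) - if l ∣ m then 1 else 0)) +
      ∑ l ∈ B.filter (z < ·), (m.factorization l : ℝ) + R := by
  classical
  have h1 := (diff_pt (B := B) (w := w) hy hm h).2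
  have haz : ((az z m : ℕ) : ℝ) = ∑ l ∈ (Icc 1 z).filter Nat.Prime, if l ∣ m then (1 : ℝ) else 0 := by
    rw [az_sum]
    push_cast
    rfl
  have hle : (0 : ℝ) ≤ (Om m : ℝ) - (az z m + Om (sm B w y m) : ℕ) := by
    have h2 : az z m + Om (sm B w y m) ≤ Om m := by
      rw [Om_sm, Om_full hm (le_max_left m y)]
      have h3 : az z m ≤ ∑ l ∈ (Icc 1 z).filter (fun p => p.Prime ∧ p ∣ m), m.factorization l := by
        unfold az
        rw [card_eq_sum_ones]
        apply sum_le_sum
        intro l hl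
        rw [mem_filter] at hl
        exact (hl.2.1.dvd_iff_one_le_factorization hm).1 hl.2.2
      have hdis : Disjoint ((Icc 1 z).filter (fun p => p.Prime ∧ p ∣ m)) (PP B w y) := by
        rw [disjoint_left]
        intro l hl1 hl2
        rw [mem_filter] at hl1
        have h4 : l ∉ B := by
          unfold PP at hl2
          exact (mem_filter.1 hl2).2
        exact h4 (hB (mem_filter.2 ⟨hl1.1, hl1.2.1⟩))
      calc az z m + ∑ l ∈ PP B w y, m.factorization l
          ≤ ∑ l ∈ (Icc 1 z).filter (fun p => p.Prime ∧ p ∣ m), m.factorization l +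
            ∑ l ∈ PP B w y, m.factorization l := Nat.add_le_add_right h3 _
        _ = ∑ l ∈ (Icc 1 z).filter (fun p => p.Prime ∧ p ∣ m) ∪ PP B w y, m.factorization l :=
            (sum_union hdis).symm
        _ ≤ _ := by
            apply sum_le_sum_of_subset
            intro l hl
            unfold Pool.Agent.W208.TL.PP
            rw [mem_filter, mem_Ioc]
            rcases mem_union.1 hl with hl | hl
            · rw [mem_filter, mem_Icc] at hl
              exact ⟨⟨by omega, (Nat.le_of_dvd (Nat.pos_of_ne_zero hm) hl.2.2).trans (le_max_left _ _)⟩, hl.2.1⟩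
            · have h4 := mem_PP hl
              exact ⟨⟨by omega, h4.1.2.trans (le_max_right _ _)⟩, h4.2⟩
    rw [sub_nonneg]
    exact_mod_cast h2
  rw [abs_of_nonneg hle, sum_sub_distrib, ← haz]
  have h5 : ∑ l ∈ B, (m.factorization l : ℝ) ≤ ∑ l ∈ (Icc 1 z).filter Nat.Prime, (m.factorization l : ℝ) +
      ∑ l ∈ B.filter (z < ·), (m.factorization l : ℝ) := by
    rw [← sum_filter_add_sum_filter_not B (z < ·), add_comm]
    apply add_le_add_left
    have h6 : ∀ l ∈ B.filter (fun l => ¬ z < l), l ∉ (Icc 1 z).filter Nat.Prime → m.factorization l = 0 := by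
      intro l hl1 hl2
      rw [mem_filter] at hl1
      by_cases hlp : l.Prime
      · exfalso
        exact hl2 (mem_filter.2 ⟨mem_Icc.2 ⟨hlp.one_le, by omega⟩, hlp⟩)
      · exact Nat.factorization_eq_zero_of_not_prime m hlp
    calc ∑ l ∈ B.filter (fun l => ¬ z < l), (m.factorization l : ℝ)
        = ∑ l ∈ (B.filter (fun l => ¬ z < l)).filter (· ∈ (Icc 1 z).filter Nat.Prime), (m.factorization l : ℝ) := by
          rw [sum_filter (p := (· ∈ (Icc 1 z).filter Nat.Prime))]
          apply sum_congr rfl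
          intro l hl
          split_ifs with h7
          · rfl
          · rw [h6 l hl h7, Nat.cast_zero]
      _ ≤ _ := by
          apply sum_le_sum_of_subset_of_nonneg
          · intro l hl
            exact (mem_filter.1 hl).2
          · intro l _ _
            exact Nat.cast_nonneg _
  push_cast
  linarith

lemma diff_mean2 {B : Finset ℕ} (hBp : ∀ l ∈ B, l.Prime) {A N w y R h z : ℕ} (hy : 1 < y)
    (hN : (A + 1) * N < y ^ (R + 1)) (hh : h ≤ A * N) (hB : (Icc 1 z).filter Nat.Prime ⊆ B) (hz : z ≤ N)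
    {D : ℝ} (hD : ∑ l ∈ B.filter (z < ·), 1 / (l : ℝ) ≤ D) :
    ∑ n ∈ Ioc 0 N, |(Om (n + h) : ℝ) - (az z (n + h) + Om (sm B w y (n + h)) : ℕ)| ≤
      (2 * (A + 1) * (w + 1 + D) + 1 + R) * N := by
  have hpt : ∀ n ∈ Ioc 0 N, |(Om (n + h) : ℝ) - (az z (n + h) + Om (sm B w y (n + h)) : ℕ)| ≤
      ∑ l ∈ (Icc 1 w).filter Nat.Prime, ((n + h).factorization l : ℝ) +
      (∑ l ∈ (Icc 1 z).filter Nat.Prime, (((n + h).factorization l : ℝ) - if l ∣ n + h then 1 else 0)) +
      ∑ l ∈ B.filter (z < ·), ((n + h).factorization l : ℝ) + R := by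
    intro n hn
    rw [mem_Ioc] at hn
    exact diff_pt2 (m := n + h) hy (by omega) (lt_of_le_of_lt (by
      rw [add_mul, one_mul]; omega) hN) hB
  refine (sum_le_sum hpt).trans ?_
  rw [sum_add_distrib, sum_add_distrib, sum_add_distrib, sum_const, Nat.card_Ioc, nsmul_eq_mul, sum_comm,
    sum_comm (s := Ioc 0 N) (t := (Icc 1 z).filter Nat.Prime),
    sum_comm (s := Ioc 0 N) (t := B.filter (z < ·))]
  have h1 : ∑ l ∈ (Icc 1 w).filter Nat.Prime, ∑ n ∈ Ioc 0 N, ((n + h).factorization l : ℝ) ≤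
      2 * (A + 1) * N * w := by
    calc _ ≤ ∑ l ∈ (Icc 1 w).filter Nat.Prime, 2 * ((A : ℝ) + 1) * N * 1 := by
          apply sum_le_sum
          intro l hl
          rw [mem_filter, mem_Icc] at hl
          refine (fac_mean hl.2 hh).trans ?_
          apply mul_le_mul_of_nonneg_left _ (by positivity)
          rw [div_le_one (by exact_mod_cast hl.2.pos)]
          exact_mod_cast hl.2.one_lt.le
      _ = ((Icc 1 w).filter Nat.Prime).card * (2 * ((A : ℝ) + 1) * N) := by
          rw [sum_const, nsmul_eq_mul, mul_one]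
      _ ≤ w * (2 * ((A : ℝ) + 1) * N) := by
          apply mul_le_mul_of_nonneg_right _ (by positivity)
          have := card_filter_le (Icc 1 w) Nat.Prime
          rw [Nat.card_Icc, Nat.add_sub_cancel] at this
          exact_mod_cast this
      _ = _ := by ring
  have h2 : ∑ l ∈ B.filter (z < ·), ∑ n ∈ Ioc 0 N, ((n + h).factorization l : ℝ) ≤
      2 * (A + 1) * N * D := by
    refine le_trans ?_ (mul_le_mul_of_nonneg_left hD (by positivity : (0 : ℝ) ≤ 2 * (A + 1) * N))
    rw [mul_sum]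
    exact sum_le_sum fun l hl => fac_mean (hBp l (mem_filter.1 hl).1) hh
  have h3 : ∑ l ∈ (Icc 1 z).filter Nat.Prime, ∑ n ∈ Ioc 0 N,
      (((n + h).factorization l : ℝ) - if l ∣ n + h then 1 else 0) ≤ 2 * (A + 1) * N + N := by
    have h4 : ∑ l ∈ (Icc 1 z).filter Nat.Prime, ((l : ℝ) ^ 2)⁻¹ ≤ 1 := by
      rcases Nat.eq_zero_or_pos z with rfl | hz0
      · simp
      · refine (sum_le_sum_of_subset_of_nonneg (t := Ioc 1 z) ?_ ?_).trans
          ((sum_Ioc_inv_sq_le_sub one_ne_zero hz0).trans ?_)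
        · intro p hp
          rw [mem_filter, mem_Icc] at hp
          rw [mem_Ioc]
          exact ⟨hp.2.one_lt, hp.1.2⟩
        · intro p _ _
          positivity
        · have : (0 : ℝ) ≤ (z : ℝ)⁻¹ := by positivity
          simp only [Nat.cast_one, inv_one]
          linarith
    calc _ ≤ ∑ l ∈ (Icc 1 z).filter Nat.Prime, (2 * ((A : ℝ) + 1) * N * ((l : ℝ) ^ 2)⁻¹ + 1) :=
          sum_le_sum fun l hl => fac_mean2 (mem_filter.1 hl).2 hh
      _ = 2 * ((A : ℝ) + 1) * N * ∑ l ∈ (Icc 1 z).filter Nat.Prime, ((l : ℝ) ^ 2)⁻¹ +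
          ((Icc 1 z).filter Nat.Prime).card := by
          rw [sum_add_distrib, ← mul_sum, sum_const, nsmul_eq_mul, mul_one]
      _ ≤ 2 * ((A : ℝ) + 1) * N * 1 + N := by
          apply add_le_add (mul_le_mul_of_nonneg_left h4 (by positivity))
          have := card_filter_le (Icc 1 z) Nat.Prime
          rw [Nat.card_Icc, Nat.add_sub_cancel] at this
          exact_mod_cast this.trans hz
      _ = _ := by ring
  have h5 : (2 * ((A : ℝ) + 1) * (w + 1 + D) + 1 + R) * N =
      2 * (A + 1) * N * w + (2 * (A + 1) * N + N) + 2 * (A + 1) * N * D + (N - 0 : ℕ) * R := by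
    simp only [Nat.sub_zero]; ring
  rw [h5]
  linarith

/-- the primes dividing a difference that exceed `z` -/
lemma bad_sum {r : ℕ} (h : Fin r → ℕ) {A N z : ℕ} (hz : 1 ≤ z) (hN : N < 16 ^ (z + 1)) (hh : ∀ i, h i ≤ A * N) :
    ∑ l ∈ (badp h).filter (z < ·), 1 / (l : ℝ) ≤ r ^ 2 * (A + 8) := by
  have hz0 : (0 : ℝ) < z := by exact_mod_cast hz
  have h1 : ∀ q : Fin r × Fin r,
      ∑ l ∈ (((h q.1 : ℤ) - h q.2).natAbs.primeFactors).filter (z < ·), 1 / (l : ℝ) ≤ A + 8 := by
    intro q
    set d := ((h q.1 : ℤ) - h q.2).natAbs with hd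
    have hc : (d.primeFactors.card : ℝ) ≤ (A + 8) * z := by
      rcases Nat.eq_zero_or_pos d with h0 | h0
      · rw [h0]
        simp only [Nat.primeFactors_zero, card_empty, Nat.cast_zero]
        positivity
      · have h2 : 2 ^ d.primeFactors.card ≤ d := by
          calc 2 ^ d.primeFactors.card ≤ ∏ p ∈ d.primeFactors, p :=
                pow_card_le_prod _ _ _ fun p hp => (Nat.prime_of_mem_primeFactors hp).two_le
            _ ≤ d := Nat.le_of_dvd h0 (Nat.prod_primeFactors_dvd d)
        have h3 : d ≤ A * N := by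
          have := hh q.1
          have := hh q.2
          omega
        have h4 : d < 2 ^ (A + 4 * (z + 1)) := by
          calc d ≤ A * N := h3
            _ ≤ 2 ^ A * N := Nat.mul_le_mul_right N (Nat.lt_two_pow_self).le
            _ < 2 ^ A * 16 ^ (z + 1) := Nat.mul_lt_mul_of_pos_left hN (by positivity)
            _ = 2 ^ (A + 4 * (z + 1)) := by
              rw [pow_add 2 A, pow_mul 2 4 (z + 1)]
              norm_num
        have h5 : d.primeFactors.card < A + 4 * (z + 1) :=
          (Nat.pow_lt_pow_iff_right (by norm_num : 1 < 2)).1 (lt_of_le_of_lt h2 h4)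
        have h6 : d.primeFactors.card ≤ (A + 8) * z := by nlinarith
        exact_mod_cast h6
    calc _ ≤ ∑ l ∈ (d.primeFactors).filter (z < ·), 1 / (z : ℝ) := by
          apply sum_le_sum
          intro l hl
          have h2 : z < l := (mem_filter.1 hl).2
          exact one_div_le_one_div_of_le hz0 (by exact_mod_cast h2.le)
      _ = (((d.primeFactors).filter (z < ·)).card : ℝ) * (1 / z) := by rw [sum_const, nsmul_eq_mul]
      _ ≤ ((A + 8) * z) * (1 / z) := by
          apply mul_le_mul_of_nonneg_right _ (by positivity)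
          refine le_trans ?_ hc
          exact_mod_cast card_filter_le _ _
      _ = A + 8 := by field_simp
  unfold badp
  rw [filter_biUnion]
  refine (sum_biUnion_le' _ _ _ fun l => by positivity).trans ?_
  refine (sum_le_sum fun q _ => h1 q).trans ?_
  rw [sum_const, card_univ, Fintype.card_prod, Fintype.card_fin, nsmul_eq_mul]
  push_cast
  exact le_of_eq (by ring)

end Pool.Agent.TH823.KB
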