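import Pool.Agent.TH823.OP.OmSum
import Pool.Agent.TH823.PS.Fin3

/-! Almost all tuples are separated -/

set_option autoImplicit false

namespace Pool.Agent.TH823.KB

open Finset
open Pool.Agent.TH823.OP (prime_recip)

/-- sum of the reciprocals of the primes dividing the difference -/
noncomputable def sg (a b : ℕ) : ℝ := ∑ p ∈ ((a : ℤ) - b).natAbs.primeFactors, 1 / (p : ℝ)

lemma sg_nonneg (a b : ℕ) : 0 ≤ sg a b := sum_nonneg fun _ _ => by positivity

lemma count_class (x g p : ℕ) :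
    ((Icc 1 x).filter fun m : ℕ => (p : ℤ) ∣ (m : ℤ) - g).card ≤ x / p + 1 := by
  rw [← card_range (x / p + 1)]
  apply card_le_card_of_injOn (fun m => m / p)
  · intro m hm
    rw [mem_coe, mem_filter, mem_Icc] at hm
    rw [mem_coe, mem_range]
    exact Nat.lt_succ_of_le (Nat.div_le_div_right hm.1.2)
  · intro a ha b hb hab
    rw [mem_coe, mem_filter] at ha hb
    have h1 : (p : ℤ) ∣ (b : ℤ) - a := by
      have := dvd_sub hb.2 ha.2
      simpa using this
    have h2 : a / p = b / p := hab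
    have h3 : a % p = b % p := Nat.modEq_iff_dvd.2 h1
    rw [← Nat.div_add_mod a p, ← Nat.div_add_mod b p, h2, h3]

lemma sg_sum {x g Y : ℕ} (hx : x ≤ Y) (hg : g ≤ Y) (hY : 1 ≤ Y) :
    ∑ m ∈ Icc 1 x, sg m g ≤ x + ∑ p ∈ (Icc 1 Y).filter Nat.Prime, 1 / (p : ℝ) := by
  have h1 : ∀ m ∈ Icc 1 x, sg m g ≤ ∑ p ∈ (Icc 1 Y).filter Nat.Prime,
      if (p : ℤ) ∣ (m : ℤ) - g then 1 / (p : ℝ) else 0 := by
    intro m hm
    rw [mem_Icc] at hm
    rw [← sum_filter]
    apply sum_le_sum_of_subset_of_nonneg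
    · intro p hp
      have h2 := Nat.prime_of_mem_primeFactors hp
      have h3 := Nat.dvd_of_mem_primeFactors hp
      have h4 : ((m : ℤ) - g).natAbs ≠ 0 := by
        intro h0
        rw [h0] at hp
        simp at hp
      have h5 := Nat.le_of_dvd (Nat.pos_of_ne_zero h4) h3
      rw [mem_filter, mem_filter, mem_Icc]
      exact ⟨⟨⟨h2.one_le, by omega⟩, h2⟩, Int.natCast_dvd.2 h3⟩
    · intro p _ _
      positivity
  refine (sum_le_sum h1).trans ?_
  rw [sum_comm]
  have h2 : ∀ p ∈ (Icc 1 Y).filter Nat.Prime,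
      ∑ m ∈ Icc 1 x, (if (p : ℤ) ∣ (m : ℤ) - g then 1 / (p : ℝ) else 0) ≤ x * ((p : ℝ) ^ 2)⁻¹ + 1 / (p : ℝ) := by
    intro p hp
    have hpp := (mem_filter.1 hp).2
    have hp0 : (0 : ℝ) < p := by exact_mod_cast hpp.pos
    rw [← sum_filter, sum_const, nsmul_eq_mul]
    have h3 : (((Icc 1 x).filter fun m : ℕ => (p : ℤ) ∣ (m : ℤ) - g).card : ℝ) ≤ x / p + 1 := by
      have := count_class x g p
      calc (((Icc 1 x).filter fun m : ℕ => (p : ℤ) ∣ (m : ℤ) - g).card : ℝ) ≤ ((x / p + 1 : ℕ) : ℝ) :=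
            Nat.cast_le.2 this
        _ ≤ x / p + 1 := by push_cast; linarith [@Nat.cast_div_le ℝ _ _ _ x p]
    refine (mul_le_mul_of_nonneg_right h3 (by positivity)).trans (le_of_eq ?_)
    field_simp
  refine (sum_le_sum h2).trans ?_
  rw [sum_add_distrib, ← mul_sum]
  have h4 : ∑ p ∈ (Icc 1 Y).filter Nat.Prime, ((p : ℝ) ^ 2)⁻¹ ≤ 1 := by
    refine (sum_le_sum_of_subset_of_nonneg (t := Ioc 1 Y) ?_ ?_).trans
      ((sum_Ioc_inv_sq_le_sub one_ne_zero hY).trans ?_)
    · intro p hp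
      rw [mem_filter, mem_Icc] at hp
      rw [mem_Ioc]
      exact ⟨hp.2.one_lt, hp.1.2⟩
    · intro p _ _
      positivity
    · have : (0 : ℝ) ≤ (Y : ℝ)⁻¹ := by positivity
      simp only [Nat.cast_one, inv_one]
      linarith
  have h5 := mul_le_mul_of_nonneg_left h4 (Nat.cast_nonneg (α := ℝ) x)
  linarith

lemma large_root (A : ℕ) (K : ℝ) (hK : 0 ≤ K) : ∃ N₀ : ℕ, ∀ N : ℕ, N₀ ≤ N →
    Real.log (Real.log ((A * N + 3 : ℕ) : ℝ)) + K ≤ (N : ℝ) ^ (1 / 2 : ℝ) ∧ K ≤ (N : ℝ) ^ (1 / 2 : ℝ) := by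
  set K' := K + Real.log (A + 3) with hK'
  have hlA : 0 ≤ Real.log (A + 3) := Real.log_nonneg (by have : (0 : ℝ) ≤ A := Nat.cast_nonneg A; linarith)
  obtain ⟨n, hn⟩ := exists_nat_ge (4 + K')
  refine ⟨n ^ 4 + 1, fun N hN => ?_⟩
  have hN1 : (1 : ℝ) ≤ N := by exact_mod_cast (by omega : 1 ≤ N)
  have hN0 : (0 : ℝ) < N := by linarith
  set u := (N : ℝ) ^ (1 / 4 : ℝ) with hu
  have hu1 : n ≤ u := by
    have h1 : ((n : ℝ) ^ 4) ≤ N := by exact_mod_cast (by omega : n ^ 4 ≤ N)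
    have h2 := Real.rpow_le_rpow (by positivity) h1 (by norm_num : (0 : ℝ) ≤ 1 / 4)
    rw [← Real.rpow_natCast, ← Real.rpow_mul (Nat.cast_nonneg n)] at h2
    norm_num at h2
    rw [hu]
    norm_num
    exact h2
  have hu2 : (N : ℝ) ^ (1 / 2 : ℝ) = u ^ 2 := by
    rw [hu, ← Real.rpow_natCast, ← Real.rpow_mul hN0.le]
    norm_num
  have hK0 : 0 ≤ K' := by positivity
  have hu3 : 4 + K' ≤ u := hn.trans hu1
  have h1 : Real.log N ≤ 4 * u := by
    have := Real.log_le_rpow_div hN0.le (by norm_num : (0 : ℝ) < 1 / 4)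
    rw [← hu] at this
    linarith
  have h2 : Real.log ((A * N + 3 : ℕ) : ℝ) ≤ Real.log (A + 3) + Real.log N := by
    rw [← Real.log_mul (by positivity) hN0.ne']
    apply Real.log_le_log (by positivity)
    push_cast
    nlinarith
  have h3 : 0 < Real.log ((A * N + 3 : ℕ) : ℝ) := Real.log_pos (by
    push_cast
    have : (0 : ℝ) ≤ A * N := by positivity
    linarith)
  have h4 : Real.log (Real.log ((A * N + 3 : ℕ) : ℝ)) ≤ Real.log ((A * N + 3 : ℕ) : ℝ) := by
    have := Real.log_le_sub_one_of_pos h3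
    linarith
  rw [hu2]
  constructor
  · nlinarith
  · nlinarith

open Classical in
/-- **almost all tuples are separated** -/
theorem sep_count (A k : ℕ) {C : ℝ} (hC : 0 < C) : ∃ N₀ : ℕ, ∀ N : ℕ, N₀ ≤ N → ∀ x : Fin (k + 1) → ℕ,
    (∀ i, x i ≤ A * N ∧ (N : ℝ) ^ (1 / 2 : ℝ) ≤ x i) →
    (((Fintype.piFinset fun i => Icc 1 (x i)).filter fun h => ¬ ∀ i j, i ≠ j → h i ≠ h j ∧ sg (h i) (h j) ≤ C).card :
      ℝ) ≤ (k + 1) ^ 2 * (3 / C) * ∏ i, (x i : ℝ) := by
  obtain ⟨C0, hC0, hpr⟩ := prime_recip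
  obtain ⟨N₀, hN₀⟩ := large_root A (C0 + C) (by positivity)
  refine ⟨N₀, fun N hN x hx => ?_⟩
  obtain ⟨g1, g2⟩ := hN₀ N hN
  have hsub : ((Fintype.piFinset fun i => Icc 1 (x i)).filter
      fun h => ¬ ∀ i j, i ≠ j → h i ≠ h j ∧ sg (h i) (h j) ≤ C) ⊆
      (univ : Finset (Fin (k + 1) × Fin (k + 1))).biUnion fun q =>
        (Fintype.piFinset fun i => Icc 1 (x i)).filter
          fun h => q.1 ≠ q.2 ∧ (h q.1 = h q.2 ∨ C < sg (h q.1) (h q.2)) := by
    intro h hh
    rw [mem_filter] at hh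
    obtain ⟨hh1, hh2⟩ := hh
    push Not at hh2
    obtain ⟨i, j, hij, hbad⟩ := hh2
    rw [mem_biUnion]
    refine ⟨(i, j), mem_univ _, mem_filter.2 ⟨hh1, hij, ?_⟩⟩
    by_cases he : h i = h j
    · exact Or.inl he
    · exact Or.inr (hbad he)
  have hone : ∀ q : Fin (k + 1) × Fin (k + 1), (((Fintype.piFinset fun i => Icc 1 (x i)).filter
      fun h => q.1 ≠ q.2 ∧ (h q.1 = h q.2 ∨ C < sg (h q.1) (h q.2))).card : ℝ) ≤
      (∏ i, (x i : ℝ)) * (3 / C) := by
    rintro ⟨i, j⟩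
    have h1 := Pool.Agent.TH823.PS.tuple_count' i (fun i => Icc 1 (x i))
      (fun h => i ≠ j ∧ (h i = h j ∨ C < sg (h i) (h j))) (T := 3 / C) (by
      intro b hb
      by_cases hij : i = j
      · rw [filter_false_of_mem (by intro m _ hm; exact hm.1 hij)]
        simp only [card_empty, Nat.cast_zero]
        positivity
      · obtain ⟨l, hl⟩ := Fin.exists_succAbove_eq (Ne.symm hij)
        set g := b l with hg
        have hgA : g ≤ A * N := by
          have := (mem_Icc.1 (hb l)).2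
          rw [hl] at this
          exact this.trans (hx j).1
        have e1 : ∀ m, (i.insertNth m b : Fin (k + 1) → ℕ) i = m := fun m => Fin.insertNth_apply_same _ _ _
        have e2 : ∀ m, (i.insertNth m b : Fin (k + 1) → ℕ) j = g := fun m => by
          rw [← hl, Fin.insertNth_apply_succAbove]
        simp only [e1, e2]
        have hsub2 : (Icc 1 (x i)).filter (fun m => i ≠ j ∧ (m = g ∨ C < sg m g)) ⊆
            {g} ∪ (Icc 1 (x i)).filter fun m => C < sg m g := by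
          intro m hm
          rw [mem_filter] at hm
          rw [mem_union, mem_singleton, mem_filter]
          rcases hm.2.2 with h | h
          · exact Or.inl h
          · exact Or.inr ⟨hm.1, h⟩
        have hc := (card_le_card hsub2).trans (card_union_le _ _)
        rw [card_singleton] at hc
        have hc2 : (((Icc 1 (x i)).filter (fun m => i ≠ j ∧ (m = g ∨ C < sg m g))).card : ℝ) ≤
            1 + (((Icc 1 (x i)).filter fun m => C < sg m g).card : ℝ) := by exact_mod_cast hc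
        refine hc2.trans ?_
        have hs := sg_sum (x := x i) (g := g) (Y := A * N + 3) (by have := (hx i).1; omega) (by omega) (by omega)
        have hp := hpr (A * N + 3) (by omega)
        have hmk : (((Icc 1 (x i)).filter fun m => C < sg m g).card : ℝ) * C ≤ ∑ m ∈ Icc 1 (x i), sg m g := by
          calc _ = ∑ m ∈ (Icc 1 (x i)).filter (fun m => C < sg m g), C := by rw [sum_const, nsmul_eq_mul]
            _ ≤ ∑ m ∈ (Icc 1 (x i)).filter (fun m => C < sg m g), sg m g :=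
                sum_le_sum fun m hm => (mem_filter.1 hm).2.le
            _ ≤ ∑ m ∈ Icc 1 (x i), sg m g :=
                sum_le_sum_of_subset_of_nonneg (filter_subset _ _) fun m _ _ => sg_nonneg _ _
        have hxi := (hx i).2
        rw [Nat.card_Icc, Nat.add_sub_cancel]
        have hfin : (1 + (((Icc 1 (x i)).filter fun m => C < sg m g).card : ℝ)) * C ≤ 3 * x i := by linarith
        rw [mul_div_assoc', le_div_iff₀ hC]
        linarith)
    simp only [Nat.card_Icc, Nat.add_sub_cancel] at h1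
    convert h1
  calc _ ≤ (((univ : Finset (Fin (k + 1) × Fin (k + 1))).biUnion fun q =>
        (Fintype.piFinset fun i => Icc 1 (x i)).filter
          fun h => q.1 ≠ q.2 ∧ (h q.1 = h q.2 ∨ C < sg (h q.1) (h q.2))).card : ℝ) := by
        exact_mod_cast card_le_card hsub
    _ ≤ ∑ q : Fin (k + 1) × Fin (k + 1), (((Fintype.piFinset fun i => Icc 1 (x i)).filter
          fun h => q.1 ≠ q.2 ∧ (h q.1 = h q.2 ∨ C < sg (h q.1) (h q.2))).card : ℝ) := by
        exact_mod_cast card_biUnion_le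
    _ ≤ ∑ q : Fin (k + 1) × Fin (k + 1), (∏ i, (x i : ℝ)) * (3 / C) := sum_le_sum fun q _ => hone q
    _ = (k + 1) ^ 2 * (3 / C) * ∏ i, (x i : ℝ) := by
        rw [sum_const, card_univ, Fintype.card_prod, Fintype.card_fin, nsmul_eq_mul]
        push_cast
        ring

end Pool.Agent.TH823.KB
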