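import Pool.Agent.W208.TL.Stm

/-! # The law of the parts of linear forms composed of the primes in `(w, y]` outside a finite set `B`

The definitions and proofs of `Pool.Agent.W208.TL`, `Pool.Agent.W591.TL` and `Pool.Agent.W479.TLClaim`, with a finite
set of excluded primes.
-/

set_option autoImplicit false

namespace Pool.Agent.TH823.KB

open Finset Filter
open Pool.Agent.W208.TL (lf box TAIL)

/-- the primes in `(w, y]` outside `B` -/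
def PP (B : Finset ℕ) (w y : ℕ) : Finset ℕ := (Pool.Agent.W208.TL.PP w y).filter (· ∉ B)

/-- the part of `n` composed of the primes in `(w, y]` outside `B` -/
noncomputable def sm (B : Finset ℕ) (w y n : ℕ) : ℕ := ∏ l ∈ PP B w y, l ^ n.factorization l

/-- the forms are independent at the primes of `(w, y]` outside `B` -/
def Indep {J : ℕ} (B : Finset ℕ) (w y : ℕ) (α : Fin J → ℕ) (β : Fin J → ℤ) : Prop :=
  (∀ i, 1 ≤ α i) ∧ ∀ l ∈ PP B w y, (∀ i, ¬ l ∣ α i) ∧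
    ∀ i j, i ≠ j → ¬ (l : ℤ) ∣ (α i : ℤ) * β j - (α j : ℤ) * β i

open Classical in
noncomputable def dens {J : ℕ} (B : Finset ℕ) (w y : ℕ) (d : Fin J → ℕ) : ℝ :=
  if (∀ i, sm B w y (d i) = d i) ∧ (∀ i j, i ≠ j → Nat.Coprime (d i) (d j)) then
    (∏ l ∈ PP B w y, (1 - (if ∃ i, l ∣ d i then (1 : ℝ) else (J : ℝ)) / l)) / ∏ i, (d i : ℝ)
  else 0

noncomputable def mu (B : Finset ℕ) (w y d : ℕ) : ℝ :=
  if sm B w y d = d then (∏ l ∈ PP B w y, (1 - 1 / (l : ℝ))) / d else 0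

open Classical in
def LAW : Prop := ∀ J : ℕ, 1 ≤ J → ∀ ε : ℝ, 0 < ε → ε ≤ 1 → ∃ K y0 : ℕ, 1 ≤ K ∧
  ∀ (B : Finset ℕ) (α : Fin J → ℕ) (β : Fin J → ℤ) (w : ℕ),
  ∀ Q b : ℕ, 1 ≤ Q → (∀ l : ℕ, l.Prime → l ∣ Q → l ≤ w) → ∀ y X : ℕ, y0 ≤ y → Indep B w y α β → ∀ d : Fin J → ℕ,
    |(((Ioc 0 X).filter (fun m => m ≡ b [MOD Q] ∧ ∀ i, sm B w y (lf (α i) (β i) m) = d i)).card : ℝ) -
      X / Q * dens B w y d| ≤ ε * (X / Q * dens B w y d) + (y : ℝ) ^ K + J + 3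

def CLAIM : Prop := ∀ J : ℕ, 1 ≤ J → ∀ ε : ℝ, 0 < ε → ∃ K1 K w0 : ℕ, 1 ≤ K1 ∧ 1 ≤ K ∧
  ∀ w Q : ℕ, w0 ≤ w → 1 ≤ Q → (∀ l : ℕ, l.Prime → l ∣ Q → l ≤ w) → ∃ y0 : ℕ, ∀ y : ℕ, y0 ≤ y →
    ∀ B : Finset ℕ,
    |∑ d ∈ Icc 1 (y ^ K1), mu B w y d - 1| ≤ ε ∧
    ∀ (α : Fin J → ℕ) (β : Fin J → ℤ), Indep B w y α β → ∀ b M : ℕ, y ^ K ≤ M →
    ∀ Ψ : (Fin J → ℕ) → ℂ, (∀ d, ‖Ψ d‖ ≤ 1) →
      ‖((Q : ℂ) / (M : ℂ)) * ∑ m ∈ (Ioc 0 M).filter (fun m => m ≡ b [MOD Q]),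
          Ψ (fun i => sm B w y (lf (α i) (β i) m)) -
        ∑ d ∈ box J (y ^ K1), Ψ d * ∏ i, (mu B w y (d i) : ℂ)‖ ≤ ε

theorem mem_PP {B : Finset ℕ} {w y l : ℕ} (h : l ∈ PP B w y) : (w < l ∧ l ≤ y) ∧ l.Prime := by
  unfold PP Pool.Agent.W208.TL.PP at h
  rw [mem_filter, mem_filter, mem_Ioc] at h
  exact h.1

theorem PP_sub {B : Finset ℕ} {w y : ℕ} : PP B w y ⊆ Pool.Agent.W208.TL.PP w y := filter_subset _ _

end Pool.Agent.TH823.KB
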